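import Pool.Agent.H649.PT.Trn

set_option autoImplicit false

/-!
Classes of oracles: `Π₂` and `Σ₃` relations.
-/

namespace Pool.Agent.H649.PT

open Encodable Pool.Agent.Helper227 Pool.Agent.H548R2.Post
open Nat.Partrec (Code)
open Pool.Agent.TH769.ZA (si_gen pf_sub)
open Pool.Agent.TH769.CD (bdd_lt pf_add pf_mul pf_div pf_mod pf_pow pf_getD pf_take
  pf_append pf_cons pf_length pf_range pf_natPair pf_unpair pf_encode pf_testBit pf_xorb pf_andb
  pf_hlt pf_xor pp_exlt pp_alllt pp_imp pp_eq pp_le pp_lt pp_mem pf_decide pf_pre pp_En pf_ext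
  ext_pre_eq)

attribute [local fun_prop] Primrec
attribute [local fun_prop] Primrec.id Primrec.const Primrec.comp Primrec.pair Primrec.fst Primrec.snd
attribute [local fun_prop] pf_add pf_mul pf_div pf_mod pf_pow pf_getD pf_take pf_append pf_cons
  pf_length pf_range pf_natPair pf_unpair pf_encode pf_testBit pf_xorb pf_andb pf_hlt pf_xor
  pf_sub

/-- `Σ₁` relations, uniformly in the oracle -/
def C1 {α : Type} [Primcodable α] (P : α → (ℕ → Bool) → Prop) : Prop :=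
  ∃ Q : α × List Bool → Prop, S1 Q ∧ (∀ a σ τ, σ <+: τ → Q (a, σ) → Q (a, τ)) ∧
    ∀ a X, P a X ↔ ∃ m, Q (a, pre X m)

/-- `Π₂` relations, uniformly in the oracle -/
def C2 {α : Type} [Primcodable α] (P : α → (ℕ → Bool) → Prop) : Prop :=
  ∃ P' : α × ℕ → (ℕ → Bool) → Prop, C1 P' ∧ ∀ a X, P a X ↔ ∀ n, P' (a, n) X

section

variable {α β : Type} [Primcodable α] [Primcodable β]

theorem C1.of {Q : α × List Bool → Prop} (hQ : S1 Q) : C1 fun a X => ∃ m, Q (a, pre X m) := by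
  refine ⟨fun x => ∃ m, m < x.2.length + 1 ∧ Q (x.1, x.2.take m), ?_, ?_, ?_⟩
  · refine S1.ex (S1.and (S1.of_prim (pp_lt (by fun_prop) (by fun_prop))) ?_)
    exact hQ.comp (f := fun x : (α × List Bool) × ℕ => (x.1.1, x.1.2.take x.2)) (by fun_prop)
  · rintro a σ τ ⟨ρ, rfl⟩ ⟨m, h1, h2⟩
    simp only at h1 h2 ⊢
    refine ⟨m, by rw [List.length_append]; omega, ?_⟩
    rw [List.take_append_of_le_length (by omega)]
    exact h2
  · intro a X
    constructor
    · rintro ⟨m, hm⟩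
      exact ⟨m, m, by simp, by simpa [take_pre _ _ _ le_rfl] using hm⟩
    · rintro ⟨m, m', h1, h2⟩
      simp only [length_pre] at h1 h2
      rw [take_pre _ _ _ (by omega)] at h2
      exact ⟨m', h2⟩

theorem C1.of_eq {P P' : α → (ℕ → Bool) → Prop} (h : C1 P) (he : ∀ a X, P a X ↔ P' a X) :
    C1 P' := by
  obtain ⟨Q, h1, h2, h3⟩ := h
  exact ⟨Q, h1, h2, fun a X => (he a X).symm.trans (h3 a X)⟩

theorem C1.s1 {P : α → Prop} (hP : S1 P) : C1 fun a (_ : ℕ → Bool) => P a :=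
  ⟨fun x => P x.1, hP.comp Primrec.fst, fun _ _ _ _ h => h, fun _ _ => by simp⟩

theorem C1.or {P P' : α → (ℕ → Bool) → Prop} (h : C1 P) (h' : C1 P') :
    C1 fun a X => P a X ∨ P' a X := by
  obtain ⟨Q, h1, h2, h3⟩ := h
  obtain ⟨Q', h1', h2', h3'⟩ := h'
  refine ⟨fun x => Q x ∨ Q' x, h1.or h1', fun a σ τ h h4 => h4.imp (h2 _ _ _ h) (h2' _ _ _ h),
    fun a X => ?_⟩
  show (P a X ∨ P' a X) ↔ _
  rw [h3, h3']
  exact exists_or.symm

theorem C1.comp {P : β → (ℕ → Bool) → Prop} (h : C1 P) {f : α → β} (hf : Primrec f) :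
    C1 fun a X => P (f a) X := by
  obtain ⟨Q, h1, h2, h3⟩ := h
  exact ⟨fun x => Q (f x.1, x.2), h1.comp (f := fun x : α × List Bool => (f x.1, x.2)) (by fun_prop),
    fun a σ τ h h4 => h2 _ _ _ h h4, fun a X => h3 _ _⟩

theorem C2.of_eq {P P' : α → (ℕ → Bool) → Prop} (h : C2 P) (he : ∀ a X, P a X ↔ P' a X) :
    C2 P' := by
  obtain ⟨Q, h1, h3⟩ := h
  exact ⟨Q, h1, fun a X => (he a X).symm.trans (h3 a X)⟩

theorem C2.of1 {P : α → (ℕ → Bool) → Prop} (h : C1 P) : C2 P :=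
  ⟨fun x X => P x.1 X, h.comp Primrec.fst, fun _ _ => by simp⟩

theorem C2.comp {P : β → (ℕ → Bool) → Prop} (h : C2 P) {f : α → β} (hf : Primrec f) :
    C2 fun a X => P (f a) X := by
  obtain ⟨P', h1, h2⟩ := h
  exact ⟨fun x X => P' (f x.1, x.2) X, h1.comp (f := fun x : α × ℕ => (f x.1, x.2)) (by fun_prop),
    fun a X => h2 _ _⟩

theorem C2.all {P : α × β → (ℕ → Bool) → Prop} (h : C2 P) : C2 fun a X => ∀ b, P (a, b) X := by
  obtain ⟨P', h1, h2⟩ := h
  obtain ⟨Q, q1, q2, q3⟩ := h1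
  refine ⟨fun x X => ∀ b ∈ decode (α := β) x.2.unpair.1, P' ((x.1, b), x.2.unpair.2) X, ?_, ?_⟩
  · refine ⟨fun x => ∀ b ∈ (decode (α := β) x.1.2.unpair.1).toList,
      Q (((x.1.1, b), x.1.2.unpair.2), x.2), ?_, ?_, ?_⟩
    · refine S1.all_mem (f := fun x : (α × ℕ) × List Bool =>
        (decode (α := β) x.1.2.unpair.1).toList)
        (p := fun x b => Q (((x.1.1, b), x.1.2.unpair.2), x.2)) ?_ ?_
      · exact q1.comp (f := fun y : ((α × ℕ) × List Bool) × β =>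
          (((y.1.1.1, y.2), y.1.1.2.unpair.2), y.1.2)) (by fun_prop)
      · exact Primrec.optionToList.comp (Primrec.decode.comp (by fun_prop))
    · intro a σ τ hs h3 b hb
      exact q2 _ _ _ hs (h3 b hb)
    · rintro ⟨a, n⟩ X
      simp only [Option.mem_toList]
      cases hd : decode (α := β) n.unpair.1 with
      | none => simp
      | some b => simp [q3]
  · intro a X
    simp only [h2]
    constructor
    · intro h3 n b _
      exact h3 b _
    · intro h3 b n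
      have := h3 (Nat.pair (encode b) n) b (by simp)
      simpa using this

theorem C2.or {P P' : α → (ℕ → Bool) → Prop} (h : C2 P) (h' : C2 P') :
    C2 fun a X => P a X ∨ P' a X := by
  obtain ⟨Q, h1, h3⟩ := h
  obtain ⟨Q', h1', h3'⟩ := h'
  refine ⟨fun x X => Q (x.1, x.2.unpair.1) X ∨ Q' (x.1, x.2.unpair.2) X, ?_, fun a X => ?_⟩
  · exact (h1.comp (f := fun x : α × ℕ => (x.1, x.2.unpair.1)) (by fun_prop)).or
      (h1'.comp (f := fun x : α × ℕ => (x.1, x.2.unpair.2)) (by fun_prop))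
  · show (P a X ∨ P' a X) ↔ _
    rw [h3, h3']
    constructor
    · rintro (h4 | h4) n
      · exact Or.inl (h4 _)
      · exact Or.inr (h4 _)
    · intro h4
      by_contra hc
      push Not at hc
      obtain ⟨⟨n, hn⟩, n', hn'⟩ := hc
      have := h4 (Nat.pair n n')
      simp only [Nat.unpair_pair] at this
      exact this.elim hn hn'

theorem C2.and {P P' : α → (ℕ → Bool) → Prop} (h : C2 P) (h' : C2 P') :
    C2 fun a X => P a X ∧ P' a X := by
  have h1 : C2 fun (x : α × Bool) X => (x.2 = false ∨ P x.1 X) ∧ (x.2 = true ∨ P' x.1 X) := by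
    obtain ⟨Q, h1, h3⟩ := h
    obtain ⟨Q', h1', h3'⟩ := h'
    obtain ⟨q, q1, q2, q3⟩ := h1
    obtain ⟨q', q1', q2', q3'⟩ := h1'
    refine ⟨fun x X => (x.1.2 = true ∧ Q (x.1.1, x.2) X) ∨ (x.1.2 = false ∧ Q' (x.1.1, x.2) X),
      ?_, fun a X => ?_⟩
    · refine ⟨fun x => (x.1.1.2 = true ∧ q ((x.1.1.1, x.1.2), x.2)) ∨
        (x.1.1.2 = false ∧ q' ((x.1.1.1, x.1.2), x.2)), ?_, ?_, ?_⟩
      · refine S1.or (S1.and (S1.of_prim (pp_eq (by fun_prop) (by fun_prop)))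
          (q1.comp (f := fun x : ((α × Bool) × ℕ) × List Bool => ((x.1.1.1, x.1.2), x.2))
            (by fun_prop))) (S1.and (S1.of_prim (pp_eq (by fun_prop) (by fun_prop)))
          (q1'.comp (f := fun x : ((α × Bool) × ℕ) × List Bool => ((x.1.1.1, x.1.2), x.2))
            (by fun_prop)))
      · rintro a σ τ hs (⟨h4, h5⟩ | ⟨h4, h5⟩)
        · exact Or.inl ⟨h4, q2 _ _ _ hs h5⟩
        · exact Or.inr ⟨h4, q2' _ _ _ hs h5⟩
      · rintro ⟨⟨a, b⟩, n⟩ X
        simp only [q3, q3']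
        cases b <;> simp
    · obtain ⟨a, b⟩ := a
      simp only [h3, h3']
      cases b <;> simp
  have h2 : C2 fun (a : α) X => ∀ b : Bool, (b = false ∨ P a X) ∧ (b = true ∨ P' a X) := h1.all
  exact h2.of_eq fun a X => ⟨fun h3 => ⟨by simpa using (h3 true).1, by simpa using (h3 false).2⟩,
    fun h3 b => ⟨Or.inr h3.1, Or.inr h3.2⟩⟩

/-- `Π₁` conditions -/
theorem C2.neg {P : α → (ℕ → Bool) → Prop} (h : C1 P) : C2 fun a X => ¬ P a X := by
  obtain ⟨Q, h1, h2, h3⟩ := h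
  obtain ⟨q, hq, hm, he⟩ := h1
  have h4 : C1 fun (x : α × ℕ) X => ∃ m, (pre X m).length = x.2.unpair.1 ∧
      ¬ q (x.1, pre X m) x.2.unpair.2 := by
    refine C1.of (Q := fun y : (α × ℕ) × List Bool => y.2.length = y.1.2.unpair.1 ∧
      ¬ q (y.1.1, y.2) y.1.2.unpair.2) (S1.of_prim (PrimrecPred.and
        (pp_eq (by fun_prop) (by fun_prop)) (PrimrecPred.not ?_)))
    exact hq.comp (f := fun y : (α × ℕ) × List Bool => (y.1.1, y.2))
      (g := fun y : (α × ℕ) × List Bool => y.1.2.unpair.2) (by fun_prop) (by fun_prop)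
  refine ⟨_, h4, fun a X => ?_⟩
  show (¬ P a X) ↔ _
  rw [h3]
  simp only [length_pre]
  constructor
  · intro h5 n
    refine ⟨n.unpair.1, rfl, fun h6 => h5 ⟨n.unpair.1, ?_⟩⟩
    exact (he _).2 ⟨_, h6⟩
  · rintro h5 ⟨m, hm'⟩
    obtain ⟨t, ht⟩ := (he _).1 hm'
    obtain ⟨m', h6, h7⟩ := h5 (Nat.pair m t)
    simp only [Nat.unpair_pair] at h6 h7
    subst h6
    exact h7 ht

/-- the computable oracle -/
def O : ℕ → Bool := fun _ => false

theorem pre_O (s : ℕ) : pre O s = List.replicate s false := by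
  refine List.ext_getElem (by simp) fun i h1 h2 => ?_
  rw [getElem_pre, List.getElem_replicate]
  rfl

theorem pf_preO {f : α → ℕ} (hf : Primrec f) : Primrec fun a => pre O (f a) :=
  pf_pre (Y := fun _ => O) (Primrec.const false) hf

theorem s1_of_si {P : α → Prop} (h : SI O P) : S1 P := by
  obtain ⟨E, hE, -, eE⟩ := h
  have h1 : S1 fun a => ∃ s : ℕ, E (pre O s, a) :=
    S1.ex (hE.comp (f := fun x : α × ℕ => (pre O x.2, x.1)) ((pf_preO (by fun_prop)).pair
      (by fun_prop)))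
  exact h1.of_eq fun a => (eE a).symm

/-- negations of conditions c.e. in the halting problem -/
theorem C2.not_jump {P : α → Prop} (h : SI (jump O) P) : C2 fun a (_ : ℕ → Bool) => ¬ P a := by
  obtain ⟨E, hE, mE, eE⟩ := h
  obtain ⟨q, hq, hm, he⟩ := hE
  -- the string `ρ` looks wrong at the stage `m`
  have h1 : S1 fun y : (α × (List Bool × ℕ × ℕ)) × List Bool =>
      ¬ q (y.1.2.1, y.1.1) y.1.2.2.1 ∨
      (∃ m : ℕ, y.1.2.2.2 ≤ m ∧ ¬ ∀ i < y.1.2.1.length,
        (y.1.2.1.getD i false = true ↔ En m i i O)) := by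
    refine S1.or (S1.of_prim (PrimrecPred.not ?_)) (S1.ex (S1.and (S1.of_prim ?_) (S1.of_prim
      (PrimrecPred.not (pp_alllt (by fun_prop) ?_)))))
    · exact hq.comp (f := fun y : (α × (List Bool × ℕ × ℕ)) × List Bool => (y.1.2.1, y.1.1))
        (g := fun y : (α × (List Bool × ℕ × ℕ)) × List Bool => y.1.2.2.1) (by fun_prop)
        (by fun_prop)
    · exact pp_le (by fun_prop) (by fun_prop)
    · have a1 : PrimrecPred fun x :
          (((α × (List Bool × ℕ × ℕ)) × List Bool) × ℕ) × ℕ =>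
          (x.1.1.1.2.1.getD x.2 false = true) := pp_eq (by fun_prop) (Primrec.const true)
      have a2 : PrimrecPred fun x :
          (((α × (List Bool × ℕ × ℕ)) × List Bool) × ℕ) × ℕ => En x.1.2 x.2 x.2 O :=
        pp_En (Y := fun _ => O) (Primrec.const false) (by fun_prop) (by fun_prop) (by fun_prop)
      refine ((pp_imp a1 a2).and (pp_imp a2 a1)).of_eq fun x => ?_
      exact iff_def.symm
  have h2 : C1 fun (x : α × (List Bool × ℕ × ℕ)) (_ : ℕ → Bool) =>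
      ¬ q (x.2.1, x.1) x.2.2.1 ∨
      (∃ m : ℕ, x.2.2.2 ≤ m ∧ ¬ ∀ i < x.2.1.length,
        (x.2.1.getD i false = true ↔ En m i i O)) := by
    refine (C1.of h1).of_eq fun a X => ?_
    simp
  refine (C2.all (C2.of1 h2)).of_eq fun a X => ?_
  -- the approximation to the halting problem
  have happ : ∀ i, ∃ t, ∀ m ≥ t, (En m i i O ↔ jump O i = true) := by
    intro i
    rw [jump_eq_true, mem_WE_iff]
    by_cases hex : ∃ s, En s i i O
    · obtain ⟨s, hs⟩ := hex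
      exact ⟨s, fun m hm => ⟨fun _ => ⟨s, hs⟩, fun _ => En_mono hm hs⟩⟩
    · exact ⟨0, fun m _ => ⟨fun h3 => ⟨m, h3⟩, fun h3 => absurd h3 hex⟩⟩
  have happ2 : ∀ N, ∃ t, ∀ m ≥ t, ∀ i < N, (En m i i O ↔ jump O i = true) := by
    intro N
    obtain ⟨t, ht⟩ := bdd_lt N (fun i m => (En m i i O ↔ jump O i = true)) (fun i _ => happ i)
    exact ⟨t, fun m hm i hi => ht i hi m hm⟩
  constructor
  · rintro h3 hPa
    obtain ⟨s, hs⟩ := (eE a).1 hPa
    obtain ⟨t, ht⟩ := (he _).1 hs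
    obtain ⟨w, hw⟩ := happ2 s
    rcases h3 (pre (jump O) s, t, w) with h4 | ⟨m, h4, h5⟩
    · exact h4 ht
    · refine h5 fun i hi => ?_
      simp only [length_pre] at hi
      rw [pre_getD _ _ _ _ hi]
      exact (hw m h4 i hi).symm
  · rintro h3 ⟨ρ, t, w⟩
    by_cases h4 : q (ρ, a) t
    · right
      obtain ⟨w', hw'⟩ := happ2 ρ.length
      refine ⟨max w w', le_max_left _ _, fun h5 => h3 ?_⟩
      have h6 : ρ = pre (jump O) ρ.length := by
        refine List.ext_getElem (by simp) fun i hi1 hi2 => ?_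
        rw [getElem_pre]
        have h7 := h5 i hi1
        simp only at h7
        rw [hw' _ (le_max_right _ _) i hi1, List.getD_eq_getElem _ _ hi1] at h7
        exact Bool.eq_iff_iff.2 h7
      rw [eE]
      exact ⟨ρ.length, h6 ▸ (he _).2 ⟨t, h4⟩⟩
    · exact Or.inl h4

end

/-- from the classes to `Sig3` -/
theorem sig3_of {P : ℕ × ℕ → (ℕ → Bool) → Prop} (h : C2 P) : Sig3 fun v X => ∃ k, P (v, k) X := by
  classical
  obtain ⟨P', ⟨Q, q1, q2, q3⟩, h2⟩ := h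
  obtain ⟨q, hq, hm, he⟩ := q1
  have hp : PrimrecPred fun x : ℕ × ℕ × ℕ × List Bool =>
      ∃ m < x.2.2.2.length + 1, q (((x.1, x.2.1), x.2.2.1), x.2.2.2.take m) x.2.2.2.length := by
    refine pp_exlt (by fun_prop) ?_
    exact hq.comp (f := fun y : (ℕ × ℕ × ℕ × List Bool) × ℕ =>
      (((y.1.1, y.1.2.1), y.1.2.2.1), y.1.2.2.2.take y.2))
      (g := fun y : (ℕ × ℕ × ℕ × List Bool) × ℕ => y.1.2.2.2.length) (by fun_prop) (by fun_prop)
  refine ⟨fun v k n σ => decide (∃ m < σ.length + 1, q (((v, k), n), σ.take m) σ.length),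
    (pf_decide hp _).to_comp, fun v X => exists_congr fun k => ?_⟩
  rw [h2]
  refine forall_congr' fun n => ?_
  rw [q3]
  constructor
  · rintro ⟨m, hm'⟩
    obtain ⟨t, ht⟩ := (he _).1 hm'
    refine ⟨max m t, ?_⟩
    rw [decide_eq_true_iff]
    refine ⟨m, by rw [length_pre]; omega, ?_⟩
    rw [length_pre, take_pre _ _ _ (le_max_left _ _)]
    exact hm _ _ _ (le_max_right _ _) ht
  · rintro ⟨s, hs⟩
    rw [decide_eq_true_iff] at hs
    obtain ⟨m, h3, h4⟩ := hs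
    rw [length_pre] at h3 h4
    rw [take_pre _ _ _ (by omega)] at h4
    exact ⟨m, (he _).2 ⟨_, h4⟩⟩

/-- conversely -/
theorem of_sig3 {R : ℕ → (ℕ → Bool) → Prop} (h : Sig3 R) :
    ∃ P : ℕ × ℕ → (ℕ → Bool) → Prop, C2 P ∧ ∀ v X, R v X ↔ ∃ k, P (v, k) X := by
  obtain ⟨δ, hδ, h1⟩ := h
  refine ⟨fun x X => ∀ n, ∃ m, δ x.1 x.2 n (pre X m) = true, ?_, h1⟩
  refine ⟨fun x X => ∃ m, δ x.1.1 x.1.2 x.2 (pre X m) = true, C1.of
    (Q := fun y : ((ℕ × ℕ) × ℕ) × List Bool => δ y.1.1.1 y.1.1.2 y.1.2 y.2 = true) ?_,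
    fun _ _ => Iff.rfl⟩
  have hb : S1 fun b : Bool => b = true :=
    S1.of_prim (pp_eq (by fun_prop) (Primrec.const true))
  refine S1.comp_computable (f := fun y : ((ℕ × ℕ) × ℕ) × List Bool =>
    δ y.1.1.1 y.1.1.2 y.1.2 y.2) hb ?_
  exact hδ.comp (g := fun y : ((ℕ × ℕ) × ℕ) × List Bool => (y.1.1.1, y.1.1.2, y.1.2, y.2))
    (Primrec.to_comp (by fun_prop))

end Pool.Agent.H649.PT
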