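import Pool.Agent.H649.PT.Fin

set_option autoImplicit false

/-!
The construction is primitive recursive in finite data.
-/

namespace Pool.Agent.H649.PT

open Encodable Pool.Agent.Helper227 Pool.Agent.H548R2.Post
open Nat.Partrec (Code)
open Pool.Agent.TH769.ZA (si_gen pf_sub)
open Pool.Agent.TH769.CD (bdd_lt pf_add pf_mul pf_div pf_mod pf_pow pf_getD pf_take
  pf_append pf_cons pf_length pf_range pf_natPair pf_unpair pf_encode pf_testBit pf_xorb pf_andb
  pf_hlt pf_xor pp_exlt pp_alllt pp_imp pp_eq pp_le pp_lt pp_mem pf_decide pf_pre pp_En pf_ext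
  ext_pre_eq)

attribute [local fun_prop] Primrec
attribute [local fun_prop] Primrec.id Primrec.const Primrec.comp Primrec.pair Primrec.fst Primrec.snd
attribute [local fun_prop] pf_add pf_mul pf_div pf_mod pf_pow pf_getD pf_take pf_append pf_cons
  pf_length pf_range pf_natPair pf_unpair pf_encode pf_testBit pf_xorb pf_andb pf_hlt pf_xor
  pf_sub

variable {θ u : ℕ → ℕ → List Bool → Bool}

section prm

variable {β : Type} [Primcodable β]

/-- primitive recursive families of conditions -/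
def Pr (θ : ℕ → ℕ → List Bool → Bool) : Prop :=
  Primrec fun x : ℕ × ℕ × List Bool => θ x.1 x.2.1 x.2.2

theorem pf_th3 (hθ : Pr θ) {k n : β → ℕ} {σ : β → List Bool} (hk : Primrec k) (hn : Primrec n)
    (hσ : Primrec σ) : Primrec fun b => θ (k b) (n b) (σ b) :=
  Primrec.comp (f := fun x : ℕ × ℕ × List Bool => θ x.1 x.2.1 x.2.2)
    (g := fun b => (k b, n b, σ b)) hθ (by fun_prop)

theorem pf_el (hθ : Pr θ) {k : β → ℕ} {σ : β → List Bool} (hk : Primrec k) (hσ : Primrec σ) :
    Primrec fun b => el θ (k b) (σ b) := by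
  unfold el
  refine Primrec.list_findIdx (pf_range (pf_length hσ)) ?_
  have h : Primrec fun x : β × ℕ => !(θ (k x.1) x.2 (σ x.1)) :=
    Primrec.not.comp (pf_th3 hθ (by fun_prop) (by fun_prop) (by fun_prop))
  exact h

theorem res_le_iff {s e b : ℕ} {Y : ℕ → Bool} : res s e Y ≤ b ↔
    ((∃ t < s + 1, hlt s e e (pre Y t) = true) →
      ∃ t < s + 1, t ≤ b ∧ hlt s e e (pre Y t) = true) := by
  constructor
  · rintro h ⟨t, ht, h1⟩
    have h2 := En_iff_res.1 ⟨t, by omega, h1⟩
    exact ⟨res s e Y, Nat.lt_succ_of_le (res_le _ _ _), h, h2⟩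
  · intro h
    by_cases hE : En s e e Y
    · obtain ⟨t, ht, h1⟩ := hE
      obtain ⟨t', ht', h2, h3⟩ := h ⟨t, by omega, h1⟩
      exact (res_le_of_hlt (by omega) h3).trans h2
    · rw [t15_res_zero hE]
      exact Nat.zero_le _

theorem pp_res {Y : β → ℕ → Bool} {s e b : β → ℕ} (hY : Primrec fun x : β × ℕ => Y x.1 x.2)
    (hs : Primrec s) (he : Primrec e) (hb : Primrec b) :
    PrimrecPred fun x => res (s x) (e x) (Y x) ≤ b x := by
  have hY' : Primrec fun x : (β × ℕ) × ℕ => Y x.1.1 x.2 :=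
    Primrec.comp (f := fun x : β × ℕ => Y x.1 x.2) (g := fun x : (β × ℕ) × ℕ => (x.1.1, x.2)) hY
      (by fun_prop)
  have hp : Primrec fun x : β × ℕ => pre (Y x.1) x.2 :=
    pf_pre (Y := fun x : β × ℕ => Y x.1) (u := fun x => x.2) hY' (by fun_prop)
  have h : Primrec fun x : β × ℕ => hlt (s x.1) (e x.1) (e x.1) (pre (Y x.1) x.2) :=
    pf_hlt (by fun_prop) (by fun_prop) (by fun_prop) hp
  have h1 : PrimrecPred fun x : β => ((∃ t < s x + 1, hlt (s x) (e x) (e x) (pre (Y x) t) = true) →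
      ∃ t < s x + 1, t ≤ b x ∧ hlt (s x) (e x) (e x) (pre (Y x) t) = true) := by
    refine pp_imp (pp_exlt (by fun_prop) (pp_eq h (by fun_prop)))
      (pp_exlt (by fun_prop) (PrimrecPred.and (pp_le (by fun_prop) (by fun_prop))
        (pp_eq h (by fun_prop))))
  exact h1.of_eq fun x => res_le_iff.symm

theorem pf_kd {z : β → ℕ} (hz : Primrec z) : Primrec fun b => kd (z b) := by
  unfold kd; fun_prop

theorem pf_rr {z : β → ℕ} (hz : Primrec z) : Primrec fun b => rr (z b) := by
  unfold rr; fun_prop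

theorem pf_yy {z : β → ℕ} (hz : Primrec z) : Primrec fun b => yy (z b) := by
  unfold yy; fun_prop

theorem pf_nn {z : β → ℕ} (hz : Primrec z) : Primrec fun b => nn (z b) := by
  have h := pf_kd hz
  unfold nn
  exact Primrec.cond (pf_decide (pp_eq (by fun_prop) (by fun_prop)) _) (by fun_prop) h

theorem pf_th {z : β → ℕ} (hz : Primrec z) : Primrec fun b => th (z b) := by
  have h := pf_rr hz
  unfold th
  exact Primrec.cond (pf_decide (pp_eq (by fun_prop) (by fun_prop)) _) hz h

theorem pf_jn {σ : β → List Bool} {a : β → List ℕ} (hσ : Primrec σ) (ha : Primrec a) {i : β → ℕ}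
    (hi : Primrec i) : Primrec fun b => jn (ext (σ b)) (a b) (i b) := by
  unfold jn
  exact Primrec.ite (pp_eq (by fun_prop) (by fun_prop)) (pf_ext hσ (by fun_prop))
    (pf_decide (pp_mem (by fun_prop) ha) _)

theorem pp_Put (hθ : Pr θ) (hu : Pr u) {a : β → List ℕ} {s z : β → ℕ} {σ : β → List Bool}
    (ha : Primrec a) (hs : Primrec s) (hσ : Primrec σ) (hz : Primrec z) :
    PrimrecPred fun b => Put θ u (a b) (s b) (ext (σ b)) (z b) := by
  have hk := pf_kd hz
  have hr := pf_rr hz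
  have hy := pf_yy hz
  have hn := pf_nn hz
  have ht := pf_th hz
  have hX : Primrec fun x : β × ℕ => ext (σ x.1) x.2 := pf_ext (by fun_prop) (by fun_prop)
  have hps : Primrec fun b => pre (ext (σ b)) (s b) := pf_pre hX hs
  have hpt : Primrec fun b => pre (ext (σ b)) (th (z b)) := pf_pre hX ht
  unfold Put Cn
  refine PrimrecPred.and (PrimrecPred.and ?_ ?_) (PrimrecPred.or ?_ ?_)
  · refine pp_alllt hn (pp_eq (pf_el hθ (by fun_prop) (hps.comp Primrec.fst))
      (pf_el hθ (by fun_prop) (hpt.comp Primrec.fst)))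
  · refine pp_alllt hn ?_
    refine pp_res (Y := fun x : β × ℕ => jn (ext (σ x.1)) (a x.1)) ?_ (by fun_prop) (by fun_prop)
      (ht.comp Primrec.fst)
    exact pf_jn (by fun_prop) (by fun_prop) (by fun_prop)
  · refine PrimrecPred.and (pp_eq (by fun_prop) (by fun_prop)) (PrimrecPred.and ?_ ?_)
    · exact pp_En hX hs hk hz
    · refine PP.all_mem (f := a) (p := fun b y => y % 2 = 0 → kd y ≠ kd (z b)) ?_ ha
      refine pp_imp (p := fun x : β × ℕ => x.2 % 2 = 0) (pp_eq (by fun_prop) (by fun_prop)) ?_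
      exact PrimrecPred.not (pp_eq (pf_kd (by fun_prop)) (hk.comp Primrec.fst))
  · refine PrimrecPred.and (pp_eq (by fun_prop) (by fun_prop)) (PrimrecPred.and
      (pp_lt hr (pf_el hθ hk hps)) (PrimrecPred.and (pp_lt hy (pf_el hθ hk hps))
        (pp_eq (pf_th3 hu hk hy hps) (by fun_prop))))

theorem pf_AA (hθ : Pr θ) (hu : Pr u) : Primrec fun x : List Bool × ℕ => AA θ u (ext x.1) x.2 := by
  classical
  have hh : Primrec₂ fun (x : List Bool × ℕ) (y : ℕ × List ℕ) =>
      y.2 ++ (List.range y.1).filter (fun z => decide (Put θ u y.2 y.1 (ext x.1) z)) := by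
    have h1 : PrimrecPred fun x : ℕ × ((List Bool × ℕ) × (ℕ × List ℕ)) =>
        Put θ u x.2.2.2 x.2.2.1 (ext x.2.1.1) x.1 :=
      pp_Put hθ hu (by fun_prop) (by fun_prop) (by fun_prop) (by fun_prop)
    have h2 : Primrec fun x : (List Bool × ℕ) × (ℕ × List ℕ) =>
        (List.range x.2.1).filterMap (fun z =>
          if Put θ u x.2.2 x.2.1 (ext x.1.1) z then some z else none) := by
      refine Primrec.listFilterMap (by fun_prop) ?_
      refine Primrec.ite (c := fun x : ((List Bool × ℕ) × (ℕ × List ℕ)) × ℕ =>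
        Put θ u x.1.2.2 x.1.2.1 (ext x.1.1.1) x.2) ?_
        (Primrec.option_some.comp Primrec.snd) (Primrec.const none)
      exact pp_Put hθ hu (by fun_prop) (by fun_prop) (by fun_prop) (by fun_prop)
    have h3 : Primrec fun x : (List Bool × ℕ) × (ℕ × List ℕ) =>
        x.2.2 ++ (List.range x.2.1).filter (fun z => decide (Put θ u x.2.2 x.2.1 (ext x.1.1) z)) := by
      refine pf_append (by fun_prop) (h2.of_eq fun x => ?_)
      rw [← List.filterMap_eq_filter]
      refine List.filterMap_congr fun z _ => ?_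
      by_cases hP : Put θ u x.2.2 x.2.1 (ext x.1.1) z
      · simp [hP, Option.guard]
      · simp [hP, Option.guard]
    exact h3
  have h := Primrec.nat_rec' (f := fun x : List Bool × ℕ => x.2)
    (g := fun _ => ([] : List ℕ)) Primrec.snd (Primrec.const []) hh
  refine h.of_eq ?_
  rintro ⟨σ, s⟩
  induction s with
  | zero => rfl
  | succ s ih =>
    simp only [AA]
    simp only at ih
    rw [← ih]

end prm

theorem Put_congr {X Y : ℕ → Bool} {a : List ℕ} {s z : ℕ} (h : ∀ i < s, X i = Y i) (hz : z < s) :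
    Put θ u a s X z ↔ Put θ u a s Y z := by
  have h1 : ∀ t ≤ s, pre X t = pre Y t := fun t ht => T03_pre h ht
  have h2 := th_le z
  unfold Put Cn
  rw [h1 s le_rfl, h1 (th z) (by omega), En_congr h]
  have h3 : ∀ k, res s k (jn X a) = res s k (jn Y a) := fun k => res_congr (t08_jn h rfl)
  simp only [h3]

theorem AA_local (s : ℕ) (X Y : ℕ → Bool) (h : ∀ i < s, X i = Y i) :
    AA θ u X s = AA θ u Y s := by
  classical
  induction s with
  | zero => rfl
  | succ s ih =>
    have h' : ∀ i < s, X i = Y i := fun i hi => h i (Nat.lt_succ_of_lt hi)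
    rw [AA, AA, ih h']
    congr 1
    refine List.filter_congr fun z hz => ?_
    rw [decide_eq_decide]
    exact Put_congr h' (List.mem_range.1 hz)

theorem AA_ext_pre (s : ℕ) (X : ℕ → Bool) :
    AA θ u (ext (pre X s)) (pre X s).length = AA θ u X s := by
  rw [length_pre]
  refine AA_local _ _ _ fun i hi => ?_
  exact pre_getD X s i false hi

theorem s1_AA (hθ : Pr θ) (hu : Pr u) :
    S1 fun x : List Bool × ℕ => (x.2 % 2 = 0 ∧ x.1[x.2 / 2]? = some true) ∨
      (x.2 % 2 = 1 ∧ x.2 / 2 ∈ AA θ u (ext x.1) x.1.length) := by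
  have h0 : Primrec fun x : List Bool × ℕ => AA θ u (ext x.1) x.1.length :=
    (pf_AA hθ hu).comp (f := fun x : List Bool × ℕ => AA θ u (ext x.1) x.2)
      (g := fun x : List Bool × ℕ => (x.1, x.1.length)) (by fun_prop)
  refine S1.of_prim (PrimrecPred.or (PrimrecPred.and ?_ ?_) (PrimrecPred.and ?_ ?_))
  · exact pp_eq (by fun_prop) (by fun_prop)
  · exact pp_eq (Primrec.list_getElem?.comp (by fun_prop) (by fun_prop)) (Primrec.const (some true))
  · exact pp_eq (by fun_prop) (by fun_prop)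
  · exact pp_mem (by fun_prop) h0

/-- the index of the operator -/
theorem exists_index' (hθ : Pr θ) (hu : Pr u) :
    ∃ e : ℕ, ∀ X : ℕ → Bool, WE X e = {m | WA θ u X m = true} := by
  obtain ⟨c, hc⟩ := Nat.Partrec.Code.exists_code.1 (s1_AA hθ hu).re
  refine ⟨encode c, fun X => ?_⟩
  ext m
  simp only [WE, Set.mem_ofPred_eq, Denumerable.ofNat_encode]
  have h1 : (∃ k : ℕ, (c.eval (encode ((List.range k).map X, m))).Dom) ↔
      ∃ k : ℕ, (m % 2 = 0 ∧ (pre X k)[m / 2]? = some true) ∨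
      (m % 2 = 1 ∧ m / 2 ∈ AA θ u (ext (pre X k)) (pre X k).length) := by
    refine exists_congr fun k => ?_
    rw [hc]
    simp [Part.assert, pre]
  rw [h1]
  have h2 : ∀ k : ℕ, (pre X k)[m / 2]? = some true ↔ m / 2 < k ∧ X (m / 2) = true := by
    intro k
    unfold pre
    rw [List.getElem?_map]
    by_cases hk : m / 2 < k
    · rw [List.getElem?_eq_getElem (by simpa using hk)]
      simp [hk]
    · rw [List.getElem?_eq_none (by simpa using hk)]
      simp [hk]
  have h5 : WA θ u X m = true ↔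
      (if m % 2 = 0 then X (m / 2) = true else ∃ s, m / 2 ∈ AA θ u X s) := by
    unfold WA
    split_ifs
    · exact Iff.rfl
    · simp only [decide_eq_true_eq]
  rw [h5]
  constructor
  · rintro ⟨k, ⟨h3, h4⟩ | ⟨h3, h4⟩⟩
    · rw [if_pos h3]
      exact ((h2 k).1 h4).2
    · rw [if_neg (by omega)]
      rw [AA_ext_pre] at h4
      exact ⟨k, h4⟩
  · intro h
    by_cases h3 : m % 2 = 0
    · rw [if_pos h3] at h
      exact ⟨m / 2 + 1, Or.inl ⟨h3, (h2 _).2 ⟨by omega, h⟩⟩⟩
    · rw [if_neg h3] at h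
      obtain ⟨k, hk⟩ := h
      refine ⟨k, Or.inr ⟨by omega, ?_⟩⟩
      rw [AA_ext_pre]
      exact hk

theorem chr_WA {X : ℕ → Bool} : chr {m | WA θ u X m = true} = WA θ u X := by
  funext m
  simp [chr]

theorem si_mem (hθ : Pr θ) (hu : Pr u) (X : ℕ → Bool) :
    SI X fun x : ℕ × ℕ => x.1 ∈ AA θ u X x.2 := by
  have hP : S1 fun y : ℕ × List Bool => y.1 ∈ AA θ u (ext y.2) y.2.length := by
    have h0 : Primrec fun x : ℕ × List Bool => AA θ u (ext x.2) x.2.length :=
      (pf_AA hθ hu).comp (f := fun x : List Bool × ℕ => AA θ u (ext x.1) x.2)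
        (g := fun x : ℕ × List Bool => (x.2, x.2.length)) (by fun_prop)
    exact S1.of_prim (pp_mem (by fun_prop) h0)
  refine (si_gen (X := X) hP).of_eq fun x => ?_
  rw [AA_ext_pre]

theorem si_not_mem (hθ : Pr θ) (hu : Pr u) (X : ℕ → Bool) :
    SI X fun x : ℕ × ℕ => ¬ x.1 ∈ AA θ u X x.2 := by
  have hP : S1 fun y : ℕ × List Bool => ¬ y.1 ∈ AA θ u (ext y.2) y.2.length := by
    have h0 : Primrec fun x : ℕ × List Bool => AA θ u (ext x.2) x.2.length :=
      (pf_AA hθ hu).comp (f := fun x : List Bool × ℕ => AA θ u (ext x.1) x.2)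
        (g := fun x : ℕ × List Bool => (x.2, x.2.length)) (by fun_prop)
    exact S1.of_prim (PrimrecPred.not (pp_mem (by fun_prop) h0))
  refine (si_gen (X := X) hP).of_eq fun x => ?_
  rw [AA_ext_pre]

theorem si_En' (hθ : Pr θ) (hu : Pr u) (X : ℕ → Bool) :
    (SI X fun x : ℕ × ℕ => En x.2 x.1 x.1 (jn X (AA θ u X x.2))) ∧
      SI X fun x : ℕ × ℕ => ¬ En x.2 x.1 x.1 (jn X (AA θ u X x.2)) := by
  have h0 : Primrec fun x : ℕ × List Bool => AA θ u (ext x.2) x.2.length :=
    (pf_AA hθ hu).comp (f := fun x : List Bool × ℕ => AA θ u (ext x.1) x.2)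
      (g := fun x : ℕ × List Bool => (x.2, x.2.length)) (by fun_prop)
  have hP : PrimrecPred fun y : ℕ × List Bool =>
      En y.2.length y.1 y.1 (jn (ext y.2) (AA θ u (ext y.2) y.2.length)) := by
    refine pp_En (Y := fun y : ℕ × List Bool => jn (ext y.2) (AA θ u (ext y.2) y.2.length)) ?_
      (by fun_prop) (by fun_prop) (by fun_prop)
    exact pf_jn (by fun_prop) (h0.comp Primrec.fst) (by fun_prop)
  have key : ∀ x : ℕ × ℕ, En (pre X x.2).length x.1 x.1
      (jn (ext (pre X x.2)) (AA θ u (ext (pre X x.2)) (pre X x.2).length)) ↔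
      En x.2 x.1 x.1 (jn X (AA θ u X x.2)) := by
    intro x
    rw [AA_ext_pre, length_pre]
    exact t42_En_congr fun i hi => t42_jn _ hi
  exact ⟨(si_gen (X := X) (S1.of_prim hP)).of_eq key,
    (si_gen (X := X) (S1.of_prim hP.not)).of_eq fun x => not_congr (key x)⟩

theorem WA_low (hθ : Pr θ) (hu : Pr u) (mθ : Mo θ) {X : ℕ → Bool} (hT : ∀ k, ¬ T θ k X) :
    TLe (jump (WA θ u X)) (jump X) := by
  obtain ⟨h1, h2⟩ := si_En' hθ hu X
  exact tLe_jump_of_limit (p := fun e s => En s e e (jn X (AA θ u X s))) h1 h2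
    (fun e he => low_true e he) (fun e he => low_false mθ hT e he)

end Pool.Agent.H649.PT
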