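import Pool.Agent.H649.PT.Aev
import Pool.Graph.R_seed8.TH769.TP.Cod

set_option autoImplicit false

/-!
Corollaries of the transfer theorem.
-/

namespace Pool.Agent.H649.PT

open Encodable Pool.Agent.Helper227 Pool.Agent.H548R2.Post
open Nat.Partrec (Code)
open Pool.Agent.TH769.TP (Via fv Fn FF mon_FF Lim Mon AG Unb lim_FF via_iff)
open Pool.Agent.TH769.ZA (si_gen pf_sub)
open Pool.Agent.TH769.CD (bdd_lt pf_add pf_mul pf_div pf_mod pf_pow pf_getD pf_take
  pf_append pf_cons pf_length pf_range pf_natPair pf_unpair pf_encode pf_testBit pf_xorb pf_andb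
  pf_hlt pf_xor pp_exlt pp_alllt pp_imp pp_eq pp_le pp_lt pp_mem pf_decide pf_pre pp_En pf_ext
  ext_pre_eq)

attribute [local fun_prop] Primrec
attribute [local fun_prop] Primrec.id Primrec.const Primrec.comp Primrec.pair Primrec.fst Primrec.snd
attribute [local fun_prop] pf_add pf_mul pf_div pf_mod pf_pow pf_getD pf_take pf_append pf_cons
  pf_length pf_range pf_natPair pf_unpair pf_encode pf_testBit pf_xorb pf_andb pf_hlt pf_xor
  pf_sub

theorem TEq.refl (X : ℕ → Bool) : TEq X X := ⟨TuringReducible.refl _, TuringReducible.refl _⟩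

theorem sig3_eq (e : ℕ) : Sig3 fun v _ => v = e := by
  have h : C2 fun (x : ℕ × ℕ) (_ : ℕ → Bool) => x.1 = e :=
    C2.of1 (C1.s1 (S1.of_prim (pp_eq (by fun_prop) (by fun_prop))))
  obtain ⟨δ, h1, h2⟩ := sig3_of h
  exact ⟨δ, h1, fun v X => Iff.trans (by simp) (h2 v X)⟩

theorem Sig3.and_eq {R : ℕ → (ℕ → Bool) → Prop} (hR : Sig3 R) (e : ℕ) :
    Sig3 fun v A => v = e ∧ R v A := by
  obtain ⟨P, h1, h2⟩ := of_sig3 hR
  have h : C2 fun (x : ℕ × ℕ) (A : ℕ → Bool) => x.1 = e ∧ P x A :=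
    C2.and (C2.of1 (C1.s1 (S1.of_prim (pp_eq (by fun_prop) (by fun_prop))))) h1
  obtain ⟨δ, h3, h4⟩ := sig3_of h
  refine ⟨δ, h3, fun v X => Iff.trans ?_ (h4 v X)⟩
  show (v = e ∧ R v X) ↔ ∃ k, v = e ∧ P (v, k) X
  rw [h2]
  exact ⟨fun ⟨a, k, b⟩ => ⟨k, a, b⟩, fun ⟨k, a, b⟩ => ⟨a, k, b⟩⟩

/-- the odd part of an oracle -/
def odd (A : ℕ → Bool) : ℕ → Bool := fun n => A (2 * n + 1)

theorem odd_le (A : ℕ → Bool) : TLe (odd A) A := by
  have hf : Computable fun n : ℕ => 2 * n + 1 := Primrec.to_comp (by fun_prop)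
  exact tLe_of_computable hf fun n => rfl

theorem C1.odd {α : Type} [Primcodable α] {P : α → (ℕ → Bool) → Prop} (h : C1 P) :
    C1 fun a A => P a (odd A) := by
  obtain ⟨Q, h1, h2, h3⟩ := h
  have h4 : C1 fun (a : α) A => ∃ m, Q (a, (List.range ((pre A m).length / 2)).map fun i =>
      (pre A m).getD (2 * i + 1) false) := by
    refine C1.of (Q := fun y : α × List Bool => Q (y.1, (List.range (y.2.length / 2)).map fun i =>
      y.2.getD (2 * i + 1) false)) ?_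
    refine h1.comp (f := fun y : α × List Bool => (y.1, (List.range (y.2.length / 2)).map fun i =>
      y.2.getD (2 * i + 1) false)) (Primrec.pair (by fun_prop)
        (Primrec.list_map (pf_range (by fun_prop)) ?_))
    have h6 : Primrec fun y : (α × List Bool) × ℕ => y.1.2.getD (2 * y.2 + 1) false := by
      fun_prop
    exact h6
  refine h4.of_eq fun a A => ?_
  rw [h3]
  have h5 : ∀ m, ((List.range ((pre A m).length / 2)).map fun i =>
      (pre A m).getD (2 * i + 1) false) = pre (PT.odd A) (m / 2) := by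
    intro m
    rw [length_pre]
    refine List.map_congr_left fun i hi => ?_
    rw [List.mem_range] at hi
    rw [pre_getD _ _ _ _ (by omega)]
    rfl
  simp only [h5]
  constructor
  · rintro ⟨m, hm⟩
    exact ⟨_, hm⟩
  · rintro ⟨m, hm⟩
    refine ⟨2 * m, ?_⟩
    rw [show 2 * m / 2 = m by omega]
    exact hm

theorem C2.odd {α : Type} [Primcodable α] {P : α → (ℕ → Bool) → Prop} (h : C2 P) :
    C2 fun a A => P a (odd A) := by
  obtain ⟨P', h1, h2⟩ := h
  exact ⟨fun x A => P' x (PT.odd A), h1.odd, fun a A => h2 a _⟩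

theorem Sig3.odd {R : ℕ → (ℕ → Bool) → Prop} (hR : Sig3 R) : Sig3 fun v A => R v (odd A) := by
  obtain ⟨P, h1, h2⟩ := of_sig3 hR
  obtain ⟨δ, h3, h4⟩ := sig3_of h1.odd
  refine ⟨δ, h3, fun v X => Iff.trans ?_ (h4 v X)⟩
  exact h2 v _

/-- The question and `Σ⁰₃` sections. -/
theorem q1_iff :
    (∃ e : ℕ, (∀ X, Btw X (chr (WE X e))) ∧
      ∀ X Y, TEq X Y → TEq (chr (WE X e)) (chr (WE Y e))) ↔
    ∃ R : ℕ → (ℕ → Bool) → Prop, Sig3 R ∧ (∀ v A, R v A → Btw A (chr (WE A v))) ∧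
      (∀ v w A B, R v A → R w B → TEq A B → TEq (chr (WE A v)) (chr (WE B w))) ∧
      ∀ X, ∃ v A, R v A ∧ TEq A X := by
  constructor
  · rintro ⟨e, h1, h2⟩
    refine ⟨fun v _ => v = e, sig3_eq e, ?_, ?_, fun X => ⟨e, X, rfl, TEq.refl X⟩⟩
    · rintro v A rfl
      exact h1 A
    · rintro v w A B rfl rfl hAB
      exact h2 A B hAB
  · rintro ⟨R, h0, h1, h2, h3⟩
    obtain ⟨e, h4, h5, -⟩ := transfer h0 h1 h2
    refine ⟨e, h4, fun X Y hXY => ?_⟩
    obtain ⟨v, A, hA, hAX⟩ := h3 X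
    exact TEq.trans (h5 v A X hA hAX).symm (h5 v A Y hA (TEq.trans hAX hXY))

/-- Solutions on a class. -/
theorem on_class {S : (ℕ → Bool) → Prop} (hS : Sig3 fun _ A => S A) {v : ℕ}
    (h1 : ∀ A, S A → Btw A (chr (WE A v)))
    (h2 : ∀ A B, S A → S B → TEq A B → TEq (chr (WE A v)) (chr (WE B v))) :
    ∃ e : ℕ, (∀ X, Btw X (chr (WE X e))) ∧
      (∀ A X, S A → TEq A X → TEq (chr (WE A v)) (chr (WE X e))) ∧
      ∀ A X Y, S A → TEq A X → TEq A Y → TEq (chr (WE X e)) (chr (WE Y e)) := by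
  obtain ⟨e, h4, h5, -⟩ := transfer (hS.and_eq v) (by
    rintro w A ⟨rfl, hA⟩
    exact h1 A hA) (by
    rintro w w' A B ⟨rfl, hA⟩ ⟨rfl, hB⟩ hAB
    exact h2 A B hA hB hAB)
  refine ⟨e, h4, fun A X hA hAX => h5 v A X ⟨rfl, hA⟩ hAX, fun A X Y hA hX hY => ?_⟩
  exact TEq.trans (h5 v A X ⟨rfl, hA⟩ hX).symm (h5 v A Y ⟨rfl, hA⟩ hY)

/-- Classes on which Turing equivalence is generated by one pair of programs. -/
theorem one_pair {S : (ℕ → Bool) → Prop} (hS : Sig3 fun _ A => S A) (i j : Code)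
    (h : ∀ A B, S A → S B → TEq A B →
      Relation.EqvGen (fun X Y => Via i X Y ∧ Via j Y X) A B) :
    ∃ e : ℕ, (∀ X, Btw X (chr (WE X e))) ∧
      ∀ A X Y, S A → TEq A X → TEq A Y → TEq (chr (WE X e)) (chr (WE Y e)) := by
  obtain ⟨v, h1, h2⟩ := Pool.Agent.TH769.TP.main i j
  obtain ⟨e, h3, -, h5⟩ := on_class hS (v := v)
    (fun A _ => ⟨(h1 A).1, (h1 A).2.1, (h1 A).2.2.1, (h1 A).2.2.2.1⟩) (fun A B hA hB hAB => by
      have := h A B hA hB hAB
      clear hA hB hAB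
      induction this with
      | rel X Y hXY => exact h2 X Y hXY.1 hXY.2
      | refl X => exact TEq.refl _
      | symm X Y _ ih => exact ih.symm
      | trans X Y Z _ _ ih1 ih2 => exact TEq.trans ih1 ih2)
  exact ⟨e, h3, h5⟩

/-- Solutions on cones. -/
theorem on_cone {C : ℕ → Bool} (hC : Sig3 fun _ A => A = C) {v : ℕ}
    (h1 : ∀ A, TLe C A → Btw A (chr (WE A v)))
    (h2 : ∀ A B, TLe C A → TEq A B → TEq (chr (WE A v)) (chr (WE B v))) :
    ∃ e : ℕ, (∀ X, Btw X (chr (WE X e))) ∧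
      (∀ X, TLe C X → TEq (chr (WE X v)) (chr (WE X e))) ∧
      ∀ X Y, TLe C X → TEq X Y → TEq (chr (WE X e)) (chr (WE Y e)) := by
  have hle : ∀ A, odd A = C → TLe C A := by
    rintro A rfl
    exact odd_le A
  obtain ⟨e, h3, h4, h5⟩ := on_class (S := fun A => odd A = C) hC.odd
    (fun A hA => h1 A (hle A hA)) (fun A B hA _ hAB => h2 A B (hle A hA) hAB)
  have hod : ∀ X, odd (join X C) = C := by
    intro X
    funext n
    unfold odd join
    rw [if_neg (by omega)]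
    congr 1
    omega
  have heq : ∀ X, TLe C X → TEq (join X C) X := fun X hX =>
    ⟨join_le (TuringReducible.refl _) hX, le_join_left _ _⟩
  refine ⟨e, h3, fun X hX => ?_, fun X Y hX hXY => h5 _ X Y (hod X) (heq X hX)
    (TEq.trans (heq X hX) hXY)⟩
  exact TEq.trans (h2 _ _ hX (heq X hX).symm) (h4 _ X (hod X) (heq X hX))

end Pool.Agent.H649.PT
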