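import Pool.Agent.H649.PT.Den

set_option autoImplicit false

/-!
Random oracles do not compute given sets, with the help of a low set.
-/

namespace Pool.Agent.H649.PT

open Encodable MeasureTheory Pool.Agent.Helper227 Pool.Agent.H548R2.Post
open Nat.Partrec (Code)
open scoped ENNReal
open Pool.Agent.TH769.TP (Via fv Fn FF mon_FF Lim Mon AG Unb lim_FF via_iff)
open Pool.Agent.TH769.ZA (si_gen pf_sub)
open Pool.Agent.TH769.CD (bdd_lt pf_add pf_mul pf_div pf_mod pf_pow pf_getD pf_take
  pf_append pf_cons pf_length pf_range pf_natPair pf_unpair pf_encode pf_testBit pf_xorb pf_andb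
  pf_hlt pf_xor pp_exlt pp_alllt pp_imp pp_eq pp_le pp_lt pp_mem pf_decide pf_pre pp_En pf_ext
  ext_pre_eq)

attribute [local fun_prop] Primrec
attribute [local fun_prop] Primrec.id Primrec.const Primrec.comp Primrec.pair Primrec.fst Primrec.snd
attribute [local fun_prop] pf_add pf_mul pf_div pf_mod pf_pow pf_getD pf_take pf_append pf_cons
  pf_length pf_range pf_natPair pf_unpair pf_encode pf_testBit pf_xorb pf_andb pf_hlt pf_xor
  pf_sub

/-- the join of two strings -/
def js (α β : List Bool) : List Bool :=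
  (List.range (2 * min α.length β.length)).map fun i =>
    cond (decide (i % 2 = 0)) (α.getD (i / 2) false) (β.getD (i / 2) false)

theorem js_pre (A B : ℕ → Bool) (a b : ℕ) : js (pre A a) (pre B b) = pre (join A B) (2 * min a b) := by
  unfold js
  simp only [length_pre]
  refine List.map_congr_left fun i hi => ?_
  rw [List.mem_range] at hi
  unfold join
  by_cases h : i % 2 = 0
  · rw [decide_eq_true h, cond_true, if_pos h, pre_getD _ _ _ _ (by omega)]
  · rw [decide_eq_false h, cond_false, if_neg h, pre_getD _ _ _ _ (by omega)]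

theorem pf_js {δ : Type} [Primcodable δ] {α β : δ → List Bool} (ha : Primrec α) (hb : Primrec β) :
    Primrec fun x => js (α x) (β x) := by
  have hmin : Primrec fun x => min (α x).length (β x).length := by
    have h : Primrec fun x => if (α x).length ≤ (β x).length then (α x).length else (β x).length :=
      Primrec.ite (pp_le (by fun_prop) (by fun_prop)) (by fun_prop) (by fun_prop)
    exact h.of_eq fun x => (min_def _ _).symm
  unfold js
  refine Primrec.list_map (pf_range (by fun_prop)) ?_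
  have h : Primrec fun y : δ × ℕ => cond (decide (y.2 % 2 = 0)) ((α y.1).getD (y.2 / 2) false)
      ((β y.1).getD (y.2 / 2) false) :=
    Primrec.cond (pf_decide (pp_eq (by fun_prop) (by fun_prop)) _) (by fun_prop) (by fun_prop)
  exact h

/-- the program `i` finds at least the string `ρ` -/
def KK (i : Code) (ρ : List Bool) (B : ℕ → Bool) : Set (ℕ → Bool) :=
  {A | ∃ s, ρ <+: FF i (pre (join A B) s)}

theorem FF_pre_mono (i : Code) (X : ℕ → Bool) {s t : ℕ} (h : s ≤ t) :
    FF i (pre X s) <+: FF i (pre X t) := (mon_FF (i := i)).mono _ _ (pre_prefix X h)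

theorem mem_KK {i : Code} {ρ : List Bool} {A B : ℕ → Bool} :
    A ∈ KK i ρ B ↔ ∃ b a, ρ <+: FF i (js (pre A a) (pre B b)) := by
  simp only [js_pre]
  constructor
  · rintro ⟨s, hs⟩
    refine ⟨s, s, hs.trans (FF_pre_mono i _ ?_)⟩
    rw [min_self]
    omega
  · rintro ⟨b, a, h⟩
    exact ⟨_, h⟩

theorem KK_anti {i : Code} {ρ ρ' : List Bool} (h : ρ <+: ρ') (B : ℕ → Bool) :
    KK i ρ' B ⊆ KK i ρ B := fun _ ⟨s, hs⟩ => ⟨s, h.trans hs⟩

theorem KK_meas (i : Code) (ρ : List Bool) (B : ℕ → Bool) : MeasurableSet (KK i ρ B) := by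
  have : KK i ρ B = {A | ∃ t, (fun t α => ρ <+: FF i (js α (pre B t))) t (pre A t)} := by
    ext A
    rw [mem_KK]
    simp only [Set.mem_ofPred_eq, js_pre]
    constructor
    · rintro ⟨b, a, h⟩
      exact ⟨max a b, h.trans (FF_pre_mono i _ (by omega))⟩
    · rintro ⟨t, h⟩
      exact ⟨t, t, h⟩
  rw [this]
  exact measurableSet_open fun t α => ρ <+: FF i (js α (pre B t))

theorem pp_prefix {δ : Type} [Primcodable δ] {α β : δ → List Bool} (ha : Primrec α)
    (hb : Primrec β) : PrimrecPred fun x => α x <+: β x := by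
  have h : PrimrecPred fun x => α x = (β x).take (α x).length := pp_eq ha (by fun_prop)
  exact h.of_eq fun x => List.prefix_iff_eq_take.symm

/-- the measure of a c.e. set, relative to an oracle -/
theorem si_meas {δ : Type} [Primcodable δ] {P : δ → List Bool → List Bool → Prop}
    (hP : S1 fun x : (δ × List Bool) × List Bool => P x.1.1 x.1.2 x.2)
    {B : ℕ → Bool} (hm : ∀ d α b b', b ≤ b' → P d (pre B b) α → P d (pre B b') α) {m : δ → ℕ}
    (hmm : Primrec m) :
    SI B fun d : δ => (1 / 2 : ℝ≥0∞) ^ m d < lam {A | ∃ b t, P d (pre B b) (pre A t)} := by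
  have h1 : S1 fun x : δ × List Bool =>
      ((fun _ => 1 : δ × List Bool → ℕ) x : ℝ≥0∞) / ((2 ^ m x.1 : ℕ) : ℝ≥0∞) <
        lam {X | ∃ t, P x.1 x.2 (pre X t)} := by
    refine s1_measure_gt (α := δ × List Bool) (P := fun x α => P x.1 x.2 α)
      (a := fun _ => 1) (b := fun x => 2 ^ m x.1) hP (Primrec.const 1) (by fun_prop) ?_
    intro x
    positivity
  have h2 : SI B fun d : δ => ∃ b, ((fun _ => 1 : δ × List Bool → ℕ) (d, pre B b) : ℝ≥0∞) /
      ((2 ^ m d : ℕ) : ℝ≥0∞) < lam {X | ∃ t, P d (pre B b) (pre X t)} :=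
    SI.ex (si_gen (X := B) h1)
  refine h2.of_eq fun d => ?_
  have h3 : ((fun _ => 1 : δ × List Bool → ℕ) (d, pre B 0) : ℝ≥0∞) / ((2 ^ m d : ℕ) : ℝ≥0∞) =
      (1 / 2) ^ m d := by
    simp [ENNReal.inv_pow]
  have h4 : {A | ∃ b t, P d (pre B b) (pre A t)} = ⋃ b, {A | ∃ t, P d (pre B b) (pre A t)} := by
    ext A
    simp
  have h5 : Monotone fun b => {A : ℕ → Bool | ∃ t, P d (pre B b) (pre A t)} := by
    rintro b b' hb A ⟨t, ht⟩
    exact ⟨t, hm _ _ _ _ hb ht⟩
  rw [h4, h5.measure_iUnion, lt_iSup_iff]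
  refine exists_congr fun b => ?_
  rw [← h3]

/-- The set `D` is computable in `B` if it is computed from `A ⊕ B` by a fixed program for the `A`
in a set of positive measure. -/
theorem majority {i : Code} {D B : ℕ → Bool} (h : ¬ TLe D B) :
    lam (⋂ n, KK i (pre D n) B) = 0 := by
  by_contra hK
  obtain ⟨σ, hσ⟩ := exists_dense hK
  refine h ?_
  -- the event that the digit `x` is `b`
  let Ev : ℕ → Bool → Set (ℕ → Bool) := fun x b =>
    {A | ∃ s t, (σ <+: pre A t ∧ (FF i (js (pre A t) (pre B s)))[x]? = some b)}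
  have hEv : ∀ x b A, A ∈ Ev x b ↔ A ∈ cyl σ ∧ ∃ s, (FF i (pre (join A B) s))[x]? = some b := by
    intro x b A
    have hm : ∀ {s t : ℕ}, s ≤ t → (FF i (pre (join A B) s))[x]? = some b →
        (FF i (pre (join A B) t))[x]? = some b := by
      intro s t hst h1
      obtain ⟨ρ, hρ⟩ := FF_pre_mono i (join A B) hst
      rw [← hρ, List.getElem?_append_left]
      · exact h1
      · by_contra hc
        rw [List.getElem?_eq_none (by omega)] at h1
        cases h1
    constructor
    · rintro ⟨s, t, h1, h2⟩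
      rw [js_pre] at h2
      refine ⟨?_, _, h2⟩
      rw [mem_cyl_iff]
      exact (pre_eq_of_prefix h1).symm
    · rintro ⟨h1, s, h2⟩
      rw [mem_cyl_iff] at h1
      refine ⟨s + σ.length, s + σ.length, ?_, ?_⟩
      · rw [← h1, length_pre]
        exact pre_prefix A (by omega)
      · rw [js_pre, min_self]
        exact hm (by omega) h2
  have hdisj : ∀ x, Disjoint (Ev x true) (Ev x false) := by
    intro x
    rw [Set.disjoint_left]
    intro A h1 h2
    rw [hEv] at h1 h2
    obtain ⟨-, s, hs⟩ := h1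
    obtain ⟨-, t, ht⟩ := h2
    rcases le_total s t with hst | hst
    · obtain ⟨ρ, hρ⟩ := FF_pre_mono i (join A B) hst
      rw [← hρ, List.getElem?_append_left (by
        by_contra hc
        rw [List.getElem?_eq_none (by omega)] at hs
        cases hs), hs] at ht
      cases ht
    · obtain ⟨ρ, hρ⟩ := FF_pre_mono i (join A B) hst
      rw [← hρ, List.getElem?_append_left (by
        by_contra hc
        rw [List.getElem?_eq_none (by omega)] at ht
        cases ht), ht] at hs
      cases hs
  have hEvm : ∀ x b, MeasurableSet (Ev x b) := by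
    intro x b
    have : Ev x b = {A | ∃ t, (fun t α => ∃ s, σ <+: α ∧ (FF i (js α (pre B s)))[x]? = some b) t
        (pre A t)} := by
      ext A
      exact exists_comm
    rw [this]
    exact measurableSet_open fun t α => ∃ s, σ <+: α ∧ (FF i (js α (pre B s)))[x]? = some b
  have hsub : ∀ x b, Ev x b ⊆ cyl σ := fun x b A hA => ((hEv x b A).1 hA).1
  -- the true digit has more than half of the measure
  have htrue : ∀ x, (⋂ n, KK i (pre D n) B) ∩ cyl σ ⊆ Ev x (D x) := by
    rintro x A ⟨h1, h2⟩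
    rw [hEv]
    refine ⟨h2, ?_⟩
    rw [Set.mem_iInter] at h1
    obtain ⟨s, ρ, hρ⟩ := h1 (x + 1)
    refine ⟨s, ?_⟩
    rw [← hρ, List.getElem?_append_left (by rw [length_pre]; omega), pre_getElem? _ _ _ (by omega)]
  have hgt : ∀ x, lam (cyl σ) < 2 * lam (Ev x (D x)) := by
    intro x
    refine hσ.trans_le ?_
    gcongr
    exact htrue x
  have hlt : ∀ x, ¬ lam (cyl σ) < 2 * lam (Ev x (!D x)) := by
    intro x hc
    have h1 : lam (Ev x true) + lam (Ev x false) ≤ lam (cyl σ) := by
      rw [← measure_union (hdisj x) (hEvm x false)]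
      exact measure_mono (Set.union_subset (hsub _ _) (hsub _ _))
    have h2 : lam (Ev x (D x)) + lam (Ev x (!D x)) ≤ lam (cyl σ) := by
      cases D x
      · rw [add_comm]
        exact h1
      · exact h1
    have h3 : lam (cyl σ) + lam (cyl σ) < 2 * lam (Ev x (D x)) + 2 * lam (Ev x (!D x)) :=
      ENNReal.add_lt_add (hgt x) hc
    rw [← mul_add, ← two_mul] at h3
    have h4 : 2 * (lam (Ev x (D x)) + lam (Ev x (!D x))) ≤ 2 * lam (cyl σ) := by gcongr
    exact absurd h3 (not_lt.2 h4)
  -- the computation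
  have hP : S1 fun x : ((ℕ × Bool) × List Bool) × List Bool =>
      σ <+: x.2 ∧ (FF i (js x.2 x.1.2))[x.1.1.1]? = some x.1.1.2 := by
    refine S1.of_prim (PrimrecPred.and (pp_prefix (by fun_prop) (by fun_prop)) (pp_eq
      (Primrec.list_getElem?.comp ((Pool.Agent.TH769.TP.pf_FF i).comp (pf_js (by fun_prop)
        (by fun_prop))) (by fun_prop)) (Primrec.option_some.comp (by fun_prop))))
  have hSI := si_meas (B := B) (P := fun (x : ℕ × Bool) β α =>
    σ <+: α ∧ (FF i (js α β))[x.1]? = some x.2) hP (by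
      rintro ⟨x, b⟩ α s s' hs ⟨h1, h2⟩
      refine ⟨h1, ?_⟩
      have h3 : js α (pre B s) <+: js α (pre B s') := by
        obtain ⟨A', hA'⟩ : ∃ A' : ℕ → Bool, α = pre A' α.length := by
          refine ⟨fun n => α.getD n false, List.ext_getElem (by simp) fun n h1 h2 => ?_⟩
          rw [getElem_pre, List.getD_eq_getElem _ _ h1]
        rw [hA', js_pre, js_pre]
        exact pre_prefix _ (by omega)
      obtain ⟨ρ, hρ⟩ := (mon_FF (i := i)).mono _ _ h3
      simp only at h2 ⊢
      rw [← hρ, List.getElem?_append_left]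
      · exact h2
      · by_contra hc
        rw [List.getElem?_eq_none (by omega)] at h2
        cases h2) (m := fun _ => σ.length + 1) (by fun_prop)
  rw [tLe_iff_SI]
  refine hSI.of_eq fun x => ?_
  obtain ⟨x, b⟩ := x
  have hset : {A | ∃ s t, (fun (x : ℕ × Bool) β α =>
    σ <+: α ∧ (FF i (js α β))[x.1]? = some x.2) (x, b) (pre B s) (pre A t)} = Ev x b := rfl
  rw [hset]
  have hc : ∀ r : ℝ≥0∞, (1 / 2 : ℝ≥0∞) ^ (σ.length + 1) < r ↔ lam (cyl σ) < 2 * r := by
    intro r
    rw [lam_cyl, pow_succ, mul_comm ((1 / 2 : ℝ≥0∞) ^ σ.length)]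
    rw [one_div, ← ENNReal.div_eq_inv_mul, ENNReal.div_lt_iff (Or.inl (by norm_num))
      (Or.inl (by norm_num)), mul_comm]
  rw [hc]
  constructor
  · intro h1
    by_contra hne
    have : b = !D x := by
      simp only at hne
      cases b <;> cases hD : D x <;> simp_all
    rw [this] at h1
    exact hlt x h1
  · intro h1
    simp only at h1
    rw [← h1]
    exact hgt x

end Pool.Agent.H649.PT
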