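import Pool.Agent.H649.PT.Nrm

set_option autoImplicit false

/-!
Transfer of solutions from `Σ₃` sets of pairs of indices and oracles.
-/

namespace Pool.Agent.H649.PT

open Encodable Pool.Agent.Helper227 Pool.Agent.H548R2.Post
open Nat.Partrec (Code)
open Pool.Agent.TH769.TP (Via fv Fn FF mon_FF Lim Mon AG Unb lim_FF via_iff ag_down ag_mono
  lim_iter back_iter unb_zero_next)
open Pool.Agent.TH769.ZA (si_gen pf_sub)
open Pool.Agent.TH769.CD (bdd_lt pf_add pf_mul pf_div pf_mod pf_pow pf_getD pf_take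
  pf_append pf_cons pf_length pf_range pf_natPair pf_unpair pf_encode pf_testBit pf_xorb pf_andb
  pf_hlt pf_xor pp_exlt pp_alllt pp_imp pp_eq pp_le pp_lt pp_mem pf_decide pf_pre pp_En pf_ext
  ext_pre_eq)

attribute [local fun_prop] Primrec
attribute [local fun_prop] Primrec.id Primrec.const Primrec.comp Primrec.pair Primrec.fst Primrec.snd
attribute [local fun_prop] pf_add pf_mul pf_div pf_mod pf_pow pf_getD pf_take pf_append pf_cons
  pf_length pf_range pf_natPair pf_unpair pf_encode pf_testBit pf_xorb pf_andb pf_hlt pf_xor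
  pf_sub

/-! The functional of a program, uniformly in the program. -/

theorem pf_fv' {β : Type} [Primcodable β] {i : β → Code} {σ : β → List Bool} {n : β → ℕ}
    (hi : Primrec i) (hσ : Primrec σ) (hn : Primrec n) :
    Primrec fun b => fv (i b) (σ b) (n b) := by
  unfold fv
  refine Primrec.list_head?.comp (Primrec.listFilterMap (pf_range (pf_length hσ)) ?_)
  have h : Primrec fun x : β × ℕ => (((x.2.unpair.1, i x.1),
      encode ((σ x.1).take x.2.unpair.2, n x.1)) : (ℕ × Code) × ℕ) := by fun_prop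
  exact Nat.Partrec.Code.primrec_evaln.comp h

theorem pf_FF0 : Primrec fun x : Code × List Bool => FF x.1 x.2 := by
  have hh : Primrec₂ fun (x : Code × List Bool) (y : ℕ × List Bool) =>
      cond (decide (y.2.length = y.1))
        (y.2 ++ ((fv x.1 x.2 y.1).map (fun v => v == 1)).toList) y.2 := by
    have h0 : Primrec₂ fun (_ : (Code × List Bool) × (ℕ × List Bool)) (v : ℕ) => (v == 1) :=
      Primrec.beq.comp Primrec.snd (Primrec.const 1)
    have h1 : Primrec fun x : (Code × List Bool) × (ℕ × List Bool) =>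
        (fv x.1.1 x.1.2 x.2.1).map (fun v => v == 1) :=
      Primrec.option_map (pf_fv' (by fun_prop) (by fun_prop) (by fun_prop)) h0
    have h2 : Primrec fun x : (Code × List Bool) × (ℕ × List Bool) =>
        cond (decide (x.2.2.length = x.2.1))
          (x.2.2 ++ ((fv x.1.1 x.1.2 x.2.1).map (fun v => v == 1)).toList) x.2.2 :=
      Primrec.cond (pf_decide (pp_eq (by fun_prop) (by fun_prop)) _)
        (pf_append (by fun_prop) (Primrec.optionToList.comp h1)) (by fun_prop)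
    exact h2
  have h := Primrec.nat_rec' (f := fun x : Code × List Bool => x.2.length)
    (g := fun _ => ([] : List Bool)) (by fun_prop) (Primrec.const []) hh
  refine h.of_eq fun x => ?_
  obtain ⟨i, σ⟩ := x
  unfold FF
  simp only
  generalize σ.length = n
  induction n with
  | zero => rfl
  | succ n ih =>
    change _ = cond (decide ((Fn i σ n).length = n))
      (Fn i σ n ++ ((fv i σ n).map (fun v => v == 1)).toList) (Fn i σ n)
    rw [← ih]

theorem pf_FF' {β : Type} [Primcodable β] {i : β → Code} {σ : β → List Bool}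
    (hi : Primrec i) (hσ : Primrec σ) : Primrec fun b => FF (i b) (σ b) :=
  pf_FF0.comp (f := fun x : Code × List Bool => FF x.1 x.2) (g := fun b => (i b, σ b)) (hi.pair hσ)

/-- The set `Z` lies properly between `X` and the jump of `X`. -/
def Btw (X Z : ℕ → Bool) : Prop :=
  TLe X Z ∧ ¬ TLe Z X ∧ TLe Z (jump X) ∧ ¬ TLe (jump X) Z

/-- Turing equivalence. -/
def TEq (X Y : ℕ → Bool) : Prop := TLe X Y ∧ TLe Y X

/-- `R` is a (lightface) `Σ⁰₃` relation between numbers and oracles: `R v X` holds iff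
`∃ k, ∀ n, ∃ m, δ v k n (X 0, …, X (m - 1)) = true`, for a computable `δ`. -/
def Sig3 (R : ℕ → (ℕ → Bool) → Prop) : Prop :=
  ∃ δ : ℕ → ℕ → ℕ → List Bool → Bool,
    (Computable fun x : ℕ × ℕ × ℕ × List Bool => δ x.1 x.2.1 x.2.2.1 x.2.2.2) ∧
    ∀ v X, R v X ↔ ∃ k, ∀ n, ∃ m, δ v k n (pre X m) = true

/-- the parameters with the number `k` -/
def dk (k : ℕ) : ℕ × ℕ × Code × Code := Denumerable.ofNat (ℕ × ℕ × Code × Code) k

theorem pf_dk {β : Type} [Primcodable β] {k : β → ℕ} (hk : Primrec k) :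
    Primrec fun b => dk (k b) := (Primrec.ofNat (ℕ × ℕ × Code × Code)).comp hk

/-- the conditions -/
def P1 (δ : ℕ → ℕ → ℕ → List Bool → Bool) (x : ℕ × ℕ × List Bool) : Prop :=
  AG (FF (dk x.1).2.2.2) (FF (dk x.1).2.2.1) 0 x.2.2 (x.2.1 + 1) ∧
    ∃ m, m < (FF (dk x.1).2.2.1 x.2.2).length + 1 ∧
      δ (dk x.1).2.1 (dk x.1).1 x.2.1 ((FF (dk x.1).2.2.1 x.2.2).take m) = true

/-- the operators -/
def P2 (x : ℕ × ℕ × List Bool) : Prop :=
  ∃ m < (FF (dk x.1).2.2.1 x.2.2).length + 1,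
    hlt x.2.2.length (dk x.1).2.1 x.2.1 ((FF (dk x.1).2.2.1 x.2.2).take m) = true

theorem s1_P2 : S1 P2 := by
  have hk := pf_dk (k := fun x : (ℕ × ℕ × List Bool) × ℕ => x.1.1) (by fun_prop)
  have hk' := pf_dk (k := fun x : ℕ × ℕ × List Bool => x.1) (by fun_prop)
  refine S1.of_prim (pp_exlt ?_ (pp_eq ?_ (Primrec.const true)))
  · exact pf_add (pf_length (pf_FF' (Primrec.fst.comp (Primrec.snd.comp (Primrec.snd.comp hk')))
      (by fun_prop))) (by fun_prop)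
  · refine pf_hlt (by fun_prop) (Primrec.fst.comp (Primrec.snd.comp hk)) (by fun_prop) ?_
    exact pf_take (by fun_prop) (pf_FF' (Primrec.fst.comp (Primrec.snd.comp (Primrec.snd.comp hk)))
      (by fun_prop))

theorem s1_P1 {δ : ℕ → ℕ → ℕ → List Bool → Bool}
    (hδ : Computable fun x : ℕ × ℕ × ℕ × List Bool => δ x.1 x.2.1 x.2.2.1 x.2.2.2) :
    S1 (P1 δ) := by
  have hk := pf_dk (k := fun x : (ℕ × ℕ × List Bool) × ℕ => x.1.1) (by fun_prop)
  have hk' := pf_dk (k := fun x : ℕ × ℕ × List Bool => x.1) (by fun_prop)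
  have hF : Primrec fun x : ℕ × ℕ × List Bool => FF (dk x.1).2.2.1 x.2.2 :=
    pf_FF' (Primrec.fst.comp (Primrec.snd.comp (Primrec.snd.comp hk'))) (by fun_prop)
  have hF' : Primrec fun x : (ℕ × ℕ × List Bool) × ℕ => FF (dk x.1.1).2.2.1 x.1.2.2 :=
    pf_FF' (Primrec.fst.comp (Primrec.snd.comp (Primrec.snd.comp hk))) (by fun_prop)
  have hG : Primrec fun x : ℕ × ℕ × List Bool =>
      FF (dk x.1).2.2.2 (FF (dk x.1).2.2.1 x.2.2) :=
    pf_FF' (Primrec.snd.comp (Primrec.snd.comp (Primrec.snd.comp hk'))) hF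
  unfold P1
  refine S1.and (S1.of_prim ?_) (S1.ex (S1.and (S1.of_prim ?_) ?_))
  · unfold AG
    simp only [Function.iterate_zero, id_eq, zero_add, Function.iterate_one]
    exact PrimrecPred.and (pp_le (by fun_prop) (by fun_prop)) (PrimrecPred.and
      (pp_le (by fun_prop) (pf_length hG)) (pp_eq (by fun_prop) (pf_take (by fun_prop) hG)))
  · exact pp_lt (by fun_prop) (pf_add (pf_length hF') (by fun_prop))
  · have hb : S1 fun b : Bool => b = true :=
      S1.of_prim (pp_eq (by fun_prop) (Primrec.const true))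
    have h1 : Computable fun x : (ℕ × ℕ × List Bool) × ℕ =>
        δ (dk x.1.1).2.1 (dk x.1.1).1 x.1.2.1 ((FF (dk x.1.1).2.2.1 x.1.2.2).take x.2) := by
      refine hδ.comp (g := fun x : (ℕ × ℕ × List Bool) × ℕ => ((dk x.1.1).2.1, (dk x.1.1).1,
        x.1.2.1, (FF (dk x.1.1).2.2.1 x.1.2.2).take x.2)) ?_
      refine Primrec.to_comp ((Primrec.fst.comp (Primrec.snd.comp hk)).pair
        ((Primrec.fst.comp hk).pair (Primrec.pair (by fun_prop) (pf_take (by fun_prop) hF'))))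
    exact S1.comp_computable (f := fun x : (ℕ × ℕ × List Bool) × ℕ =>
        δ (dk x.1.1).2.1 (dk x.1.1).1 x.1.2.1 ((FF (dk x.1.1).2.2.1 x.1.2.2).take x.2)) hb h1

theorem T_to {δ : ℕ → ℕ → ℕ → List Bool → Bool} {k : ℕ} {X : ℕ → Bool}
    (h : ∀ n, ∃ m, P1 δ (k, n, pre X m)) :
    ∃ A, Lim (FF (dk k).2.2.1) X A ∧ Lim (FF (dk k).2.2.2) A X ∧
      ∀ n, ∃ m, δ (dk k).2.1 (dk k).1 n (pre A m) = true := by
  have hU : ∀ q < 1, Unb (AG (FF (dk k).2.2.2) (FF (dk k).2.2.1) q) X := by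
    intro q hq n
    obtain rfl : q = 0 := by omega
    obtain ⟨m, hm⟩ := h n
    exact ⟨m, ag_down (Nat.le_succ n) hm.1⟩
  obtain ⟨A, hA⟩ := lim_iter (mon_FF (i := (dk k).2.2.2)) (mon_FF (i := (dk k).2.2.1)) hU
  have hB := back_iter (mon_FF (i := (dk k).2.2.2)) (mon_FF (i := (dk k).2.2.1)) hU hA
  rw [Function.iterate_one] at hA hB
  refine ⟨A, hA, hB, fun n => ?_⟩
  obtain ⟨m, -, m', h2, h3⟩ := h n
  simp only at h2 h3
  obtain ⟨n', hn'⟩ := hA.ok m
  rw [hn', length_pre] at h2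
  rw [hn', take_pre _ _ _ (by omega)] at h3
  exact ⟨m', h3⟩

theorem to_T {δ : ℕ → ℕ → ℕ → List Bool → Bool} {k : ℕ} {X A : ℕ → Bool}
    (hA : Lim (FF (dk k).2.2.1) X A) (hB : Lim (FF (dk k).2.2.2) A X)
    (h : ∀ n, ∃ m, δ (dk k).2.1 (dk k).1 n (pre A m) = true) (n : ℕ) :
    ∃ m, P1 δ (k, n, pre X m) := by
  obtain ⟨s1, hs1⟩ := unb_zero_next hB hA (n + 1)
  obtain ⟨m, hm⟩ := h n
  obtain ⟨M, hM⟩ := hA.long m
  refine ⟨max s1 M, ag_mono mon_FF mon_FF (pre_prefix X (le_max_left _ _)) hs1, m, ?_, ?_⟩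
  · have := hM _ (le_max_right s1 M)
    simp only
    omega
  · have h1 := hM _ (le_max_right s1 M)
    obtain ⟨n', hn'⟩ := hA.ok (max s1 M)
    rw [hn', length_pre] at h1
    simp only
    rw [hn', take_pre _ _ _ h1]
    exact hm

theorem U_eq {k : ℕ} {X A : ℕ → Bool} (hA : Lim (FF (dk k).2.2.1) X A) (y : ℕ) :
    (∃ m, P2 (k, y, pre X m)) ↔ y ∈ WE A (dk k).2.1 := by
  constructor
  · rintro ⟨m, t, h1, h2⟩
    simp only at h1 h2
    obtain ⟨n', hn'⟩ := hA.ok m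
    rw [hn', length_pre] at h1
    rw [hn', take_pre _ _ _ (by omega)] at h2
    exact ⟨t, (exists_hlt_iff _ _ _).1 ⟨_, h2⟩⟩
  · rintro ⟨t, ht⟩
    obtain ⟨s, hs⟩ := (exists_hlt_iff _ _ _).2 ht
    obtain ⟨M, hM⟩ := hA.long t
    have h1 := hM _ (le_max_right s M)
    obtain ⟨n', hn'⟩ := hA.ok (max s M)
    rw [hn', length_pre] at h1
    refine ⟨max s M, t, ?_, ?_⟩
    · simp only
      rw [hn', length_pre]
      omega
    · simp only
      rw [hn', take_pre _ _ _ h1, length_pre]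
      exact hlt_mono (le_max_left _ _) hs

theorem join_le {X Y Z : ℕ → Bool} (h1 : TLe X Z) (h2 : TLe Y Z) : TLe (join X Y) Z := by
  rw [tLe_iff_SI] at h1 h2 ⊢
  refine (SI.or (SI.and (SI.of_prim (p := fun x : ℕ × Bool => x.1 % 2 = 0)
      (pp_eq (by fun_prop) (by fun_prop))) (h1.comp (f := fun x : ℕ × Bool => (x.1 / 2, x.2))
        (by fun_prop)))
    (SI.and (SI.of_prim (p := fun x : ℕ × Bool => ¬ x.1 % 2 = 0)
      (PrimrecPred.not (pp_eq (by fun_prop) (by fun_prop))))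
      (h2.comp (f := fun x : ℕ × Bool => (x.1 / 2, x.2)) (by fun_prop)))).of_eq fun x => ?_
  unfold join
  by_cases hx : x.1 % 2 = 0
  · simp [hx]
  · simp [hx]

theorem TLe.tr {X Y Z : ℕ → Bool} (h1 : TLe X Y) (h2 : TLe Y Z) : TLe X Z :=
  TuringReducible.trans h1 h2

theorem TEq.symm {X Y : ℕ → Bool} (h : TEq X Y) : TEq Y X := ⟨h.2, h.1⟩

theorem TEq.trans {X Y Z : ℕ → Bool} (h : TEq X Y) (h' : TEq Y Z) : TEq X Z :=
  ⟨TLe.tr h.1 h'.1, TLe.tr h'.2 h.2⟩

theorem Btw.congr {X Y Z Z' : ℕ → Bool} (h : Btw X Z) (h1 : TEq X Y) (h2 : TEq Z Z') :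
    Btw Y Z' :=
  ⟨TLe.tr h1.2 (TLe.tr h.1 h2.1), fun h3 => h.2.1 (TLe.tr h2.1 (TLe.tr h3 h1.2)),
    TLe.tr h2.2 (TLe.tr h.2.2.1 h1.1.jump), fun h3 => h.2.2.2 (TLe.tr h1.1.jump (TLe.tr h3 h2.2))⟩

/-- The theorem on the transfer of solutions. -/
theorem transfer {R : ℕ → (ℕ → Bool) → Prop} (hR : Sig3 R)
    (h1 : ∀ v A, R v A → Btw A (chr (WE A v)))
    (h2 : ∀ v w A B, R v A → R w B → TEq A B → TEq (chr (WE A v)) (chr (WE B w))) :
    ∃ e : ℕ, (∀ X, Btw X (chr (WE X e))) ∧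
      (∀ v A X, R v A → TEq A X → TEq (chr (WE A v)) (chr (WE X e))) ∧
      ∀ X, (∀ v A, R v A → ¬ TEq A X) → TLe (jump (chr (WE X e))) (jump X) := by
  obtain ⟨δ, hδ, hRδ⟩ := hR
  obtain ⟨θ, pθ, mθ, eθ⟩ := norm (s1_P1 hδ)
  obtain ⟨u, pu, mu, eu⟩ := norm s1_P2
  obtain ⟨e, he⟩ := core pθ pu mθ mu
  -- the true conditions
  have hT : ∀ {k : ℕ} {X : ℕ → Bool}, T θ k X → ∃ v A, R v A ∧ TEq A X ∧
      TEq (join X (chr (U u k X))) (chr (WE A v)) := by
    intro k X hk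
    obtain ⟨A, hA, hB, h3⟩ := T_to (δ := δ) (k := k) (X := X) fun n => (eθ k n X).1 (hk n)
    have hRA : R (dk k).2.1 A := (hRδ _ _).2 ⟨_, h3⟩
    have hAX : TLe A X := hA.le (Pool.Agent.TH769.TP.pf_FF _)
    have hXA : TLe X A := hB.le (Pool.Agent.TH769.TP.pf_FF _)
    have hU : U u k X = WE A (dk k).2.1 := by
      ext y
      exact (eu k y X).trans (U_eq hA y)
    rw [hU]
    exact ⟨_, A, hRA, ⟨hAX, hXA⟩, join_le (TLe.tr hXA (h1 _ _ hRA).1) (TuringReducible.refl _),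
      le_join_right _ _⟩
  have hT' : ∀ {v : ℕ} {A X : ℕ → Bool}, R v A → TEq A X → ∃ k, T θ k X := by
    intro v A X hRA hAX
    obtain ⟨κ, hκ⟩ := (hRδ _ _).1 hRA
    obtain ⟨i, hi⟩ := (via_iff _ _).1 hAX.1
    obtain ⟨j, hj⟩ := (via_iff _ _).1 hAX.2
    refine ⟨encode (κ, v, i, j), fun n => (eθ _ n X).2 ?_⟩
    have hd : dk (encode (κ, v, i, j)) = (κ, v, i, j) := Denumerable.ofNat_encode _
    refine to_T (A := A) ?_ ?_ ?_ n
    · rw [hd]
      exact lim_FF hi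
    · rw [hd]
      exact lim_FF hj
    · rw [hd]
      exact hκ
  -- the degree of the value
  have hV : ∀ {X : ℕ → Bool}, (∃ k, T θ k X) → ∃ v A, R v A ∧ TEq A X ∧
      TEq (chr (WE A v)) (chr (WE X e)) := by
    classical
    intro X hex
    have h3 := Nat.find_spec hex
    obtain ⟨v, A, hRA, hAX, h4⟩ := hT h3
    obtain ⟨-, -, h5, -⟩ := he X
    have h6 := h5 _ h3 fun k hk => Nat.find_min hex hk
    exact ⟨v, A, hRA, hAX, TEq.trans h4.symm ⟨h6.2, h6.1⟩⟩
  refine ⟨e, fun X => ?_, fun v A X hRA hAX => ?_, fun X hX => ?_⟩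
  · by_cases hex : ∃ k, T θ k X
    · obtain ⟨v, A, hRA, hAX, h3⟩ := hV hex
      exact (h1 v A hRA).congr hAX h3
    · push Not at hex
      obtain ⟨h3, h4, -, h5⟩ := he X
      obtain ⟨h6, h7⟩ := h5 hex
      exact ⟨h3, h6, h4, fun h8 => not_jump_le _ (TLe.tr h7 h8)⟩
  · obtain ⟨w, B, hRB, hBX, h3⟩ := hV (hT' hRA hAX)
    exact TEq.trans (h2 v w A B hRA hRB (TEq.trans hAX hBX.symm)) h3
  · obtain ⟨-, -, -, h5⟩ := he X
    refine (h5 fun k hk => ?_).2
    obtain ⟨v, A, hRA, hAX, -⟩ := hT hk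
    exact hX v A hRA hAX

end Pool.Agent.H649.PT
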