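import Pool.Agent.H649.PT.Gen
import Pool.Agent.H649.PT.Rnd

set_option autoImplicit false

/-!
The values of a solution to Post's problem on the generic oracles.
-/

namespace Pool.Agent.H649.PT

open Encodable Pool.Agent.Helper227 Pool.Agent.H548R2.Post
open Nat.Partrec (Code)
open Pool.Agent.TH769.TP (Via fv Fn FF mon_FF Lim Mon AG Unb lim_FF via_iff)
open Pool.Agent.TH769.ZA (si_gen pf_sub)
open Pool.Agent.TH769.CD (bdd_lt pf_add pf_mul pf_div pf_mod pf_pow pf_getD pf_take
  pf_append pf_cons pf_length pf_range pf_natPair pf_unpair pf_encode pf_testBit pf_xorb pf_andb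
  pf_hlt pf_xor pp_exlt pp_alllt pp_imp pp_eq pp_le pp_lt pp_mem pf_decide pf_pre pp_En pf_ext
  ext_pre_eq)

attribute [local fun_prop] Primrec
attribute [local fun_prop] Primrec.id Primrec.const Primrec.comp Primrec.pair Primrec.fst Primrec.snd
attribute [local fun_prop] pf_add pf_mul pf_div pf_mod pf_pow pf_getD pf_take pf_append pf_cons
  pf_length pf_range pf_natPair pf_unpair pf_encode pf_testBit pf_xorb pf_andb pf_hlt pf_xor
  pf_sub

theorem exists_pre (α : List Bool) : ∃ A : ℕ → Bool, α = pre A α.length := by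
  refine ⟨fun n => α.getD n false, List.ext_getElem (by simp) fun n h1 h2 => ?_⟩
  rw [getElem_pre, List.getD_eq_getElem _ _ h1]

theorem js_prefix {α α' β β' : List Bool} (h : α <+: α') (h' : β <+: β') :
    js α β <+: js α' β' := by
  obtain ⟨A, hA⟩ := exists_pre α'
  obtain ⟨B, hB⟩ := exists_pre β'
  have hl := h.length_le
  have hl' := h'.length_le
  rw [List.prefix_iff_eq_take] at h h'
  rw [hA, take_pre _ _ _ hl] at h
  rw [hB, take_pre _ _ _ hl'] at h'
  rw [h, h', hA, hB, js_pre, js_pre]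
  exact pre_prefix _ (by omega)

theorem getElem?_mono {α β : List Bool} (h : α <+: β) {n : ℕ} {b : Bool} (hn : α[n]? = some b) :
    β[n]? = some b := by
  obtain ⟨ρ, rfl⟩ := h
  rw [List.getElem?_append_left]
  · exact hn
  · by_contra hc
    rw [List.getElem?_eq_none (by omega)] at hn
    cases hn

/-- the oracle `J A` is `Z ⊕ A` or `A` -/
structure Emb (Z : ℕ → Bool) (J : (ℕ → Bool) → ℕ → Bool)
    (j : List Bool → List Bool → List Bool) (w : ℕ → ℕ) : Prop where
  eq : ∀ A s t, j (pre Z s) (pre A t) = pre (J A) (w (min s t))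
  mono : Monotone w
  le : ∀ m, m ≤ w m
  prim : Primrec fun x : List Bool × List Bool => j x.1 x.2
  ge : ∀ A, TLe (join Z A) (J A)

theorem Emb.pfx {Z : ℕ → Bool} {J : (ℕ → Bool) → ℕ → Bool}
    {j : List Bool → List Bool → List Bool} {w : ℕ → ℕ} (h : Emb Z J j w) {σ τ : List Bool}
    (hs : σ <+: τ) (s : ℕ) : j (pre Z s) σ <+: j (pre Z s) τ := by
  obtain ⟨A, hA⟩ := exists_pre τ
  have hl := hs.length_le
  rw [List.prefix_iff_eq_take] at hs
  rw [hA, take_pre _ _ _ hl] at hs
  rw [hs, hA, h.eq, h.eq]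
  exact pre_prefix _ (h.mono (by omega))

theorem Emb.congr {Z : ℕ → Bool} {J : (ℕ → Bool) → ℕ → Bool}
    {j : List Bool → List Bool → List Bool} {w : ℕ → ℕ} (h : Emb Z J j w) {A X : ℕ → Bool}
    {m t : ℕ} (hm : pre A m = pre X m) (ht : t ≤ m) : pre (J A) t = pre (J X) t := by
  have h1 := h.eq A m m
  have h2 := h.eq X m m
  rw [hm, h2, min_self] at h1
  have h3 := congrArg (List.take t) h1
  have h4 := ht.trans (h.le m)
  rw [take_pre _ _ _ h4, take_pre _ _ _ h4] at h3
  exact h3.symm

theorem emb_join (Z : ℕ → Bool) : Emb Z (join Z) js fun m => 2 * m :=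
  ⟨fun A s t => js_pre Z A s t, fun a b h => Nat.mul_le_mul_left 2 h, fun m => by omega,
    pf_js (by fun_prop) (by fun_prop), fun A => TuringReducible.refl _⟩

theorem le_O_join (X : ℕ → Bool) : TLe (join O X) X := by
  refine join_le ?_ (TuringReducible.refl _)
  rw [tLe_iff_SI]
  exact SI.of_prim (p := fun x : ℕ × Bool => false = x.2) (pp_eq (by fun_prop) (by fun_prop))

theorem emb_id : Emb O (fun A => A) (fun ζ τ => τ.take ζ.length) fun m => m :=
  ⟨fun A s t => by
    rw [length_pre]
    rcases le_total s t with h | h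
    · rw [take_pre _ _ _ h, min_eq_left h]
    · rw [List.take_of_length_le (by rw [length_pre]; exact h), min_eq_right h],
    fun a b h => h, fun m => le_rfl, by fun_prop, le_O_join⟩

/-- the dense sets -/
def DD (i : Code) (e : ℕ) (j : List Bool → List Bool → List Bool) (Z B : ℕ → Bool) (n : ℕ)
    (τ : List Bool) : Prop :=
  ∃ s, (FF i (js τ (pre B s)))[n]? = some false ∨ ((FF i (js τ (pre B s)))[n]? = some true ∧
    ∃ k < (j (pre Z s) τ).length + 1, hlt (pre Z s).length e n ((j (pre Z s) τ).take k) = true)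

theorem DD_up {i : Code} {e : ℕ} {J : (ℕ → Bool) → ℕ → Bool}
    {j : List Bool → List Bool → List Bool} {w : ℕ → ℕ} {Z B : ℕ → Bool} (hE : Emb Z J j w)
    {n : ℕ} {σ τ : List Bool} (h : σ <+: τ) (hd : DD i e j Z B n σ) : DD i e j Z B n τ := by
  obtain ⟨s, hs⟩ := hd
  have h1 : js σ (pre B s) <+: js τ (pre B s) := js_prefix h (List.prefix_refl _)
  have h2 : j (pre Z s) σ <+: j (pre Z s) τ := hE.pfx h s
  refine ⟨s, hs.imp (getElem?_mono ((mon_FF (i := i)).mono _ _ h1)) fun h3 =>
    ⟨getElem?_mono ((mon_FF (i := i)).mono _ _ h1) h3.1, ?_⟩⟩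
  obtain ⟨-, k, h4, h5⟩ := h3
  refine ⟨k, lt_of_lt_of_le h4 (by have := h2.length_le; omega), ?_⟩
  obtain ⟨ρ, hρ⟩ := h2
  rw [← hρ, List.take_append_of_le_length (by omega)]
  exact h5

theorem si_DD (i : Code) (e : ℕ) {J : (ℕ → Bool) → ℕ → Bool}
    {j : List Bool → List Bool → List Bool} {w : ℕ → ℕ} {Z B : ℕ → Bool} (hE : Emb Z J j w)
    (hZB : TLe Z B) (n : ℕ) : SI B (DD i e j Z B n) := by
  have hj : Primrec fun x : List Bool × List Bool => j x.2 x.1 :=
    hE.prim.comp (f := fun x : List Bool × List Bool => j x.1 x.2)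
      (g := fun x : List Bool × List Bool => (x.2, x.1)) (by fun_prop)
  have hf : Primrec fun x : List Bool × List Bool => FF i (js x.1 x.2) :=
    (Pool.Agent.TH769.TP.pf_FF i).comp (pf_js (by fun_prop) (by fun_prop))
  have h1 : SI B fun x : List Bool × ℕ => (FF i (js x.1 (pre B x.2)))[n]? = some false :=
    si_gen (X := B) (P := fun x : List Bool × List Bool => (FF i (js x.1 x.2))[n]? = some false)
      (S1.of_prim (pp_eq (Primrec.list_getElem?.comp hf (by fun_prop)) (by fun_prop)))
  have h2 : SI B fun x : List Bool × ℕ => (FF i (js x.1 (pre B x.2)))[n]? = some true :=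
    si_gen (X := B) (P := fun x : List Bool × List Bool => (FF i (js x.1 x.2))[n]? = some true)
      (S1.of_prim (pp_eq (Primrec.list_getElem?.comp hf (by fun_prop)) (by fun_prop)))
  have h3 : SI Z fun x : List Bool × ℕ => ∃ k < (j (pre Z x.2) x.1).length + 1,
      hlt (pre Z x.2).length e n ((j (pre Z x.2) x.1).take k) = true := by
    refine si_gen (X := Z) (P := fun x : List Bool × List Bool => ∃ k < (j x.2 x.1).length + 1,
      hlt x.2.length e n ((j x.2 x.1).take k) = true) (S1.of_prim (pp_exlt ?_ (pp_eq ?_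
        (Primrec.const true))))
    · exact pf_add (pf_length hj) (by fun_prop)
    · exact pf_hlt (by fun_prop) (by fun_prop) (by fun_prop)
        (pf_take (by fun_prop) (hj.comp Primrec.fst))
  exact SI.ex (p := fun (τ : List Bool) s => (FF i (js τ (pre B s)))[n]? = some false ∨
    ((FF i (js τ (pre B s)))[n]? = some true ∧ ∃ k < (j (pre Z s) τ).length + 1,
      hlt (pre Z s).length e n ((j (pre Z s) τ).take k) = true))
    (SI.or h1 (SI.and h2 (h3.trans hZB)))

theorem lim_digit {F : List Bool → List Bool} {X Y : ℕ → Bool} (h : Lim F X Y) {s n : ℕ} {b : Bool}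
    (hb : (F (pre X s))[n]? = some b) : Y n = b := by
  obtain ⟨m, hm⟩ := h.ok s
  rw [hm] at hb
  by_cases hn : n < m
  · rw [pre_getElem? _ _ _ hn] at hb
    simpa using hb
  · rw [pre_getElem?_none _ _ _ (by omega)] at hb
    cases hb

theorem lim_digit' {F : List Bool → List Bool} {X Y : ℕ → Bool} (h : Lim F X Y) (n : ℕ) :
    ∃ M, ∀ s ≥ M, (F (pre X s))[n]? = some (Y n) := by
  obtain ⟨M, hM⟩ := h.long (n + 1)
  refine ⟨M, fun s hs => ?_⟩
  obtain ⟨m, hm⟩ := h.ok s
  have h1 := hM s hs
  rw [hm, length_pre] at h1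
  rw [hm, pre_getElem? _ _ _ (by omega)]

/-- Given programs compute the values of the operator with the help of `B` on a nowhere dense set
only. -/
theorem nowhere {e : ℕ} {i : Code} {J : (ℕ → Bool) → ℕ → Bool}
    {j : List Bool → List Bool → List Bool} {w : ℕ → ℕ} {Z B : ℕ → Bool} (hE : Emb Z J j w)
    (hZB : TLe Z B) (hK : ¬ TLe (jump Z) B)
    (he : ∀ X, ¬ TLe (chr (WE (J X) e)) (J X)) (σ : List Bool) :
    ∃ τ, σ <+: τ ∧ ∀ A, pre A τ.length = τ → ¬ Via i (join A B) (chr (WE (J A) e)) := by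
  by_contra hc
  push Not at hc
  have hmem : ∀ (A : ℕ → Bool) (n : ℕ), chr (WE (J A) e) n = true ↔
      n ∈ WE (J A) e := by
    intro A n
    simp [chr]
  obtain ⟨X, hX1, hX2, hX3⟩ := exists_gen (D := DD i e j Z B) (σ := σ) hZB hK (si_DD i e hE hZB)
    (fun n σ τ h => DD_up hE h) (by
      intro n τ hτ
      obtain ⟨A, hA, hVia⟩ := hc τ hτ
      obtain ⟨M, hM⟩ := lim_digit' (lim_FF hVia) n
      obtain ⟨s0, hs0⟩ : ∃ s0, n ∈ WE (J A) e → En s0 e n (J A) := by
        by_cases hn : n ∈ WE (J A) e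
        · obtain ⟨s, hs⟩ := (mem_WE_iff _ _ _).1 hn
          exact ⟨s, fun _ => hs⟩
        · exact ⟨0, fun h => absurd h hn⟩
      have hj1 : js (pre A (max (max M s0) τ.length)) (pre B (max M s0)) =
          pre (join A B) (2 * max M s0) := by
        rw [js_pre]
        congr 2
        omega
      have hj2 : j (pre Z (max M s0)) (pre A (max (max M s0) τ.length)) =
          pre (J A) (w (max M s0)) := by
        rw [hE.eq]
        congr 2
        omega
      have hw := hE.le (max M s0)
      refine ⟨pre A (max (max M s0) τ.length), ?_, max M s0, ?_⟩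
      · have h1 := pre_prefix A (le_max_right (max M s0) τ.length)
        rwa [hA] at h1
      · rw [hj1, hj2, hM _ (by omega), length_pre, length_pre]
        by_cases hn : n ∈ WE (J A) e
        · right
          refine ⟨by rw [(hmem A n).2 hn], ?_⟩
          obtain ⟨t, h1, h2⟩ := hs0 hn
          exact ⟨t, by omega, by rw [take_pre _ _ _ (by omega)]; exact hlt_mono (by omega) h2⟩
        · left
          congr 1
          rw [← Bool.not_eq_true, hmem]
          exact hn)
  -- the value on `X`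
  have key : ∀ n b, (∃ s, (FF i (pre (join X B) s))[n]? = some b) →
      chr (WE (J X) e) n = b := by
    rintro n b ⟨s, hs⟩
    obtain ⟨s1, s', h1⟩ := hX3 n
    have hj : js (pre X s1) (pre B s') = pre (join X B) (2 * min s1 s') := js_pre _ _ _ _
    rw [hj] at h1
    have huni : ∀ c, (FF i (pre (join X B) (2 * min s1 s')))[n]? = some c → b = c := by
      intro c hcc
      have h2 := getElem?_mono (FF_pre_mono i (join X B) (le_max_left s (2 * min s1 s'))) hs
      have h3 := getElem?_mono (FF_pre_mono i (join X B) (le_max_right s (2 * min s1 s'))) hcc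
      rw [h2] at h3
      simpa using h3
    rcases h1 with h1 | ⟨h1, k, h2, h3⟩
    · rw [huni _ h1]
      rw [← Bool.not_eq_true, hmem]
      intro hn
      obtain ⟨s0, t, h4, h5⟩ := (mem_WE_iff _ _ _).1 hn
      obtain ⟨A, hA, hVia⟩ := hc (pre X (s1 + s' + t + σ.length)) (by
        have h6 := pre_prefix X (show σ.length ≤ s1 + s' + t + σ.length by omega)
        rwa [hX1] at h6)
      rw [length_pre] at hA
      have h6 : n ∈ WE (J A) e := by
        rw [mem_WE_iff]
        refine ⟨s0, t, h4, ?_⟩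
        rw [hE.congr hA (by omega)]
        exact h5
      have h7 : pre A s1 = pre X s1 := by
        have h8 := congrArg (List.take s1) hA
        rwa [take_pre _ _ _ (by omega), take_pre _ _ _ (by omega)] at h8
      rw [← hj, ← h7, js_pre] at h1
      have h8 := lim_digit (lim_FF hVia) h1
      rw [(hmem A n).2 h6] at h8
      cases h8
    · rw [huni _ h1, hmem]
      rw [hE.eq] at h2 h3
      rw [take_pre _ _ _ (by rw [length_pre] at h2; omega)] at h3
      exact ⟨k, (exists_hlt_iff _ _ _).1 ⟨_, h3⟩⟩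
  have hcomp : TLe (chr (WE (J X) e)) (join X B) := by
    rw [tLe_iff_SI]
    have h1 : SI (join X B) fun x : ℕ × Bool =>
        ∃ s, (FF i (pre (join X B) s))[x.1]? = some x.2 := by
      refine SI.ex (si_gen (X := join X B) (P := fun y : (ℕ × Bool) × List Bool =>
        (FF i y.2)[y.1.1]? = some y.1.2) (S1.of_prim (pp_eq ?_ ?_)))
      · exact Primrec.list_getElem?.comp ((Pool.Agent.TH769.TP.pf_FF i).comp (by fun_prop))
          (by fun_prop)
      · exact Primrec.option_some.comp (by fun_prop)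
    refine h1.of_eq ?_
    rintro ⟨n, b⟩
    simp only
    constructor
    · exact key n b
    · intro h2
      obtain ⟨s1, s', h3⟩ := hX3 n
      rw [js_pre] at h3
      rcases h3 with h3 | ⟨h3, -⟩
      · have h4 := key n false ⟨_, h3⟩
        rw [← h2, h4]
        exact ⟨_, h3⟩
      · have h4 := key n true ⟨_, h3⟩
        rw [← h2, h4]
        exact ⟨_, h3⟩
  exact he _ (TLe.tr hcomp (TLe.tr (join_le (le_join_right Z X) hX2) (hE.ge X)))

theorem isOpen_cyl (σ : List Bool) : IsOpen (cyl σ) := by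
  have : cyl σ = ⋂ i : Fin σ.length, {X : ℕ → Bool | X i = σ[i]} := by
    ext X
    simp only [cyl, Set.mem_ofPred_eq, Set.mem_iInter]
    exact ⟨fun h i => h i i.2, fun h i hi => h ⟨i, hi⟩⟩
  rw [this]
  refine isOpen_iInter_of_finite fun i => ?_
  have h := (isOpen_discrete ({σ[i]} : Set Bool)).preimage
    (continuous_apply (A := fun _ : ℕ => Bool) (i : ℕ))
  exact h

theorem nowhereDense_of {S : Set (ℕ → Bool)}
    (h : ∀ σ : List Bool, ∃ τ, σ <+: τ ∧ ∀ A, pre A τ.length = τ → A ∉ S) : IsNowhereDense S := by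
  unfold IsNowhereDense
  rw [Set.eq_empty_iff_forall_notMem]
  intro X hX
  rw [mem_interior] at hX
  obtain ⟨U, hU, hUo, hXU⟩ := hX
  rw [isOpen_pi_iff] at hUo
  obtain ⟨I, u, h1, h2⟩ := hUo X hXU
  obtain ⟨τ, h3, h4⟩ := h (pre X (I.sup id + 1))
  obtain ⟨A, hA⟩ := exists_pre τ
  have hAU : A ∈ U := by
    refine h2 fun i hi => ?_
    have h5 : i < I.sup id + 1 := Nat.lt_succ_of_le (Finset.le_sup (f := id) hi)
    have h6 : A i = X i := by
      obtain ⟨ρ, hρ⟩ := h3
      have h7 : i < τ.length := by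
        rw [← hρ, List.length_append, length_pre]
        omega
      have h8 : (pre A τ.length).getD i false = A i := pre_getD _ _ _ _ h7
      rw [← hA, ← hρ, List.getD_append _ _ _ _ (by rw [length_pre]; exact h5),
        pre_getD _ _ _ _ h5] at h8
      exact h8.symm
    rw [h6]
    exact (h1 i hi).2
  have h9 := hU hAU
  rw [mem_closure_iff] at h9
  obtain ⟨Y, hY1, hY2⟩ := h9 (cyl τ) (isOpen_cyl τ) ((mem_cyl_iff (σ := τ) (X := A)).2 hA.symm)
  exact h4 Y (mem_cyl_iff.1 hY1) hY2

/-- The category theorem. -/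
theorem meagre_emb {e : ℕ} {J : (ℕ → Bool) → ℕ → Bool}
    {j : List Bool → List Bool → List Bool} {w : ℕ → ℕ} {Z B : ℕ → Bool} (hE : Emb Z J j w)
    (he : ∀ X, ¬ TLe (chr (WE (J X) e)) (J X)) (hZB : TLe Z B) (hK : ¬ TLe (jump Z) B) :
    IsMeagre {A | TLe (chr (WE (J A) e)) (join A B)} := by
  have h1 : {A | TLe (chr (WE (J A) e)) (join A B)} =
      ⋃ n : ℕ, {A | Via (Denumerable.ofNat Code n) (join A B) (chr (WE (J A) e))} := by
    ext A
    simp only [Set.mem_ofPred_eq, Set.mem_iUnion]
    rw [via_iff]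
    constructor
    · rintro ⟨i, hi⟩
      exact ⟨encode i, by rwa [Denumerable.ofNat_encode]⟩
    · rintro ⟨n, hn⟩
      exact ⟨_, hn⟩
  rw [h1]
  refine isMeagre_iUnion fun n => IsNowhereDense.isMeagre (nowhereDense_of fun σ => ?_)
  obtain ⟨τ, h2, h3⟩ := nowhere (i := Denumerable.ofNat Code n) hE hZB hK he σ
  exact ⟨τ, h2, fun A hA => h3 A hA⟩

theorem meagre_join {e : ℕ} (he : ∀ X, ¬ TLe (chr (WE X e)) X) {Z C : ℕ → Bool}
    (hK : ¬ TLe (jump Z) (join Z C)) :
    IsMeagre {A | TLe (chr (WE (join Z A) e)) (join (join Z A) C)} := by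
  refine (meagre_emb (emb_join Z) (fun X => he _) (le_join_left Z C) hK).mono fun A hA => ?_
  refine TLe.tr hA (join_le (join_le ?_ (le_join_left _ _)) ?_)
  · exact TLe.tr (le_join_left Z C) (le_join_right _ _)
  · exact TLe.tr (le_join_right Z C) (le_join_right _ _)

theorem meagre_id {e : ℕ} (he : ∀ X, ¬ TLe (chr (WE X e)) X) {C : ℕ → Bool}
    (hK : ¬ TLe (jump O) C) :
    IsMeagre {A | TLe (chr (WE A e)) (join A C)} := by
  have hO : TLe O C := by
    rw [tLe_iff_SI]
    exact SI.of_prim (p := fun x : ℕ × Bool => false = x.2) (pp_eq (by fun_prop) (by fun_prop))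
  exact meagre_emb emb_id (fun X => he _) hO hK

end Pool.Agent.H649.PT
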