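import Pool.Agent.H649.PT.Rav

set_option autoImplicit false

/-!
Almost everywhere degree invariant solutions.
-/

namespace Pool.Agent.H649.PT

open Encodable MeasureTheory Pool.Agent.Helper227 Pool.Agent.H548R2.Post
open Nat.Partrec (Code)
open scoped ENNReal
open Pool.Agent.TH769.TP (Via fv Fn FF mon_FF Lim Mon AG Unb lim_FF via_iff)
open Pool.Agent.TH769.ZA (si_gen pf_sub)
open Pool.Agent.TH769.CD (bdd_lt pf_add pf_mul pf_div pf_mod pf_pow pf_getD pf_take
  pf_append pf_cons pf_length pf_range pf_natPair pf_unpair pf_encode pf_testBit pf_xorb pf_andb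
  pf_hlt pf_xor pp_exlt pp_alllt pp_imp pp_eq pp_le pp_lt pp_mem pf_decide pf_pre pp_En pf_ext
  ext_pre_eq)

attribute [local fun_prop] Primrec
attribute [local fun_prop] Primrec.id Primrec.const Primrec.comp Primrec.pair Primrec.fst Primrec.snd
attribute [local fun_prop] pf_add pf_mul pf_div pf_mod pf_pow pf_getD pf_take pf_append pf_cons
  pf_length pf_range pf_natPair pf_unpair pf_encode pf_testBit pf_xorb pf_andb pf_hlt pf_xor
  pf_sub

/-- indices of operators -/
theorem exists_ix {Q : List Bool × ℕ → Prop} (hQ : S1 Q) :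
    ∃ v : ℕ, ∀ A : ℕ → Bool, WE A v = {n | ∃ m, Q (pre A m, n)} := by
  have h1 : S1 fun m : ℕ => ∃ x : List Bool × ℕ, m = encode x ∧ Q x := by
    refine S1.ex (S1.and (S1.of_prim (pp_eq (by fun_prop) (by fun_prop))) (hQ.comp Primrec.snd))
  obtain ⟨c, hc⟩ := Nat.Partrec.Code.exists_code.1 h1.re
  refine ⟨encode c, fun A => ?_⟩
  ext n
  simp only [WE, Set.mem_ofPred_eq, Denumerable.ofNat_encode]
  refine exists_congr fun k => ?_
  rw [hc]
  simp [Part.assert, pre]

/-- the operator `A ↦ A ⊕ C` for a c.e. set `C` -/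
theorem exists_join_ix {C : ℕ → Bool} (hC : S1 fun n => C n = true) :
    ∃ v : ℕ, ∀ A : ℕ → Bool, chr (WE A v) = join A C := by
  have hQ : S1 fun x : List Bool × ℕ => (x.2 % 2 = 0 ∧ (x.1)[x.2 / 2]? = some true) ∨
      (¬ x.2 % 2 = 0 ∧ C (x.2 / 2) = true) := by
    refine S1.or (S1.of_prim (PrimrecPred.and (pp_eq (by fun_prop) (by fun_prop)) (pp_eq
      (Primrec.list_getElem?.comp (by fun_prop) (by fun_prop)) (by fun_prop)))) (S1.and
        (S1.of_prim (PrimrecPred.not (pp_eq (by fun_prop) (by fun_prop)))) ?_)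
    exact hC.comp (f := fun x : List Bool × ℕ => x.2 / 2) (by fun_prop)
  obtain ⟨v, hv⟩ := exists_ix hQ
  refine ⟨v, fun A => ?_⟩
  funext n
  have h2 : n ∈ WE A v ↔ join A C n = true := by
    rw [hv A]
    simp only [Set.mem_ofPred_eq]
    unfold join
    by_cases hn : n % 2 = 0
    · rw [if_pos hn]
      constructor
      · rintro ⟨m, ⟨-, h3⟩ | ⟨h3, -⟩⟩
        · by_cases hm : n / 2 < m
          · rw [pre_getElem? _ _ _ hm] at h3
            simpa using h3
          · rw [pre_getElem?_none _ _ _ (by omega)] at h3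
            cases h3
        · exact absurd hn h3
      · intro h3
        exact ⟨n / 2 + 1, Or.inl ⟨hn, by rw [pre_getElem? _ _ _ (by omega), h3]⟩⟩
    · rw [if_neg hn]
      constructor
      · rintro ⟨m, ⟨h3, -⟩ | ⟨-, h3⟩⟩
        · exact absurd h3 hn
        · exact h3
      · intro h3
        exact ⟨0, Or.inr ⟨hn, h3⟩⟩
  have h3 : chr (WE A v) n = true ↔ n ∈ WE A v := by simp [chr]
  exact Bool.eq_iff_iff.2 (h3.trans h2)

/-- a low, not computable, c.e. set -/
theorem exists_low : ∃ C : ℕ → Bool, (S1 fun n => C n = true) ∧ ¬ TLe C O ∧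
    TLe (jump C) (jump O) ∧ ¬ TLe (jump O) C := by
  obtain ⟨e, he, -⟩ := Pool.Agent.H548R2.Post.main (fun _ _ => false)
    (Computable.const false : Computable fun _ : ℕ × ℕ => false)
  obtain ⟨-, h2, -, h4, h5⟩ := he O
  refine ⟨chr (WE O e), ?_, h2, h5, h4⟩
  have h6 : SI O fun n => n ∈ WE O e :=
    (si_WE O).comp (f := fun n : ℕ => (e, n)) (by fun_prop)
  refine (s1_of_si h6).of_eq fun n => ?_
  simp [chr]

theorem le_O_any (X : ℕ → Bool) : TLe O X := by
  rw [tLe_iff_SI]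
  exact SI.of_prim (p := fun x : ℕ × Bool => false = x.2) (pp_eq (by fun_prop) (by fun_prop))

theorem tLe_O_of_computable {C : ℕ → Bool} (hC : Computable C) : TLe C O := by
  rw [tLe_iff_SI]
  have hb : S1 fun x : Bool × Bool => x.1 = x.2 :=
    S1.of_prim (pp_eq (by fun_prop) (by fun_prop))
  exact SI.of_s1 (S1.comp_computable (f := fun x : ℕ × Bool => (C x.1, x.2)) hb
    ((hC.comp Computable.fst).pair Computable.snd))

/-- a.e. -/
theorem ae_mlr (Z : ℕ → Bool) : ∀ᵐ A ∂lam, MLR Z A := by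
  obtain ⟨E, -, -, h1, h2⟩ := Pool.Agent.Helper227.exists_universal
  rw [ae_iff]
  have h3 : {A | ¬ MLR Z A} ⊆ ⋂ n, UE E Z n := by
    intro A hA
    rw [Set.mem_ofPred_eq, h2] at hA
    push Not at hA
    exact Set.mem_iInter.2 hA
  refine measure_mono_null h3 ?_
  have h4 : ∀ n, lam (⋂ n, UE E Z n) ≤ (1 / 2) ^ n := fun n =>
    (measure_mono (Set.iInter_subset _ n)).trans (h1 Z n)
  have h5 : Filter.Tendsto (fun n : ℕ => (1 / 2 : ℝ≥0∞) ^ n) Filter.atTop (nhds 0) :=
    ENNReal.tendsto_pow_atTop_nhds_zero_of_lt_one (by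
      rw [one_div]
      exact ENNReal.inv_lt_one.2 (by norm_num))
  exact le_antisymm (ge_of_tendsto' h5 h4) bot_le

/-- a solution which is given by a join for all random oracles -/
theorem aev : ∃ (C : ℕ → Bool) (e : ℕ), (S1 fun n => C n = true) ∧ ¬ TLe C O ∧
    TLe (jump C) (jump O) ∧ (∀ X, Btw X (chr (WE X e))) ∧
    ∀ A X, MLR (jump O) A → TEq A X → TEq (chr (WE X e)) (join A C) := by
  obtain ⟨C, hC, hC1, hC2, hC3⟩ := exists_low
  obtain ⟨v, hv⟩ := exists_join_ix hC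
  obtain ⟨E, hE, mE, -, hU⟩ := Pool.Agent.Helper227.exists_universal
  have hCj : TLe C (jump O) := TLe.tr (tLe_jump C) hC2
  -- the relation
  let P : ℕ × ℕ → (ℕ → Bool) → Prop := fun x A => x.1 = v ∧ A ∉ UE E (jump O) x.2
  have hP : C2 P := by
    have h1 : SI (jump O) fun x : (ℕ × ℕ) × List Bool => ∃ s, E (pre (jump O) s, x.1.2, x.2) := by
      refine SI.ex (si_gen (X := jump O)
        (P := fun y : ((ℕ × ℕ) × List Bool) × List Bool => E (y.2, y.1.1.2, y.1.2)) ?_)
      exact hE.comp (f := fun y : ((ℕ × ℕ) × List Bool) × List Bool => (y.2, y.1.1.2, y.1.2))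
        (by fun_prop)
    have h2 := C2.not_jump h1
    have h3 : C2 fun (x : ℕ × ℕ) A => ∀ ρ : List Bool, (¬ ∃ s, E (pre (jump O) s, x.2, ρ)) ∨
        ¬ ρ <+: pre A ρ.length := by
      refine C2.all (P := fun (x : (ℕ × ℕ) × List Bool) A =>
        (¬ ∃ s, E (pre (jump O) s, x.1.2, x.2)) ∨ ¬ x.2 <+: pre A x.2.length) ?_
      refine C2.or h2 (C2.of1 ?_)
      have h4 : C1 fun (x : (ℕ × ℕ) × List Bool) A => ∃ m, (pre A m).length = x.2.length ∧
          ¬ x.2 <+: pre A m := by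
        refine C1.of (Q := fun y : ((ℕ × ℕ) × List Bool) × List Bool =>
          y.2.length = y.1.2.length ∧ ¬ y.1.2 <+: y.2) (S1.of_prim (PrimrecPred.and
            (pp_eq (by fun_prop) (by fun_prop)) (PrimrecPred.not (pp_prefix (by fun_prop)
              (by fun_prop)))))
      refine h4.of_eq fun a X => ?_
      simp
    have h5 : C2 fun (x : ℕ × ℕ) (_ : ℕ → Bool) => x.1 = v :=
      C2.of1 (C1.s1 (S1.of_prim (pp_eq (by fun_prop) (by fun_prop))))
    refine (C2.and h5 h3).of_eq fun x A => and_congr_right fun _ => ?_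
    constructor
    · rintro h6 ⟨s, t, h7⟩
      rcases h6 (pre A t) with h8 | h8
      · exact h8 ⟨s, h7⟩
      · rw [length_pre] at h8
        exact h8 (List.prefix_refl _)
    · intro h6 ρ
      by_contra hc
      push Not at hc
      obtain ⟨⟨s, hs⟩, hρ⟩ := hc
      have h7 : ρ = pre A ρ.length := List.IsPrefix.eq_of_length hρ (by simp)
      rw [h7] at hs
      exact h6 ⟨s, _, hs⟩
  have hR : Sig3 fun v' A => v' = v ∧ MLR (jump O) A := by
    have h1 := sig3_of hP
    obtain ⟨δ, h2, h3⟩ := h1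
    refine ⟨δ, h2, fun v' X => Iff.trans ?_ (h3 v' X)⟩
    show (v' = v ∧ MLR (jump O) X) ↔ ∃ k, P (v', k) X
    rw [hU]
    exact ⟨fun ⟨h4, n, h5⟩ => ⟨n, h4, h5⟩, fun ⟨n, h4, h5⟩ => ⟨h4, n, h5⟩⟩
  have hB : ∀ A, MLR (jump O) A → Btw A (join A C) := by
    intro A hA
    have hA1 : ¬ TLe C (join A O) := mlr_avoid (TuringReducible.refl _) hCj hC1 hA
    have hA2 : ¬ TLe (jump O) (join A C) := mlr_avoid hC2 (TuringReducible.refl _) hC3 hA
    have hOA : TLe (jump O) (jump A) := (le_O_any A).jump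
    refine ⟨le_join_left _ _, fun h => hA1 (TLe.tr (TLe.tr (le_join_right A C) h)
      (le_join_left _ _)), join_le (tLe_jump A) (TLe.tr hCj hOA), fun h => hA2 (TLe.tr hOA h)⟩
  obtain ⟨e, h1, h2, -⟩ := transfer hR
    (by
      rintro w A ⟨rfl, hA⟩
      rw [hv]
      exact hB A hA)
    (by
      rintro w w' A B ⟨rfl, hA⟩ ⟨rfl, hA'⟩ hAB
      rw [hv, hv]
      exact ⟨join_le (TLe.tr hAB.1 (le_join_left _ _)) (le_join_right _ _),
        join_le (TLe.tr hAB.2 (le_join_left _ _)) (le_join_right _ _)⟩)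
  refine ⟨C, e, hC, hC1, hC2, h1, fun A X hA hAX => ?_⟩
  have := h2 v A X ⟨rfl, hA⟩ hAX
  rw [hv] at this
  exact this.symm

end Pool.Agent.H649.PT
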