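import Pool.Agent.H649.PT.Nwd
import Pool.Agent.H649.PT.Cor

set_option autoImplicit false

/-!
Generic oracles: solutions to Post's problem and category.
-/

namespace Pool.Agent.H649.PT

open Encodable MeasureTheory Pool.Agent.Helper227 Pool.Agent.H548R2.Post
open Nat.Partrec (Code)
open Pool.Agent.TH769.TP (Via fv Fn FF mon_FF Lim Mon AG Unb lim_FF via_iff)
open Pool.Agent.TH769.ZA (si_gen pf_sub)
open Pool.Agent.TH769.CD (bdd_lt pf_add pf_mul pf_div pf_mod pf_pow pf_getD pf_take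
  pf_append pf_cons pf_length pf_range pf_natPair pf_unpair pf_encode pf_testBit pf_xorb pf_andb
  pf_hlt pf_xor pp_exlt pp_alllt pp_imp pp_eq pp_le pp_lt pp_mem pf_decide pf_pre pp_En pf_ext
  ext_pre_eq)

attribute [local fun_prop] Primrec
attribute [local fun_prop] Primrec.id Primrec.const Primrec.comp Primrec.pair Primrec.fst Primrec.snd
attribute [local fun_prop] pf_add pf_mul pf_div pf_mod pf_pow pf_getD pf_take pf_append pf_cons
  pf_length pf_range pf_natPair pf_unpair pf_encode pf_testBit pf_xorb pf_andb pf_hlt pf_xor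
  pf_sub

/-- `A` meets or avoids the sets `H e` of strings -/
def Dec (H : ℕ → List Bool → Prop) (A : ℕ → Bool) : Prop :=
  ∀ e, ∃ s, H e (pre A s) ∨ ∀ τ, pre A s <+: τ → ¬ H e τ

theorem dec_comeagre (H : ℕ → List Bool → Prop) : IsMeagre {A | ¬ Dec H A} := by
  have h1 : {A | ¬ Dec H A} = ⋃ e : ℕ, {A | ¬ ∃ s, H e (pre A s) ∨
      ∀ τ, pre A s <+: τ → ¬ H e τ} := by
    ext A
    simp only [Dec, Set.mem_ofPred_eq, Set.mem_iUnion, not_forall]
  rw [h1]
  refine isMeagre_iUnion fun e => IsNowhereDense.isMeagre (nowhereDense_of fun σ => ?_)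
  by_cases hσ : ∃ τ, σ <+: τ ∧ H e τ
  · obtain ⟨τ, h2, h3⟩ := hσ
    refine ⟨τ, h2, fun A hA h4 => h4 ⟨τ.length, Or.inl ?_⟩⟩
    rw [hA]
    exact h3
  · push Not at hσ
    refine ⟨σ, List.prefix_refl _, fun A hA h4 => h4 ⟨σ.length, Or.inr ?_⟩⟩
    rw [hA]
    exact hσ

theorem SI.preA {α : Type} [Primcodable α] {W A : ℕ → Bool} {P : α × List Bool → Prop}
    (hP : SI W P) (hA : TLe A W) : SI W fun x : α × ℕ => P (x.1, pre A x.2) := by
  have h1 : SI W fun x : α × ℕ => ∃ ρ : List Bool,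
      (∀ i < ρ.length, A i = ρ.getD i false) ∧ ρ.length = x.2 ∧ P (x.1, ρ) := by
    refine SI.ex (p := fun (x : α × ℕ) (ρ : List Bool) =>
      (∀ i < ρ.length, A i = ρ.getD i false) ∧ ρ.length = x.2 ∧ P (x.1, ρ))
      (SI.and ?_ (SI.and (SI.of_prim (pp_eq (by fun_prop) (by fun_prop))) ?_))
    · refine SI.all_lt (α := (α × ℕ) × List Bool) (p := fun x i => A i = x.2.getD i false)
        (f := fun x => x.2.length) ?_ (by fun_prop)
      exact (tLe_iff_SI.1 hA).comp (f := fun z : ((α × ℕ) × List Bool) × ℕ =>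
        (z.2, z.1.2.getD z.2 false)) (by fun_prop)
    · exact hP.comp (f := fun x : (α × ℕ) × List Bool => (x.1.1, x.2)) (by fun_prop)
  refine h1.of_eq ?_
  rintro ⟨a, s⟩
  simp only
  constructor
  · rintro ⟨ρ, h2, rfl, h3⟩
    have h4 : pre A ρ.length = ρ := by
      refine List.ext_getElem (by simp) fun i h5 h6 => ?_
      rw [getElem_pre, h2 i h6, List.getD_eq_getElem _ _ h6]
    rwa [h4]
  · intro h2
    refine ⟨pre A s, fun i hi => ?_, by simp, h2⟩
    rw [length_pre] at hi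
    exact (pre_getD A _ _ _ hi).symm

/-- the strings which decide the jump -/
def HJ (Z : ℕ → Bool) (e : ℕ) (τ : List Bool) : Prop :=
  ∃ s, ∃ k < (js (pre Z s) τ).length + 1,
    hlt (pre Z s).length e e ((js (pre Z s) τ).take k) = true

theorem HJ_up {Z : ℕ → Bool} {e : ℕ} {σ τ : List Bool} (h : σ <+: τ) (hd : HJ Z e σ) :
    HJ Z e τ := by
  obtain ⟨s, k, h1, h2⟩ := hd
  have h3 : js (pre Z s) σ <+: js (pre Z s) τ := js_prefix (List.prefix_refl _) h
  refine ⟨s, k, lt_of_lt_of_le h1 (by have := h3.length_le; omega), ?_⟩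
  obtain ⟨ρ, hρ⟩ := h3
  rw [← hρ, List.take_append_of_le_length (by omega)]
  exact h2

theorem si_HJ (Z : ℕ → Bool) : SI Z fun x : ℕ × List Bool => HJ Z x.1 x.2 := by
  refine SI.ex (si_gen (X := Z) (P := fun y : (ℕ × List Bool) × List Bool =>
    ∃ k < (js y.2 y.1.2).length + 1, hlt y.2.length y.1.1 y.1.1 ((js y.2 y.1.2).take k) = true)
    (S1.of_prim (pp_exlt ?_ (pp_eq ?_ (Primrec.const true)))))
  · exact pf_add (pf_length (pf_js (by fun_prop) (by fun_prop))) (by fun_prop)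
  · exact pf_hlt (by fun_prop) (by fun_prop) (by fun_prop)
      (pf_take (by fun_prop) (pf_js (by fun_prop) (by fun_prop)))

theorem HJ_iff (Z A : ℕ → Bool) (e : ℕ) :
    jump (join Z A) e = true ↔ ∃ s, HJ Z e (pre A s) := by
  rw [jump_eq_true]
  constructor
  · intro h
    obtain ⟨s0, t, h1, h2⟩ := (mem_WE_iff _ _ _).1 h
    refine ⟨s0, s0, t, ?_, ?_⟩
    · rw [js_pre, length_pre]
      omega
    · rw [js_pre, take_pre _ _ _ (by omega), length_pre]
      exact h2
  · rintro ⟨s, s', k, h1, h2⟩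
    rw [js_pre, length_pre] at h1
    rw [js_pre, take_pre _ _ _ (by omega)] at h2
    exact ⟨k, (exists_hlt_iff _ _ _).1 ⟨_, h2⟩⟩

/-- generic oracles are generalised low -/
theorem gl1 {Z A : ℕ → Bool} (h : Dec (HJ Z) A) :
    TLe (jump (join Z A)) (join (join Z A) (jump Z)) := by
  have hA : TLe A (join (join Z A) (jump Z)) := TLe.tr (le_join_right Z A) (le_join_left _ _)
  have hZ : TLe Z (join (join Z A) (jump Z)) := TLe.tr (le_join_left Z A) (le_join_left _ _)
  have hJ : TLe (jump Z) (join (join Z A) (jump Z)) := le_join_right _ _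
  have h1 := (si_HJ Z).trans hZ
  have h2 : SI Z fun x : ℕ × List Bool => ∃ τ, x.2 <+: τ ∧ HJ Z x.1 τ := by
    refine SI.ex (p := fun (x : ℕ × List Bool) (τ : List Bool) => x.2 <+: τ ∧ HJ Z x.1 τ)
      (SI.and (SI.of_prim (pp_prefix (by fun_prop) (by fun_prop))) ?_)
    exact (si_HJ Z).comp (f := fun x : (ℕ × List Bool) × List Bool => (x.1.1, x.2)) (by fun_prop)
  have h3 := h2.decide_jump.2.trans hJ
  rw [tLe_iff_SI]
  refine (SI.or (SI.and ((SI.ex (p := fun (e : ℕ) s => HJ Z e (pre A s))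
      (SI.preA h1 hA)).comp (f := fun x : ℕ × Bool => x.1) (by fun_prop))
    (SI.of_prim (p := fun x : ℕ × Bool => x.2 = true) (pp_eq (by fun_prop) (by fun_prop))))
    (SI.and ((SI.ex (p := fun (e : ℕ) s => ¬ ∃ τ, pre A s <+: τ ∧ HJ Z e τ)
      (SI.preA h3 hA)).comp (f := fun x : ℕ × Bool => x.1) (by fun_prop))
    (SI.of_prim (p := fun x : ℕ × Bool => x.2 = false)
      (pp_eq (by fun_prop) (by fun_prop))))).of_eq ?_
  rintro ⟨e, b⟩
  simp only
  rw [← HJ_iff]
  constructor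
  · rintro (⟨h4, h5⟩ | ⟨⟨s, h4⟩, h5⟩)
    · rw [h4, h5]
    · rw [h5, ← Bool.not_eq_true, HJ_iff]
      rintro ⟨t, ht⟩
      refine h4 ⟨pre A (max s t), pre_prefix A (le_max_left _ _), ?_⟩
      exact HJ_up (pre_prefix A (le_max_right _ _)) ht
  · rintro rfl
    by_cases h4 : jump (join Z A) e = true
    · exact Or.inl ⟨h4, h4⟩
    · right
      refine ⟨?_, by simpa using h4⟩
      obtain ⟨s, h5 | h5⟩ := h e
      · exact absurd ((HJ_iff Z A e).2 ⟨s, h5⟩) h4
      · exact ⟨s, fun ⟨τ, h6, h7⟩ => h5 τ h6 h7⟩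

/-- `A` is 1-generic relative to `C`: it meets or avoids each set of strings c.e. in `C` -/
def Gen1 (C A : ℕ → Bool) : Prop :=
  ∀ e : ℕ, ∃ s, encode (pre A s) ∈ WE C e ∨ ∀ τ, pre A s <+: τ → encode τ ∉ WE C e

theorem gen1_comeagre (C : ℕ → Bool) : IsMeagre {A | ¬ Gen1 C A} :=
  dec_comeagre fun e τ => encode τ ∈ WE C e

theorem Gen1.meets {C A : ℕ → Bool} (h : Gen1 C A) {V : List Bool → Prop} (hV : SI C V) :
    ∃ s, V (pre A s) ∨ ∀ τ, pre A s <+: τ → ¬ V τ := by
  have h1 : SI C fun n : ℕ => ∃ τ : List Bool, encode τ = n ∧ V τ := by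
    refine SI.ex (p := fun (n : ℕ) (τ : List Bool) => encode τ = n ∧ V τ)
      (SI.and (SI.of_prim (pp_eq (by fun_prop) (by fun_prop))) (hV.comp Primrec.snd))
  have h2 : CEIn C {n : ℕ | ∃ τ : List Bool, encode τ = n ∧ V τ} := SI.iff_ceIn.2 h1
  obtain ⟨e, he⟩ := ceIn_iff_exists_WE.1 h2
  have h3 : ∀ τ : List Bool, encode τ ∈ WE C e ↔ V τ := by
    intro τ
    rw [← he]
    constructor
    · rintro ⟨τ', h4, h5⟩
      rwa [encode_injective h4] at h5
    · intro h4
      exact ⟨τ, rfl, h4⟩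
  obtain ⟨s, hs⟩ := h e
  simp only [h3] at hs
  exact ⟨s, hs⟩

/-- 1-generic oracles do not help to compute c.e. sets -/
theorem gen_avoid {A C B K : ℕ → Bool} (hA : Gen1 C A) (hBC : TLe B C)
    (hK : SI B fun n => K n = true) (hKB : ¬ TLe K B) : ¬ TLe K (join A B) := by
  intro hc
  obtain ⟨i, hi⟩ := (via_iff _ _).1 hc
  have hL := lim_FF hi
  have hf : SI B fun x : (List Bool × ℕ) × ℕ =>
      (FF i (js x.1.1 (pre B x.2)))[x.1.2]? = some false := by
    refine si_gen (X := B) (P := fun x : (List Bool × ℕ) × List Bool =>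
      (FF i (js x.1.1 x.2))[x.1.2]? = some false) (S1.of_prim (pp_eq
        (Primrec.list_getElem?.comp ((Pool.Agent.TH769.TP.pf_FF i).comp
          (pf_js (by fun_prop) (by fun_prop))) (by fun_prop)) (by fun_prop)))
  have hf' : SI B fun x : List Bool × ℕ => ∃ s, (FF i (js x.1 (pre B s)))[x.2]? = some false :=
    SI.ex hf
  have hV : SI B fun τ : List Bool => ∃ n, (∃ s, (FF i (js τ (pre B s)))[n]? = some false) ∧
      K n = true :=
    SI.ex (p := fun (τ : List Bool) n => (∃ s, (FF i (js τ (pre B s)))[n]? = some false) ∧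
      K n = true) (SI.and hf' (hK.comp (f := fun x : List Bool × ℕ => x.2) (by fun_prop)))
  obtain ⟨s, ⟨n, ⟨s', h1⟩, h2⟩ | h1⟩ := hA.meets (hV.trans hBC)
  · rw [js_pre] at h1
    have := lim_digit hL h1
    rw [h2] at this
    cases this
  · refine hKB ?_
    have h2 : ∀ n, K n = false ↔ ∃ τ, pre A s <+: τ ∧
        ∃ s', (FF i (js τ (pre B s')))[n]? = some false := by
      intro n
      constructor
      · intro hn
        obtain ⟨M, hM⟩ := lim_digit' hL n
        refine ⟨pre A (max M s), pre_prefix A (le_max_right _ _), M, ?_⟩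
        rw [js_pre, hM _ (by omega), hn]
      · rintro ⟨τ, h3, h4⟩
        by_contra hn
        exact h1 τ h3 ⟨n, h4, by simpa using hn⟩
    rw [tLe_iff_SI]
    have h3 : SI B fun n : ℕ => ∃ τ, pre A s <+: τ ∧
        ∃ s', (FF i (js τ (pre B s')))[n]? = some false := by
      refine SI.ex (p := fun (n : ℕ) (τ : List Bool) => pre A s <+: τ ∧
        ∃ s', (FF i (js τ (pre B s')))[n]? = some false)
        (SI.and (SI.of_prim (pp_prefix (by fun_prop) (by fun_prop))) ?_)
      exact hf'.comp (f := fun x : ℕ × List Bool => (x.2, x.1)) (by fun_prop)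
    refine (SI.or (SI.and (hK.comp (f := fun x : ℕ × Bool => x.1) (by fun_prop))
      (SI.of_prim (p := fun x : ℕ × Bool => x.2 = true) (pp_eq (by fun_prop) (by fun_prop))))
      (SI.and (h3.comp (f := fun x : ℕ × Bool => x.1) (by fun_prop))
      (SI.of_prim (p := fun x : ℕ × Bool => x.2 = false)
        (pp_eq (by fun_prop) (by fun_prop))))).of_eq ?_
    rintro ⟨n, b⟩
    simp only [← h2]
    cases b <;> simp

/-- negations of conditions which are c.e. in the halting problem, for all initial segments -/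
theorem C2.not_jump_pre {α : Type} [Primcodable α] {P : α × List Bool → Prop}
    (h : SI (jump O) P) : C2 fun (a : α) A => ∀ s, ¬ P (a, pre A s) := by
  have h2 := C2.not_jump h
  have h3 : C2 fun (x : α) A => ∀ ρ : List Bool, (¬ P (x, ρ)) ∨ ¬ ρ <+: pre A ρ.length := by
    refine C2.all (P := fun (x : α × List Bool) A => (¬ P (x.1, x.2)) ∨
      ¬ x.2 <+: pre A x.2.length) ?_
    refine C2.or h2 (C2.of1 ?_)
    have h4 : C1 fun (x : α × List Bool) A => ∃ m, (pre A m).length = x.2.length ∧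
        ¬ x.2 <+: pre A m := by
      refine C1.of (Q := fun y : (α × List Bool) × List Bool =>
        y.2.length = y.1.2.length ∧ ¬ y.1.2 <+: y.2) (S1.of_prim (PrimrecPred.and
          (pp_eq (by fun_prop) (by fun_prop)) (PrimrecPred.not (pp_prefix (by fun_prop)
            (by fun_prop)))))
    refine h4.of_eq fun a X => ?_
    simp
  refine h3.of_eq fun x A => ?_
  constructor
  · intro h6 s h7
    rcases h6 (pre A s) with h8 | h8
    · exact h8 h7
    · rw [length_pre] at h8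
      exact h8 (List.prefix_refl _)
  · intro h6 ρ
    by_contra hc
    push Not at hc
    obtain ⟨hs, hρ⟩ := hc
    have h7 : ρ = pre A ρ.length := List.IsPrefix.eq_of_length hρ (by simp)
    rw [h7] at hs
    exact h6 _ hs

/-- the class is `Π⁰₃` -/
theorem pi3_gen1 {C : ℕ → Bool} (hC : TLe (jump C) (jump O)) : Sig3 fun _ A => ¬ Gen1 C A := by
  have h1 : SI C fun x : ℕ × List Bool => encode x.2 ∈ WE C x.1 :=
    (si_WE C).comp (f := fun x : ℕ × List Bool => (x.1, encode x.2)) (by fun_prop)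
  have h2 : SI C fun x : ℕ × List Bool => ∃ τ, x.2 <+: τ ∧ encode τ ∈ WE C x.1 := by
    refine SI.ex (p := fun (x : ℕ × List Bool) (τ : List Bool) => x.2 <+: τ ∧
      encode τ ∈ WE C x.1) (SI.and (SI.of_prim (pp_prefix (by fun_prop) (by fun_prop))) ?_)
    exact h1.comp (f := fun x : (ℕ × List Bool) × List Bool => (x.1.1, x.2)) (by fun_prop)
  have h3 : SI (jump O) fun x : ℕ × List Bool => encode x.2 ∈ WE C x.1 ∨
      ¬ ∃ τ, x.2 <+: τ ∧ encode τ ∈ WE C x.1 :=
    SI.or (h1.decide_jump.1.trans hC) (h2.decide_jump.2.trans hC)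
  have h4 : C2 fun (x : ℕ × ℕ) A => ∀ s, ¬ (encode (pre A s) ∈ WE C x.2 ∨
      ¬ ∃ τ, pre A s <+: τ ∧ encode τ ∈ WE C x.2) :=
    C2.not_jump_pre (α := ℕ × ℕ) (P := fun y : (ℕ × ℕ) × List Bool =>
      encode y.2 ∈ WE C y.1.2 ∨ ¬ ∃ τ, y.2 <+: τ ∧ encode τ ∈ WE C y.1.2)
      (h3.comp (f := fun y : (ℕ × ℕ) × List Bool => (y.1.2, y.2)) (by fun_prop))
  obtain ⟨δ, h5, h6⟩ := sig3_of h4
  refine ⟨δ, h5, fun v A => Iff.trans ?_ (h6 v A)⟩
  show (¬ Gen1 C A) ↔ ∃ k, ∀ s, ¬ (encode (pre A s) ∈ WE C k ∨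
      ¬ ∃ τ, pre A s <+: τ ∧ encode τ ∈ WE C k)
  unfold Gen1
  push Not
  rfl

theorem join_congr {A B C : ℕ → Bool} (h : TEq A B) : TEq (join A C) (join B C) :=
  ⟨join_le (TLe.tr h.1 (le_join_left _ _)) (le_join_right _ _),
    join_le (TLe.tr h.2 (le_join_left _ _)) (le_join_right _ _)⟩

theorem btw_gen {C A : ℕ → Bool} (hC : S1 fun n => C n = true) (hC1 : ¬ TLe C O)
    (hC2 : TLe (jump C) (jump O)) (hA : Gen1 C A) : Btw A (join A C) := by
  have hC3 : ¬ TLe (jump O) C := fun h => not_jump_le (jump O) (TLe.tr h.jump hC2)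
  have hCj : TLe C (jump O) := TLe.tr (tLe_jump C) hC2
  have hA1 : ¬ TLe C (join A O) := gen_avoid hA (le_O_any C) (SI.of_s1 hC) hC1
  have hA2 : ¬ TLe (jump O) (join A C) := gen_avoid hA (TuringReducible.refl _)
    ((si_jump O).trans (le_O_any C)) hC3
  have hOA : TLe (jump O) (jump A) := (le_O_any A).jump
  exact ⟨le_join_left _ _, fun h => hA1 (TLe.tr (TLe.tr (le_join_right A C) h)
    (le_join_left _ _)), join_le (tLe_jump A) (TLe.tr hCj hOA), fun h => hA2 (TLe.tr hOA h)⟩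

theorem aev_cat : ∃ (C : ℕ → Bool) (e : ℕ), (∀ X, Btw X (chr (WE X e))) ∧
    IsMeagre {A | ¬ Btw A (join A C)} ∧ ∀ᵐ A ∂lam, TEq (chr (WE A e)) (join A C) := by
  obtain ⟨C, e, h1, h2, h3, h4, h5⟩ := aev
  refine ⟨C, e, h4, (gen1_comeagre C).mono fun A hA hG => hA (btw_gen h1 h2 h3 hG), ?_⟩
  filter_upwards [ae_mlr (jump O)] with A hA
  exact h5 A A hA (TEq.refl A)

/-- the transfer theorem fails for `Π⁰₃` classes -/
theorem pi3_fails : ∃ (S : (ℕ → Bool) → Prop) (v : ℕ), (Sig3 fun _ A => ¬ S A) ∧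
    IsMeagre {A | ¬ S A} ∧ (∀ A, S A → Btw A (chr (WE A v))) ∧
    (∀ A B, S A → S B → TEq A B → TEq (chr (WE A v)) (chr (WE B v))) ∧
    ∀ e : ℕ, (∀ X, ¬ TLe (chr (WE X e)) X) →
      IsMeagre {A | TLe (chr (WE A e)) (chr (WE A v))} := by
  obtain ⟨C, hC, hC1, hC2, hC3⟩ := exists_low
  obtain ⟨v, hv⟩ := exists_join_ix hC
  refine ⟨Gen1 C, v, pi3_gen1 hC2, gen1_comeagre C, fun A hA => ?_, fun A B _ _ hAB => ?_,
    fun e he => ?_⟩
  · rw [hv]
    exact btw_gen hC hC1 hC2 hA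
  · rw [hv, hv]
    exact join_congr hAB
  · simp only [hv]
    exact meagre_id he hC3

/-- the dichotomy -/
theorem dichotomy {e : ℕ} (he : ∀ X, Btw X (chr (WE X e))) (Z C : ℕ → Bool) :
    IsMeagre {A | ¬ (TLe (chr (WE (join Z A) e)) (join (join Z A) C) ↔
      TLe (jump Z) (join Z C))} ∧
    IsMeagre {A | TEq (chr (WE (join Z A) e)) (join (join Z A) C)} := by
  by_cases h : TLe (jump Z) (join Z C)
  · have h1 : ∀ A, Dec (HJ Z) A → TLe (jump (join Z A)) (join (join Z A) C) := fun A hA =>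
      TLe.tr (gl1 hA) (join_le (le_join_left _ _) (TLe.tr h (join_le
        (TLe.tr (le_join_left Z A) (le_join_left _ _)) (le_join_right _ _))))
    constructor
    · refine (dec_comeagre (HJ Z)).mono fun A hA => ?_
      intro hD
      exact hA ⟨fun _ => h, fun _ => TLe.tr (he _).2.2.1 (h1 A hD)⟩
    · refine (dec_comeagre (HJ Z)).mono fun A hA => ?_
      intro hD
      exact (he (join Z A)).2.2.2 (TLe.tr (h1 A hD) hA.2)
  · have h1 := meagre_join (e := e) (fun X => (he X).2.1) h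
    constructor
    · refine h1.mono fun A hA => ?_
      by_contra hc
      exact hA ⟨fun h2 => absurd h2 hc, fun h2 => absurd h2 h⟩
    · exact h1.mono fun A hA => hA.1

/-- the dichotomy, without parameter -/
theorem dichotomy' {e : ℕ} (he : ∀ X, Btw X (chr (WE X e))) (C : ℕ → Bool) :
    IsMeagre {A | ¬ (TLe (chr (WE A e)) (join A C) ↔ TLe (jump O) C)} ∧
    IsMeagre {A | TEq (chr (WE A e)) (join A C)} := by
  by_cases h : TLe (jump O) C
  · have h1 : ∀ A, Dec (HJ O) A → TLe (jump A) (join A C) := by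
      intro A hA
      have h2 : TLe (jump A) (jump (join O A)) := (le_join_right O A).jump
      refine TLe.tr h2 (TLe.tr (gl1 hA) (join_le (TLe.tr (le_O_join A) (le_join_left _ _))
        (TLe.tr h (le_join_right _ _))))
    constructor
    · refine (dec_comeagre (HJ O)).mono fun A hA => ?_
      intro hD
      exact hA ⟨fun _ => h, fun _ => TLe.tr (he _).2.2.1 (h1 A hD)⟩
    · refine (dec_comeagre (HJ O)).mono fun A hA => ?_
      intro hD
      exact (he A).2.2.2 (TLe.tr (h1 A hD) hA.2)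
  · have h1 := meagre_id (e := e) (fun X => (he X).2.1) h
    constructor
    · refine h1.mono fun A hA => ?_
      by_contra hc
      exact hA ⟨fun h2 => absurd h2 hc, fun h2 => absurd h2 h⟩
    · exact h1.mono fun A hA => hA.1

end Pool.Agent.H649.PT
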