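import Pool.Graph.R_seed8.TH769.TP.Cod

set_option autoImplicit false

/-!
Patching countably many c.e. operators along `Π₂` conditions: the construction.
-/

namespace Pool.Agent.H649.PT

open Encodable Pool.Agent.Helper227 Pool.Agent.H548R2.Post
open Nat.Partrec (Code)
open Pool.Agent.TH769.CD (bdd_lt)

/-- the number of the first conditions which are verified -/
def el (θ : ℕ → ℕ → List Bool → Bool) (k : ℕ) (σ : List Bool) : ℕ :=
  (List.range σ.length).findIdx (fun n => !(θ k n σ))

/-- the requirement to which `z` belongs -/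
def kd (z : ℕ) : ℕ := (z / 2).unpair.1

/-- the row of `z` -/
def rr (z : ℕ) : ℕ := (z / 2).unpair.2.unpair.1

/-- the number coded by `z` -/
def yy (z : ℕ) : ℕ := (z / 2).unpair.2.unpair.2

/-- the number of requirements respected by `z` -/
def nn (z : ℕ) : ℕ := cond (decide (z % 2 = 0)) (kd z + 1) (kd z)

/-- the threshold of `z` -/
def th (z : ℕ) : ℕ := cond (decide (z % 2 = 0)) z (rr z)

/-- `z` respects the requirements with numbers less than `nn z` -/
def Cn (θ : ℕ → ℕ → List Bool → Bool) (a : List ℕ) (s : ℕ) (X : ℕ → Bool) (z : ℕ) : Prop :=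
  (∀ k < nn z, el θ k (pre X s) = el θ k (pre X (th z))) ∧
    ∀ k < nn z, res s k (jn X a) ≤ th z

/-- `z` is put in at stage `s` -/
def Put (θ u : ℕ → ℕ → List Bool → Bool) (a : List ℕ) (s : ℕ) (X : ℕ → Bool) (z : ℕ) : Prop :=
  Cn θ a s X z ∧
    ((z % 2 = 0 ∧ En s (kd z) z X ∧ ∀ y ∈ a, y % 2 = 0 → kd y ≠ kd z) ∨
      (z % 2 = 1 ∧ rr z < el θ (kd z) (pre X s) ∧ yy z < el θ (kd z) (pre X s) ∧
        u (kd z) (yy z) (pre X s) = true))

open Classical in
/-- the elements put in before stage `s` -/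
noncomputable def AA (θ u : ℕ → ℕ → List Bool → Bool) (X : ℕ → Bool) : ℕ → List ℕ
  | 0 => []
  | s + 1 => AA θ u X s ++ (List.range s).filter (fun z => decide (Put θ u (AA θ u X s) s X z))

open Classical in
/-- the join of `X` with the set of all elements put in -/
noncomputable def WA (θ u : ℕ → ℕ → List Bool → Bool) (X : ℕ → Bool) : ℕ → Bool :=
  fun m => if m % 2 = 0 then X (m / 2) else decide (∃ s, m / 2 ∈ AA θ u X s)

/-- the `k`-th condition -/
def T (θ : ℕ → ℕ → List Bool → Bool) (k : ℕ) (X : ℕ → Bool) : Prop :=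
  ∀ n, ∃ s, θ k n (pre X s) = true

/-- the `k`-th operator -/
def U (u : ℕ → ℕ → List Bool → Bool) (k : ℕ) (X : ℕ → Bool) : Set ℕ :=
  {y | ∃ s, u k y (pre X s) = true}

/-- monotonicity -/
def Mo (θ : ℕ → ℕ → List Bool → Bool) : Prop :=
  ∀ k n σ τ, σ <+: τ → θ k n σ = true → θ k n τ = true

theorem th_le (z : ℕ) : th z ≤ z := by
  unfold th rr
  cases decide (z % 2 = 0)
  · exact (Nat.unpair_left_le _).trans ((Nat.unpair_right_le _).trans (Nat.div_le_self _ _))
  · exact le_rfl

theorem kd_le_nn (z : ℕ) : kd z ≤ nn z := by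
  unfold nn
  cases decide (z % 2 = 0)
  · exact le_rfl
  · exact Nat.le_succ _

section el

variable {θ : ℕ → ℕ → List Bool → Bool} {k : ℕ}

theorem lt_el {σ : List Bool} {n : ℕ} :
    n < el θ k σ ↔ n < σ.length ∧ ∀ m ≤ n, θ k m σ = true := by
  unfold el
  constructor
  · intro h
    have h0 : (List.range σ.length).findIdx (fun n => !(θ k n σ)) ≤ (List.range σ.length).length :=
      List.findIdx_le_length
    rw [List.length_range] at h0
    refine ⟨by omega, fun m hm => ?_⟩
    have h1 := List.not_of_lt_findIdx (lt_of_le_of_lt hm h)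
    rw [List.getElem_range] at h1
    simpa using h1
  · rintro ⟨h1, h2⟩
    by_contra hc
    have h3 : (List.range σ.length).findIdx (fun n => !(θ k n σ)) < (List.range σ.length).length := by
      rw [List.length_range]; omega
    have h4 := List.findIdx_getElem (w := h3)
    rw [List.getElem_range] at h4
    have h5 := h2 _ (not_lt.1 hc)
    rw [h5] at h4
    exact absurd h4 (by simp)

theorem el_le (σ : List Bool) : el θ k σ ≤ σ.length := by
  by_contra hc
  exact absurd (lt_el.1 (not_le.1 hc)).1 (lt_irrefl _)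

theorem el_mono (hθ : Mo θ) {σ τ : List Bool} (h : σ <+: τ) : el θ k σ ≤ el θ k τ := by
  by_contra hc
  have h1 := lt_el.1 (not_le.1 hc)
  exact absurd (lt_el.2 ⟨lt_of_lt_of_le h1.1 h.length_le, fun m hm => hθ _ _ _ _ h (h1.2 m hm)⟩)
    (lt_irrefl _)

variable {X : ℕ → Bool}

theorem T_iff (hθ : Mo θ) : T θ k X ↔ ∀ N, ∃ s, N < el θ k (pre X s) := by
  constructor
  · intro h N
    obtain ⟨a, ha⟩ := bdd_lt (N + 1) (fun n s => θ k n (pre X s) = true) (fun n _ => by
      obtain ⟨s, hs⟩ := h n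
      exact ⟨s, fun b hb => hθ _ _ _ _ (pre_prefix X hb) hs⟩)
    refine ⟨max a (N + 1), lt_el.2 ⟨?_, fun m hm => ha m (by omega) _ (le_max_left _ _)⟩⟩
    rw [length_pre]
    omega
  · intro h n
    obtain ⟨s, hs⟩ := h n
    exact ⟨s, (lt_el.1 hs).2 n le_rfl⟩

/-- the counter is eventually constant if the condition is false -/
theorem el_const (hθ : Mo θ) (h : ¬ T θ k X) :
    ∃ b, ∀ s ≥ b, el θ k (pre X s) = el θ k (pre X b) := by
  rw [T_iff hθ] at h
  push Not at h
  obtain ⟨N, hN⟩ := h
  have key : ∀ d : ℕ, ∀ s, N - el θ k (pre X s) ≤ d →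
      ∃ b, ∀ t ≥ b, el θ k (pre X t) = el θ k (pre X b) := by
    intro d
    induction d with
    | zero =>
      intro s hs
      refine ⟨s, fun t ht => ?_⟩
      have h1 := el_mono (k := k) hθ (pre_prefix X ht)
      have h2 := hN t
      have h3 := hN s
      omega
    | succ d ih =>
      intro s hs
      by_cases hc : ∀ t ≥ s, el θ k (pre X t) = el θ k (pre X s)
      · exact ⟨s, hc⟩
      · push Not at hc
        obtain ⟨t, ht, hne⟩ := hc
        have h1 := el_mono (k := k) hθ (pre_prefix X ht)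
        exact ih t (by omega)
  exact key _ 0 le_rfl

theorem el_mono' (hθ : Mo θ) {s t : ℕ} (h : s ≤ t) : el θ k (pre X s) ≤ el θ k (pre X t) :=
  el_mono hθ (pre_prefix X h)

end el

end Pool.Agent.H649.PT
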