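import Pool.Graph.R_seed8.Helper227.VL
import Pool.Agent.H649.PT.Cls

set_option autoImplicit false

/-!
A set of positive measure fills more than half of some cylinder.
-/

namespace Pool.Agent.H649.PT

open Encodable MeasureTheory Pool.Agent.Helper227 Pool.Agent.H548R2.Post
open scoped ENNReal

theorem lam_split (K : Set (ℕ → Bool)) (N : ℕ) (F : Finset (List Bool)) :
    lam (K ∩ {X | pre X N ∈ F}) ≤ ∑ σ ∈ F, lam (K ∩ cyl σ) := by
  have : K ∩ {X : ℕ → Bool | pre X N ∈ F} ⊆ ⋃ σ ∈ F, (K ∩ cyl σ) := by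
    rintro X ⟨h1, h2⟩
    simp only [Set.mem_ofPred_eq] at h2
    simp only [Set.mem_iUnion, exists_prop]
    exact ⟨_, h2, h1, mem_cyl_pre _ _⟩
  exact (measure_mono this).trans (measure_biUnion_finset_le _ _)

theorem lam_split' (N : ℕ) (F : Finset (List Bool))
    (hF : ∀ σ ∈ F, σ.length = N) :
    lam {X | pre X N ∈ F} = ∑ σ ∈ F, lam (cyl σ) := by
  rw [lam_finset F N hF, Finset.sum_congr rfl (fun σ hσ => by rw [lam_cyl, hF σ hσ])]
  simp

theorem isOpen_exists (U : Set (ℕ → Bool)) (hU : IsOpen U) (X : ℕ → Bool) (hX : X ∈ U) :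
    ∃ N, cyl (pre X N) ⊆ U := by
  rw [isOpen_pi_iff] at hU
  obtain ⟨I, u, h1, h2⟩ := hU X hX
  refine ⟨I.sup id + 1, fun Y hY => h2 fun i hi => ?_⟩
  rw [mem_cyl_iff, length_pre] at hY
  have h3 : i < I.sup id + 1 := Nat.lt_succ_of_le (Finset.le_sup (f := id) hi)
  have h4 : Y i = X i := by
    have := congrArg (fun l : List Bool => l[i]?) hY
    simpa [pre_getElem? _ _ _ h3] using this
  rw [h4]
  exact (h1 i hi).2

/-- a set which fills at most half of each cylinder fills at most half of each open set -/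
theorem half_open {K : Set (ℕ → Bool)} (h : ∀ σ, 2 * lam (K ∩ cyl σ) ≤ lam (cyl σ))
    {U : Set (ℕ → Bool)} (hU : IsOpen U) : 2 * lam (K ∩ U) ≤ lam U := by
  classical
  let F : ℕ → Finset (List Bool) := fun N => ((allStr N).filter fun σ => cyl σ ⊆ U).toFinset
  have hF : ∀ N, ∀ σ ∈ F N, σ.length = N := by
    intro N σ hσ
    simp only [F, List.mem_toFinset, List.mem_filter, mem_allStr] at hσ
    exact hσ.1
  have hmem : ∀ N X, pre X N ∈ F N ↔ cyl (pre X N) ⊆ U := by
    intro N X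
    simp [F, mem_allStr]
  let V : ℕ → Set (ℕ → Bool) := fun N => {X | pre X N ∈ F N}
  have hV : Monotone V := by
    intro M N hMN X hX
    simp only [V, Set.mem_ofPred_eq, hmem] at hX ⊢
    exact (cyl_subset (pre_prefix X hMN)).trans hX
  have hVU : U = ⋃ N, V N := by
    ext X
    simp only [V, Set.mem_iUnion, Set.mem_ofPred_eq, hmem]
    constructor
    · exact isOpen_exists U hU X
    · rintro ⟨N, hN⟩
      exact hN (mem_cyl_pre X N)
  have hstep : ∀ N, 2 * lam (K ∩ V N) ≤ lam (V N) := by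
    intro N
    have h1 := lam_split K N (F N)
    have h2 := lam_split' N (F N) (hF N)
    calc 2 * lam (K ∩ V N) ≤ 2 * ∑ σ ∈ F N, lam (K ∩ cyl σ) := by gcongr
      _ = ∑ σ ∈ F N, 2 * lam (K ∩ cyl σ) := Finset.mul_sum _ _ _
      _ ≤ ∑ σ ∈ F N, lam (cyl σ) := Finset.sum_le_sum fun σ _ => h σ
      _ = lam (V N) := h2.symm
  have hKU : K ∩ U = ⋃ N, (K ∩ V N) := by
    rw [hVU, Set.inter_iUnion]
  have hKV : Monotone fun N => K ∩ V N := fun M N h => Set.inter_subset_inter_right _ (hV h)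
  rw [hKU, hKV.measure_iUnion, ENNReal.mul_iSup]
  refine iSup_le fun N => (hstep N).trans (measure_mono ?_)
  intro X hX
  rw [hVU]
  exact Set.mem_iUnion.2 ⟨N, hX⟩

/-- the density lemma -/
theorem exists_dense {K : Set (ℕ → Bool)} (hK : lam K ≠ 0) :
    ∃ σ, lam (cyl σ) < 2 * lam (K ∩ cyl σ) := by
  by_contra hc
  push Not at hc
  have hK1 : lam K ≠ ⊤ := measure_ne_top _ _
  have h1 : lam K < 2 * lam K := by
    rw [two_mul]
    exact ENNReal.lt_add_right hK1 hK
  obtain ⟨U, hKU, hU, hUl⟩ := Set.exists_isOpen_lt_of_lt K (2 * lam K) h1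
  have h2 := half_open hc hU
  rw [Set.inter_eq_left.2 hKU] at h2
  exact absurd hUl (not_lt.2 h2)

end Pool.Agent.H649.PT
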