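import Pool.Agent.H649.PT.Inj

set_option autoImplicit false

/-!
The requirements in front of the first true condition act finitely often.
-/

namespace Pool.Agent.H649.PT

open Encodable Pool.Agent.Helper227 Pool.Agent.H548R2.Post
open Nat.Partrec (Code)
open Pool.Agent.TH769.CD (bdd_lt)

section

variable {θ u : ℕ → ℕ → List Bool → Bool} {X : ℕ → Bool}

theorem mem_AA_succ {s z : ℕ} :
    z ∈ AA θ u X (s + 1) ↔ z ∈ AA θ u X s ∨ (z < s ∧ Put θ u (AA θ u X s) s X z) := by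
  classical
  rw [AA, List.mem_append, List.mem_filter, List.mem_range, decide_eq_true_iff]

theorem AA_mono (s z : ℕ) (h : z ∈ AA θ u X s) : z ∈ AA θ u X (s + 1) :=
  mem_AA_succ.2 (Or.inl h)

theorem WA_eq : WA θ u X = lm X (AA θ u X) := rfl

theorem mem_ex {z : ℕ} (h : ∃ s, z ∈ AA θ u X s) : ∃ s, z < s ∧ Put θ u (AA θ u X s) s X z := by
  obtain ⟨s, hs⟩ := h
  induction s with
  | zero => exact absurd hs (by simp [AA])
  | succ s ih =>
    rcases mem_AA_succ.1 hs with h1 | h1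
    · exact ih h1
    · exact ⟨s, h1⟩

theorem code_eq (z : ℕ) : z / 2 = Nat.pair (kd z) (Nat.pair (rr z) (yy z)) := by
  unfold kd rr yy
  rw [Nat.pair_unpair, Nat.pair_unpair]

theorem fin_one (hθ : Mo θ) {k : ℕ} (h : ¬ T θ k X) :
    ∃ s0, ∀ s ≥ s0, ∀ z ∈ AA θ u X (s + 1), kd z = k → z ∈ AA θ u X s := by
  -- elements of the first type
  obtain ⟨sp, hsp⟩ : ∃ sp, ∀ s ≥ sp, ∀ z ∈ AA θ u X (s + 1), kd z = k → z % 2 = 0 →
      z ∈ AA θ u X s := by
    by_cases hex : ∃ s, ∃ y ∈ AA θ u X s, y % 2 = 0 ∧ kd y = k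
    · obtain ⟨s1, y, hy, hy2, hyk⟩ := hex
      refine ⟨s1, fun s hs z hz hzk hz2 => ?_⟩
      rcases mem_AA_succ.1 hz with h1 | ⟨_, _, h2 | h2⟩
      · exact h1
      · exact absurd (hyk.trans hzk.symm) (h2.2.2 y (a_le AA_mono hs hy) hy2)
      · omega
    · refine ⟨0, fun s _ z hz hzk hz2 => ?_⟩
      exact absurd ⟨s + 1, z, hz, hz2, hzk⟩ hex
  obtain ⟨b, hb⟩ := el_const hθ h
  generalize hb' : el θ k (pre X b) = b' at hb
  -- elements of the second type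
  obtain ⟨sc, hsc⟩ := bdd_lt (2 * Nat.pair k (Nat.pair b' b') + 2)
    (fun z s => z ∈ AA θ u X (s + 1) → z ∈ AA θ u X s) (fun z _ => by
      by_cases hex : ∃ s, z ∈ AA θ u X s
      · obtain ⟨s1, h1⟩ := hex
        exact ⟨s1, fun s hs _ => a_le AA_mono hs h1⟩
      · exact ⟨0, fun s _ h1 => absurd ⟨_, h1⟩ hex⟩)
  refine ⟨max b (max sp sc), fun s hs z hz hzk => ?_⟩
  rcases Nat.mod_two_eq_zero_or_one z with h2 | h2
  · exact hsp s (by omega) z hz hzk h2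
  · rcases mem_AA_succ.1 hz with h1 | ⟨_, _, h3 | h3⟩
    · exact h1
    · omega
    · obtain ⟨_, h4, h5, _⟩ := h3
      rw [hzk, hb s (by omega)] at h4 h5
      refine hsc z ?_ s (by omega) hz
      have h6 := code_eq z
      have h7 : Nat.pair (kd z) (Nat.pair (rr z) (yy z)) < Nat.pair k (Nat.pair b' b') := by
        rw [hzk]
        refine Nat.pair_lt_pair_right _ ?_
        exact (Nat.pair_lt_pair_left _ h4).trans (Nat.pair_lt_pair_right _ h5)
      omega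

theorem fin_all (hθ : Mo θ) {N : ℕ} (h : ∀ k < N, ¬ T θ k X) :
    ∃ s0, ∀ s ≥ s0, ∀ z ∈ AA θ u X (s + 1), kd z < N → z ∈ AA θ u X s := by
  obtain ⟨s0, hs0⟩ := bdd_lt N
    (fun k s => ∀ z ∈ AA θ u X (s + 1), kd z = k → z ∈ AA θ u X s) (fun k hk => fin_one hθ (h k hk))
  exact ⟨s0, fun s hs z hz hzk => hs0 (kd z) hzk s hs z hz rfl⟩

/-- elements which are put in respect the restraints -/
theorem resp {s z k : ℕ} (hz : z ∈ AA θ u X (s + 1)) (hk : k < nn z) :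
    z ∈ AA θ u X s ∨ res s k (jn X (AA θ u X s)) ≤ z := by
  rcases mem_AA_succ.1 hz with h1 | ⟨_, h2, _⟩
  · exact Or.inl h1
  · exact Or.inr ((h2.2 k hk).trans (th_le z))

/-- the injuries of the restraint with number `e` stop -/
theorem inj_stop (hθ : Mo θ) {N e : ℕ} (h : ∀ k < N, ¬ T θ k X)
    (he : ∀ z, N ≤ kd z → e < nn z) :
    ∃ s0, ∀ s ≥ s0, ∀ z ∈ AA θ u X (s + 1),
      z ∈ AA θ u X s ∨ res s e (jn X (AA θ u X s)) ≤ z := by
  obtain ⟨s0, hs0⟩ := fin_all (u := u) hθ h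
  refine ⟨s0, fun s hs z hz => ?_⟩
  by_cases hzk : kd z < N
  · exact Or.inl (hs0 s hs z hz hzk)
  · exact resp hz (he z (not_lt.1 hzk))

/-- a common bound for the counters and restraints in front of a condition -/
theorem exists_bound (hθ : Mo θ) {N : ℕ} (h : ∀ k < N, ¬ T θ k X)
    (hr : ∀ k < N, ∃ b, ∀ s, res s k (jn X (AA θ u X s)) ≤ b) :
    ∃ b, (∀ k < N, ∀ s ≥ b, el θ k (pre X s) = el θ k (pre X b)) ∧
      ∀ k < N, ∀ s, res s k (jn X (AA θ u X s)) ≤ b := by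
  obtain ⟨b1, hb1⟩ := bdd_lt N (fun k b => ∀ s ≥ b, el θ k (pre X s) = el θ k (pre X b))
    (fun k hk => by
      obtain ⟨b, hb⟩ := el_const hθ (h k hk)
      exact ⟨b, fun c hc s hs => by rw [hb s (hc.trans hs), hb c hc]⟩)
  obtain ⟨b2, hb2⟩ := bdd_lt N (fun k b => ∀ s, res s k (jn X (AA θ u X s)) ≤ b)
    (fun k hk => by
      obtain ⟨b, hb⟩ := hr k hk
      exact ⟨b, fun c hc s => (hb s).trans hc⟩)
  exact ⟨max b1 b2, fun k hk s hs => hb1 k hk _ (le_max_left _ _) s hs,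
    fun k hk s => hb2 k hk _ (le_max_right _ _) s⟩

end

/-! The case without a true condition. -/

section

variable {θ u : ℕ → ℕ → List Bool → Bool} {X : ℕ → Bool}

theorem inj_stop0 (hθ : Mo θ) (h : ∀ k, ¬ T θ k X) (e : ℕ) :
    ∃ s0, ∀ s ≥ s0, ∀ z ∈ AA θ u X (s + 1),
      z ∈ AA θ u X s ∨ res s e (jn X (AA θ u X s)) ≤ z :=
  inj_stop hθ (N := e + 1) (fun k _ => h k) fun z hz => lt_of_lt_of_le hz (kd_le_nn z)

theorem low_true (e : ℕ) (h : jump (WA θ u X) e = true) :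
    ∃ s0, ∀ s ≥ s0, En s e e (jn X (AA θ u X s)) := jump_true' AA_mono e h

theorem low_false (hθ : Mo θ) (hT : ∀ k, ¬ T θ k X) (e : ℕ) (h : jump (WA θ u X) e = false) :
    ∃ s0, ∀ s ≥ s0, ¬ En s e e (jn X (AA θ u X s)) := by
  obtain ⟨s0, hs0⟩ := inj_stop0 (u := u) hθ hT e
  exact jump_false' AA_mono hs0 h

theorem WA_odd (m : ℕ) : WA θ u X (2 * m + 1) = true ↔ ∃ s, m ∈ AA θ u X s := by
  unfold WA
  have h1 : ¬ ((2 * m + 1) % 2 = 0) := by omega
  have h2 : (2 * m + 1) / 2 = m := by omega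
  rw [if_neg h1, @decide_eq_true_iff _ (Classical.propDecidable _), h2]

theorem WA_even (m : ℕ) : WA θ u X (2 * m) = X m := by
  unfold WA
  have h1 : 2 * m % 2 = 0 := by omega
  have h2 : 2 * m / 2 = m := by omega
  simp only [h1, h2, if_true]

/-- the set is not the complement of a set c.e. in `X` -/
theorem not_compl (hθ : Mo θ) (hT : ∀ k, ¬ T θ k X) (n : ℕ)
    (hn : ∀ z, z ∈ WE X n ↔ ¬ ∃ s, z ∈ AA θ u X s) : False := by
  obtain ⟨b, hb1, hb2⟩ := exists_bound (u := u) (N := n + 1) hθ (fun k _ => hT k)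
    (fun k _ => by
      obtain ⟨s0, hs0⟩ := inj_stop0 (u := u) hθ hT k
      exact res_bdd AA_mono hs0)
  -- no element of the first type for `n` is put in
  have h1 : ∀ s, ∀ y ∈ AA θ u X s, y % 2 = 0 → kd y ≠ n := by
    intro s y hy h2 hk
    obtain ⟨t, _, _, h3 | h3⟩ := mem_ex ⟨s, hy⟩
    · rw [hk] at h3
      exact ((hn y).1 ((mem_WE_iff X n y).2 ⟨t, h3.2.1⟩)) ⟨s, hy⟩
    · omega
  obtain ⟨z, hz⟩ : ∃ z, z = 2 * Nat.pair n b := ⟨_, rfl⟩
  have hz0 : z % 2 = 0 := by omega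
  have hz2 : z / 2 = Nat.pair n b := by omega
  have hk : kd z = n := by
    unfold kd
    rw [hz2, Nat.unpair_pair]
  have hzb : b ≤ z := (Nat.right_le_pair n b).trans (by omega)
  have hth : th z = z := by
    unfold th
    rw [decide_eq_true hz0, cond_true]
  have hnn : nn z = n + 1 := by
    unfold nn
    rw [decide_eq_true hz0, cond_true, hk]
  have hzn : ¬ ∃ s, z ∈ AA θ u X s := fun ⟨s, hs⟩ => h1 s z hs hz0 hk
  obtain ⟨s1, hs1⟩ := (mem_WE_iff X n z).1 ((hn z).2 hzn)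
  refine hzn ⟨max s1 (z + 1) + 1, mem_AA_succ.2 (Or.inr ⟨?_, ⟨?_, ?_⟩, Or.inl ⟨hz0, ?_, ?_⟩⟩)⟩
  · exact lt_of_lt_of_le (Nat.lt_succ_self z) (le_max_right _ _)
  · intro k hk'
    rw [hnn] at hk'
    rw [hth, hb1 k hk' _ hzb, hb1 k hk' _ (hzb.trans ((Nat.le_succ z).trans (le_max_right _ _)))]
  · intro k hk'
    rw [hnn] at hk'
    rw [hth]
    exact (hb2 k hk' _).trans hzb
  · rw [hk]
    exact En_mono (le_max_left _ _) hs1
  · intro y hy hy2
    rw [hk]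
    exact h1 _ y hy hy2

theorem not_WA_le (hθ : Mo θ) (hT : ∀ k, ¬ T θ k X) : ¬ TLe (WA θ u X) X := by
  intro h
  have h1 : SI X (fun x : ℕ × Bool => WA θ u X x.1 = x.2) := tLe_iff_SI.1 h
  have hf : Primrec (fun z : ℕ => ((2 * z + 1, false) : ℕ × Bool)) := by
    refine Primrec.pair ?_ (Primrec.const false)
    exact Primrec.nat_add.comp (Primrec.nat_mul.comp (Primrec.const 2) Primrec.id) (Primrec.const 1)
  have h2 : SI X (fun z : ℕ => WA θ u X (2 * z + 1) = false) := h1.comp hf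
  have h3 : SI X (fun z : ℕ => z ∈ {z | ¬ ∃ s, z ∈ AA θ u X s}) := by
    refine h2.of_eq fun z => ?_
    rw [Set.mem_ofPred_eq, ← WA_odd, Bool.not_eq_true]
  obtain ⟨n, hn⟩ := ceIn_iff_exists_WE.1 (SI.iff_ceIn.2 h3)
  refine not_compl (u := u) hθ hT n fun z => ?_
  rw [← hn]
  rfl

theorem le_WA : TLe X (WA θ u X) := by
  have hf : Computable fun n : ℕ => 2 * n :=
    (Primrec.nat_mul.comp (Primrec.const 2) Primrec.id).to_comp
  refine tLe_of_computable hf fun n => ?_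
  rw [WA_even]

end

end Pool.Agent.H649.PT
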