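import Pool.Agent.H649.PT.Cls

set_option autoImplicit false

/-!
Oracles above a set `B` which meet all dense open sets c.e. in `B`.
-/

namespace Pool.Agent.H649.PT

open Encodable Pool.Agent.Helper227 Pool.Agent.H548R2.Post
open Nat.Partrec (Code)
open Pool.Agent.TH769.TP (Via fv Fn FF mon_FF Lim Mon AG Unb lim_FF via_iff)
open Pool.Agent.TH769.ZA (si_gen pf_sub)
open Pool.Agent.TH769.CD (bdd_lt pf_add pf_mul pf_div pf_mod pf_pow pf_getD pf_take
  pf_append pf_cons pf_length pf_range pf_natPair pf_unpair pf_encode pf_testBit pf_xorb pf_andb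
  pf_hlt pf_xor pp_exlt pp_alllt pp_imp pp_eq pp_le pp_lt pp_mem pf_decide pf_pre pp_En pf_ext
  ext_pre_eq)

attribute [local fun_prop] Primrec
attribute [local fun_prop] Primrec.id Primrec.const Primrec.comp Primrec.pair Primrec.fst Primrec.snd
attribute [local fun_prop] pf_add pf_mul pf_div pf_mod pf_pow pf_getD pf_take pf_append pf_cons
  pf_length pf_range pf_natPair pf_unpair pf_encode pf_testBit pf_xorb pf_andb pf_hlt pf_xor
  pf_sub

variable {Z B X : ℕ → Bool}

theorem jump_iff (Z : ℕ → Bool) (n : ℕ) : jump Z n = true ↔ ∃ t, En t n n Z := by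
  rw [jump_eq_true, mem_WE_iff]

theorem en_str (t n : ℕ) (Z : ℕ → Bool) : En t n n Z ↔
    ∃ k < (pre Z t).length + 1, hlt (pre Z t).length n n ((pre Z t).take k) = true := by
  unfold En
  rw [length_pre]
  constructor
  · rintro ⟨k, hk, h⟩
    exact ⟨k, by omega, by rw [take_pre _ _ _ hk]; exact h⟩
  · rintro ⟨k, hk, h⟩
    rw [take_pre _ _ _ (by omega)] at h
    exact ⟨k, by omega, h⟩

theorem pp_enstr : PrimrecPred fun x : ℕ × List Bool =>
    ∃ k < x.2.length + 1, hlt x.2.length x.1 x.1 (x.2.take k) = true :=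
  pp_exlt (by fun_prop) (pp_eq (by fun_prop) (Primrec.const true))

theorem si_En1 (Z : ℕ → Bool) : SI Z fun x : ℕ × ℕ => En x.2 x.1 x.1 Z :=
  (si_gen (X := Z) (S1.of_prim pp_enstr)).of_eq fun x => (en_str x.2 x.1 Z).symm

theorem si_En0 (Z : ℕ → Bool) : SI Z fun x : ℕ × ℕ => ¬ En x.2 x.1 x.1 Z :=
  (si_gen (X := Z) (S1.of_prim pp_enstr.not)).of_eq fun x => not_congr (en_str x.2 x.1 Z).symm

/-- a block of the coding -/
def Vb (Z X : ℕ → Bool) (p q n t : ℕ) : Prop :=
  q = p + n + t + 2 ∧ (∀ m < n, X (p + m) = true) ∧ X (p + n) = false ∧ En t n n Z ∧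
    ∀ t' < t, ¬ En t' n n Z

theorem Vb.uniq {p q q' n n' t t' : ℕ} (h : Vb Z X p q n t) (h' : Vb Z X p q' n' t') : q = q' := by
  obtain ⟨h1, h2, h3, h4, h5⟩ := h
  obtain ⟨h1', h2', h3', h4', h5'⟩ := h'
  have hn : n = n' := by
    rcases Nat.lt_trichotomy n n' with hc | hc | hc
    · have := h2' n hc
      rw [h3] at this
      cases this
    · exact hc
    · have := h2 n' hc
      rw [h3'] at this
      cases this
  subst hn
  have ht : t = t' := by
    rcases Nat.lt_trichotomy t t' with hc | hc | hc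
    · exact absurd h4 (h5' t hc)
    · exact hc
    · exact absurd h4' (h5 t' hc)
  omega

theorem si_Vb (Z X : ℕ → Bool) : SI (join Z X) fun x : ℕ × ℕ =>
    ∃ y : ℕ × ℕ, Vb Z X x.1 x.2 y.1 y.2 := by
  have hX : SI (join Z X) fun x : ℕ × Bool => X x.1 = x.2 := tLe_iff_SI.1 (le_join_right Z X)
  have hZ := le_join_left Z X
  refine SI.ex (p := fun (x : ℕ × ℕ) (y : ℕ × ℕ) => Vb Z X x.1 x.2 y.1 y.2) ?_
  unfold Vb
  refine SI.and (SI.of_prim (pp_eq (by fun_prop) (by fun_prop))) (SI.and ?_ (SI.and ?_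
    (SI.and ?_ ?_)))
  · refine SI.all_lt (α := (ℕ × ℕ) × (ℕ × ℕ)) (p := fun x m => X (x.1.1 + m) = true)
      (f := fun x => x.2.1) ?_ (by fun_prop)
    exact hX.comp (f := fun z : ((ℕ × ℕ) × (ℕ × ℕ)) × ℕ => (z.1.1.1 + z.2, true)) (by fun_prop)
  · exact hX.comp (f := fun z : (ℕ × ℕ) × (ℕ × ℕ) => (z.1.1 + z.2.1, false)) (by fun_prop)
  · exact ((si_En1 Z).trans hZ).comp (f := fun z : (ℕ × ℕ) × (ℕ × ℕ) => (z.2.1, z.2.2))
      (by fun_prop)
  · refine SI.all_lt (α := (ℕ × ℕ) × (ℕ × ℕ)) (p := fun x t' => ¬ En t' x.2.1 x.2.1 Z)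
      (f := fun x => x.2.2) ?_ (by fun_prop)
    exact ((si_En0 Z).trans hZ).comp (f := fun z : ((ℕ × ℕ) × (ℕ × ℕ)) × ℕ => (z.1.2.1, z.2))
      (by fun_prop)

/-- decoding -/
theorem decode_le {pos : ℕ → ℕ} (h1 : ∀ i, ∃ n t, Vb Z X (pos i) (pos (i + 1)) n t)
    (h2 : ∀ i, X (pos (i + 1) - 1) = B i) : TLe B (join Z X) := by
  have hX : SI (join Z X) fun x : ℕ × Bool => X x.1 = x.2 := tLe_iff_SI.1 (le_join_right Z X)
  rw [tLe_iff_SI]
  have h3 : SI (join Z X) fun x : ℕ × Bool => ∃ L : List ℕ, L.getD 0 0 = pos 0 ∧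
      (∀ j < x.1 + 1, ∃ y : ℕ × ℕ, Vb Z X (L.getD j 0) (L.getD (j + 1) 0) y.1 y.2) ∧
      X (L.getD (x.1 + 1) 0 - 1) = x.2 := by
    refine SI.ex (p := fun (x : ℕ × Bool) (L : List ℕ) => L.getD 0 0 = pos 0 ∧
      (∀ j < x.1 + 1, ∃ y : ℕ × ℕ, Vb Z X (L.getD j 0) (L.getD (j + 1) 0) y.1 y.2) ∧
      X (L.getD (x.1 + 1) 0 - 1) = x.2) (SI.and (SI.of_prim (pp_eq (by fun_prop) (by fun_prop)))
        (SI.and ?_ ?_))
    · refine SI.all_lt (α := (ℕ × Bool) × List ℕ)
        (p := fun x j => ∃ y : ℕ × ℕ, Vb Z X (x.2.getD j 0) (x.2.getD (j + 1) 0) y.1 y.2)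
        (f := fun x => x.1.1 + 1) ?_ (by fun_prop)
      exact (si_Vb Z X).comp (f := fun z : ((ℕ × Bool) × List ℕ) × ℕ =>
        (z.1.2.getD z.2 0, z.1.2.getD (z.2 + 1) 0)) (by fun_prop)
    · exact hX.comp (f := fun z : (ℕ × Bool) × List ℕ => (z.2.getD (z.1.1 + 1) 0 - 1, z.1.2))
        (by fun_prop)
  refine h3.of_eq ?_
  rintro ⟨i, b⟩
  simp only
  constructor
  · rintro ⟨L, h4, h5, h6⟩
    have h7 : ∀ j ≤ i + 1, L.getD j 0 = pos j := by
      intro j
      induction j with
      | zero => intro _; exact h4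
      | succ j ih =>
        intro hj
        obtain ⟨y, hy⟩ := h5 j (by omega)
        rw [ih (by omega)] at hy
        obtain ⟨n, t, h8⟩ := h1 j
        exact hy.uniq h8
    rw [h7 _ le_rfl, h2] at h6
    exact h6
  · rintro rfl
    refine ⟨(List.range (i + 2)).map pos, ?_, fun j hj => ?_, ?_⟩
    · rw [List.getD_eq_getElem _ _ (by simp)]
      simp
    · obtain ⟨n, t, h8⟩ := h1 j
      refine ⟨(n, t), ?_⟩
      rw [List.getD_eq_getElem _ _ (by simp; omega), List.getD_eq_getElem _ _ (by simp; omega)]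
      simpa using h8
    · rw [List.getD_eq_getElem _ _ (by simp)]
      simpa using h2 i

/-- one step -/
theorem step {D : List Bool → Prop} (hZB : TLe Z B) (hK : ¬ TLe (jump Z) B) (hD : SI B D)
    (up : ∀ σ τ, σ <+: τ → D σ → D τ) {α : List Bool}
    (dn : ∀ τ, α <+: τ → ∃ τ', τ <+: τ' ∧ D τ') :
    ∃ (n : ℕ) (ρ : List Bool), D (α ++ (List.replicate n true ++ (false :: ρ))) ∧
      En ρ.length n n Z ∧ ∀ t' < ρ.length, ¬ En t' n n Z := by
  classical
  by_contra hc
  push Not at hc
  refine hK ?_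
  have h0 : ∀ n, jump Z n = false ↔ ∃ ρ : List Bool,
      D (α ++ (List.replicate n true ++ (false :: ρ))) ∧ ¬ En ρ.length n n Z := by
    intro n
    constructor
    · intro hn
      obtain ⟨τ', h1, h2⟩ := dn (α ++ (List.replicate n true ++ [false])) (List.prefix_append _ _)
      obtain ⟨ρ, rfl⟩ := h1
      refine ⟨ρ, by simpa using h2, fun h3 => ?_⟩
      have := (jump_iff Z n).2 ⟨_, h3⟩
      rw [hn] at this
      cases this
    · rintro ⟨ρ, h1, h2⟩
      by_contra hn
      have hn' : jump Z n = true := by simpa using hn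
      have hex := (jump_iff Z n).1 hn'
      have h3 := Nat.find_spec hex
      have h4 : ∀ t' < Nat.find hex, ¬ En t' n n Z := fun t' ht' => Nat.find_min hex ht'
      have h5 : ρ.length < Nat.find hex := by
        by_contra h6
        exact h2 (En_mono (not_lt.1 h6) h3)
      obtain ⟨t', h7, h8⟩ := hc n (ρ ++ List.replicate (Nat.find hex - ρ.length) false)
        (up _ _ ⟨List.replicate (Nat.find hex - ρ.length) false, by simp⟩ h1) (by
          rw [List.length_append, List.length_replicate,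
            Nat.add_sub_cancel' h5.le]
          exact h3)
      rw [List.length_append, List.length_replicate, Nat.add_sub_cancel' h5.le] at h7
      exact h4 t' h7 h8
  rw [tLe_iff_SI]
  have s1 : SI B fun n : ℕ => ∃ ρ : List Bool,
      D (α ++ (List.replicate n true ++ (false :: ρ))) ∧ ¬ En ρ.length n n Z := by
    refine SI.ex (p := fun (n : ℕ) (ρ : List Bool) =>
      D (α ++ (List.replicate n true ++ (false :: ρ))) ∧ ¬ En ρ.length n n Z) (SI.and ?_ ?_)
    · have hrep : Primrec fun n : ℕ => List.replicate n true := by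
        have h : Primrec fun n : ℕ => (List.range n).map fun _ => true :=
          Primrec.list_map (pf_range Primrec.id) ((Primrec.const true).to₂)
        exact h.of_eq fun n => by simp
      refine hD.comp (f := fun x : ℕ × List Bool =>
        α ++ (List.replicate x.1 true ++ (false :: x.2))) ?_
      exact pf_append (Primrec.const _) (pf_append (hrep.comp Primrec.fst)
        (pf_cons (Primrec.const _) Primrec.snd))
    · exact ((si_En0 Z).trans hZB).comp (f := fun x : ℕ × List Bool => (x.1, x.2.length))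
        (by fun_prop)
  have s2 : SI B fun n : ℕ => jump Z n = true := (si_jump Z).trans hZB
  have s3 : SI B fun x : ℕ × Bool => (jump Z x.1 = true ∧ x.2 = true) ∨ ((∃ ρ : List Bool,
      D (α ++ (List.replicate x.1 true ++ (false :: ρ))) ∧ ¬ En ρ.length x.1 x.1 Z) ∧
        x.2 = false) :=
    SI.or (SI.and (s2.comp Primrec.fst) (SI.of_prim (pp_eq (by fun_prop) (by fun_prop))))
      (SI.and (s1.comp (f := fun x : ℕ × Bool => x.1) Primrec.fst)
        (SI.of_prim (pp_eq (by fun_prop) (by fun_prop))))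
  refine s3.of_eq ?_
  rintro ⟨n, b⟩
  simp only [← h0]
  cases b <;> simp

/-- the limit of a sequence of strings -/
theorem exists_lim {α : ℕ → List Bool} (h : ∀ i, α i <+: α (i + 1)) (hl : ∀ i, i ≤ (α i).length) :
    ∃ X : ℕ → Bool, ∀ i, pre X (α i).length = α i := by
  have hm : ∀ {i j}, i ≤ j → α i <+: α j := by
    intro i j hij
    induction hij with
    | refl => exact List.prefix_refl _
    | step _ ih => exact ih.trans (h _)
  refine ⟨fun n => (α (n + 1)).getD n false, fun i => ?_⟩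
  refine List.ext_getElem (by simp) fun n h1 h2 => ?_
  rw [getElem_pre]
  have h3 : n < (α (n + 1)).length := lt_of_lt_of_le (Nat.lt_succ_self n) (hl (n + 1))
  show (α (n + 1)).getD n false = _
  rw [List.getD_eq_getElem _ _ h3]
  rcases le_total i (n + 1) with hi | hi
  · obtain ⟨ρ, hρ⟩ := hm hi
    simp only [← hρ]
    rw [List.getElem_append_left]
  · obtain ⟨ρ, hρ⟩ := hm hi
    simp only [← hρ]
    rw [List.getElem_append_left]

/-- An oracle above `B` (with the help of `Z`) which meets given dense sets c.e. in `B`. -/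
theorem exists_gen {D : ℕ → List Bool → Prop} (hZB : TLe Z B) (hK : ¬ TLe (jump Z) B)
    (hD : ∀ i, SI B (D i)) (up : ∀ i σ τ, σ <+: τ → D i σ → D i τ) {σ : List Bool}
    (dn : ∀ i τ, σ <+: τ → ∃ τ', τ <+: τ' ∧ D i τ') :
    ∃ X : ℕ → Bool, pre X σ.length = σ ∧ TLe B (join Z X) ∧ ∀ i, ∃ s, D i (pre X s) := by
  classical
  have hs : ∀ (i : ℕ) (α : List Bool), ∃ y : ℕ × List Bool, σ <+: α →
      D i (α ++ (List.replicate y.1 true ++ (false :: y.2))) ∧
      En y.2.length y.1 y.1 Z ∧ ∀ t' < y.2.length, ¬ En t' y.1 y.1 Z := by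
    intro i α
    by_cases hα : σ <+: α
    · obtain ⟨n, ρ, h⟩ := step hZB hK (hD i) (up i) (α := α)
        (fun τ hτ => dn i τ (hα.trans hτ))
      exact ⟨(n, ρ), fun _ => h⟩
    · exact ⟨(0, []), fun h => absurd h hα⟩
  choose f hf using hs
  let α : ℕ → List Bool := fun i => Nat.rec σ (fun i a =>
    (a ++ (List.replicate (f i a).1 true ++ (false :: (f i a).2))) ++ [B i]) i
  have hα : ∀ i, α (i + 1) =
      (α i ++ (List.replicate (f i (α i)).1 true ++ (false :: (f i (α i)).2))) ++ [B i] :=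
    fun i => rfl
  have hp : ∀ i, α i <+: α (i + 1) := by
    intro i
    rw [hα, List.append_assoc]
    exact List.prefix_append _ _
  have h0 : ∀ i, σ <+: α i := by
    intro i
    induction i with
    | zero => exact List.prefix_refl _
    | succ i ih => exact ih.trans (hp i)
  have hlen : ∀ i, (α (i + 1)).length =
      (α i).length + (f i (α i)).1 + (f i (α i)).2.length + 2 := by
    intro i
    rw [hα]
    simp only [List.length_append, List.length_replicate, List.length_cons, List.length_nil]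
    omega
  have hl : ∀ i, i ≤ (α i).length := by
    intro i
    induction i with
    | zero => exact Nat.zero_le _
    | succ i ih => rw [hlen]; omega
  obtain ⟨X, hX⟩ := exists_lim hp hl
  have hXg : ∀ i k, k < (α i).length → X k = (α i).getD k false := by
    intro i k hk
    rw [← pre_getD X (α i).length k false hk, hX]
  have hg : ∀ i m, (α (i + 1)).getD ((α i).length + m) false =
      ((List.replicate (f i (α i)).1 true ++ (false :: (f i (α i)).2)) ++ [B i]).getD m false := by
    intro i m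
    rw [hα, List.append_assoc, List.getD_append_right _ _ _ _ (by omega)]
    congr 1
    omega
  refine ⟨X, ?_, decode_le (pos := fun i => (α i).length) (fun i => ?_) (fun i => ?_),
    fun i => ?_⟩
  · have := hX 0
    exact this
  · refine ⟨(f i (α i)).1, (f i (α i)).2.length, hlen i, fun m hm => ?_, ?_, ?_⟩
    · rw [hXg (i + 1) _ (by rw [hlen]; omega), hg, List.append_assoc,
        List.getD_append _ _ _ _ (by simpa using hm), List.getD_eq_getElem _ _ (by simpa using hm)]
      simp
    · rw [hXg (i + 1) _ (by rw [hlen]; omega), hg, List.append_assoc,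
        List.getD_append_right _ _ _ _ (by simp)]
      simp
    · exact (hf i (α i) (h0 i)).2
  · rw [hXg (i + 1) _ (by rw [hlen]; omega), hlen]
    rw [show (α i).length + (f i (α i)).1 + (f i (α i)).2.length + 2 - 1 =
      (α i).length + ((f i (α i)).1 + (f i (α i)).2.length + 1) by omega, hg,
      List.getD_append_right _ _ _ _ (by simp; omega)]
    simp [Nat.add_assoc]
  · refine ⟨(α (i + 1)).length, ?_⟩
    have h9 := hX (i + 1)
    rw [h9]
    refine up i _ _ ?_ (hf i (α i) (h0 i)).1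
    rw [hα]
    exact List.prefix_append _ _

end Pool.Agent.H649.PT
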