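import Pool.Agent.H649.PT.Def

set_option autoImplicit false

/-!
Preservation of computations.
-/

namespace Pool.Agent.H649.PT

open Encodable Pool.Agent.Helper227 Pool.Agent.H548R2.Post
open Nat.Partrec (Code)
open Pool.Agent.TH769.CD (bdd_lt)

section

variable {X : ℕ → Bool} {a : ℕ → List ℕ}

open Classical in
/-- the limit -/
noncomputable def lm (X : ℕ → Bool) (a : ℕ → List ℕ) : ℕ → Bool :=
  fun m => if m % 2 = 0 then X (m / 2) else decide (∃ s, m / 2 ∈ a s)

theorem a_le (hm : ∀ s z, z ∈ a s → z ∈ a (s + 1)) {s t : ℕ} (h : s ≤ t) {z : ℕ} (hz : z ∈ a s) :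
    z ∈ a t := by
  induction t, h using Nat.le_induction with
  | base => exact hz
  | succ t _ ih => exact hm _ _ ih

theorem lm_stable (hm : ∀ s z, z ∈ a s → z ∈ a (s + 1)) (b : ℕ) :
    ∃ s0, ∀ s ≥ s0, ∀ i < b, jn X (a s) i = lm X a i := by
  obtain ⟨s0, hs0⟩ := bdd_lt b (fun i s => jn X (a s) i = lm X a i) (fun i _ => by
    unfold jn lm
    by_cases hb : i % 2 = 0
    · exact ⟨0, fun s _ => by simp only [hb, if_true]⟩
    · by_cases hex : ∃ s, i / 2 ∈ a s
      · obtain ⟨s1, h1⟩ := hex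
        refine ⟨s1, fun s hs => ?_⟩
        have h2 : ∃ s, i / 2 ∈ a s := ⟨s1, h1⟩
        simp only [if_neg hb, a_le hm hs h1, h2, decide_true]
      · refine ⟨0, fun s _ => ?_⟩
        have h2 : ¬ i / 2 ∈ a s := fun h => hex ⟨s, h⟩
        simp only [if_neg hb, h2, hex, decide_false])
  exact ⟨s0, fun s hs i hi => hs0 i hi s hs⟩

/-- one step of preservation -/
theorem res_step' {s e : ℕ} (hm : ∀ z, z ∈ a s → z ∈ a (s + 1))
    (h0 : ∀ z ∈ a (s + 1), z ∈ a s ∨ res s e (jn X (a s)) ≤ z)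
    (h : En s e e (jn X (a s))) :
    En (s + 1) e e (jn X (a (s + 1))) ∧
      res (s + 1) e (jn X (a (s + 1))) ≤ res s e (jn X (a s)) := by
  have h1 := En_iff_res.1 h
  have hr := res_le s e (jn X (a s))
  have hpre : pre (jn X (a (s + 1))) (res s e (jn X (a s))) =
      pre (jn X (a s)) (res s e (jn X (a s))) := by
    unfold pre
    apply List.map_congr_left
    intro i hi
    rw [List.mem_range] at hi
    unfold jn
    by_cases h2 : i % 2 = 0
    · rw [if_pos h2, if_pos h2]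
    · rw [if_neg h2, if_neg h2]
      apply decide_eq_decide.2
      constructor
      · intro hz
        rcases h0 _ hz with hz | hz
        · exact hz
        · omega
      · exact hm _
  have h3 : hlt (s + 1) e e (pre (jn X (a (s + 1))) (res s e (jn X (a s)))) = true := by
    rw [hpre]
    exact hlt_mono (Nat.le_succ s) h1
  exact ⟨⟨_, by omega, h3⟩, res_le_of_hlt (by omega) h3⟩

theorem res_ind (hm : ∀ s z, z ∈ a s → z ∈ a (s + 1)) {e s0 : ℕ}
    (h0 : ∀ s ≥ s0, ∀ z ∈ a (s + 1), z ∈ a s ∨ res s e (jn X (a s)) ≤ z) {s1 : ℕ} (hs : s0 ≤ s1)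
    (h : En s1 e e (jn X (a s1))) {s : ℕ} (h1 : s1 ≤ s) :
    En s e e (jn X (a s)) ∧ res s e (jn X (a s)) ≤ res s1 e (jn X (a s1)) := by
  induction s, h1 using Nat.le_induction with
  | base => exact ⟨h, le_rfl⟩
  | succ s h1 ih =>
    have := res_step' (X := X) (fun z => hm s z) (h0 s (hs.trans h1)) ih.1
    exact ⟨this.1, this.2.trans ih.2⟩

/-- the restraint is bounded -/
theorem res_bdd (hm : ∀ s z, z ∈ a s → z ∈ a (s + 1)) {e s0 : ℕ}
    (h0 : ∀ s ≥ s0, ∀ z ∈ a (s + 1), z ∈ a s ∨ res s e (jn X (a s)) ≤ z) :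
    ∃ b, ∀ s, res s e (jn X (a s)) ≤ b := by
  by_cases hC : ∃ s1, s0 ≤ s1 ∧ En s1 e e (jn X (a s1))
  · obtain ⟨s1, hs1, hE⟩ := hC
    refine ⟨s1, fun s => ?_⟩
    rcases le_total s1 s with h | h
    · exact (res_ind hm h0 hs1 hE h).2.trans (res_le _ _ _)
    · exact (res_le _ _ _).trans h
  · refine ⟨s0, fun s => ?_⟩
    rcases le_total s0 s with h | h
    · rw [t15_res_zero (fun hE => hC ⟨s, h, hE⟩)]
      exact Nat.zero_le _
    · exact (res_le _ _ _).trans h

theorem jump_true' (hm : ∀ s z, z ∈ a s → z ∈ a (s + 1)) (e : ℕ)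
    (h : jump (lm X a) e = true) : ∃ s0, ∀ s ≥ s0, En s e e (jn X (a s)) := by
  rw [jump_eq_true] at h
  obtain ⟨k, hk⟩ := h
  obtain ⟨s1, hs1⟩ := (exists_hlt_iff e e _).2 hk
  obtain ⟨s2, hs2⟩ := lm_stable (X := X) hm k
  refine ⟨max (max s1 s2) k, fun s hs => ⟨k, (le_max_right _ _).trans hs, ?_⟩⟩
  have h1 : s1 ≤ s := ((le_max_left s1 s2).trans (le_max_left _ _)).trans hs
  have h2 : s2 ≤ s := ((le_max_right s1 s2).trans (le_max_left _ _)).trans hs
  have h3 : pre (jn X (a s)) k = (List.range k).map (lm X a) := by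
    unfold pre
    refine List.map_congr_left fun i hi => ?_
    exact hs2 s h2 i (List.mem_range.1 hi)
  rw [h3]
  exact hlt_mono h1 hs1

theorem jump_false' (hm : ∀ s z, z ∈ a s → z ∈ a (s + 1)) {e s0 : ℕ}
    (h0 : ∀ s ≥ s0, ∀ z ∈ a (s + 1), z ∈ a s ∨ res s e (jn X (a s)) ≤ z)
    (h : jump (lm X a) e = false) : ∃ s0, ∀ s ≥ s0, ¬ En s e e (jn X (a s)) := by
  refine ⟨s0, ?_⟩
  intro s1 hs1 hEn
  obtain ⟨s2, hs2⟩ := lm_stable (X := X) hm (res s1 e (jn X (a s1)))
  obtain ⟨h1, h2⟩ := res_ind hm h0 hs1 hEn (le_max_left s1 s2)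
  have h3 := En_iff_res.mp h1
  have h4 : pre (jn X (a (max s1 s2))) (res (max s1 s2) e (jn X (a (max s1 s2)))) =
      pre (lm X a) (res (max s1 s2) e (jn X (a (max s1 s2)))) := by
    unfold pre
    apply List.map_congr_left
    intro i hi
    rw [List.mem_range] at hi
    exact hs2 _ (le_max_right _ _) i (lt_of_lt_of_le hi h2)
  rw [h4] at h3
  have h5 : jump (lm X a) e = true :=
    jump_eq_true.mpr ⟨_, (exists_hlt_iff e e _).mp ⟨_, h3⟩⟩
  rw [h] at h5
  exact Bool.false_ne_true h5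

end

end Pool.Agent.H649.PT
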