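import Pool.Agent.H649.PT.Tru

set_option autoImplicit false

/-!
Normal forms, and the theorem on patching.
-/

namespace Pool.Agent.H649.PT

open Encodable Pool.Agent.Helper227 Pool.Agent.H548R2.Post
open Nat.Partrec (Code)
open Pool.Agent.TH769.ZA (si_gen pf_sub)
open Pool.Agent.TH769.CD (bdd_lt pf_add pf_mul pf_div pf_mod pf_pow pf_getD pf_take
  pf_append pf_cons pf_length pf_range pf_natPair pf_unpair pf_encode pf_testBit pf_xorb pf_andb
  pf_hlt pf_xor pp_exlt pp_alllt pp_imp pp_eq pp_le pp_lt pp_mem pf_decide pf_pre pp_En pf_ext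
  ext_pre_eq)

attribute [local fun_prop] Primrec
attribute [local fun_prop] Primrec.id Primrec.const Primrec.comp Primrec.pair Primrec.fst Primrec.snd
attribute [local fun_prop] pf_add pf_mul pf_div pf_mod pf_pow pf_getD pf_take pf_append pf_cons
  pf_length pf_range pf_natPair pf_unpair pf_encode pf_testBit pf_xorb pf_andb pf_hlt pf_xor
  pf_sub

/-- a monotone primitive recursive normal form -/
theorem norm {P : ℕ × ℕ × List Bool → Prop} (hP : S1 P) :
    ∃ θ : ℕ → ℕ → List Bool → Bool, Pr θ ∧ Mo θ ∧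
      ∀ k n X, (∃ s, θ k n (pre X s) = true) ↔ ∃ m, P (k, n, pre X m) := by
  classical
  obtain ⟨q, hq, hm, he⟩ := hP
  have hq' : PrimrecPred fun x : ℕ × ℕ × List Bool =>
      ∃ m < x.2.2.length + 1, q (x.1, x.2.1, x.2.2.take m) x.2.2.length := by
    refine pp_exlt (by fun_prop) ?_
    exact hq.comp (f := fun x : (ℕ × ℕ × List Bool) × ℕ => (x.1.1, x.1.2.1, x.1.2.2.take x.2))
      (g := fun x : (ℕ × ℕ × List Bool) × ℕ => x.1.2.2.length) (by fun_prop) (by fun_prop)
  refine ⟨fun k n σ => decide (∃ m < σ.length + 1, q (k, n, σ.take m) σ.length), ?_, ?_, ?_⟩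
  · exact pf_decide hq' _
  · intro k n σ τ h h1
    rw [decide_eq_true_iff] at h1 ⊢
    obtain ⟨m, h2, h3⟩ := h1
    have h4 := h.length_le
    refine ⟨m, by omega, ?_⟩
    obtain ⟨ρ, rfl⟩ := h
    rw [List.take_append_of_le_length (by omega)]
    exact hm _ _ _ h4 h3
  · intro k n X
    constructor
    · rintro ⟨s, hs⟩
      rw [decide_eq_true_iff] at hs
      obtain ⟨m, h2, h3⟩ := hs
      rw [length_pre] at h2 h3
      rw [take_pre _ _ _ (by omega)] at h3
      exact ⟨m, (he _).2 ⟨_, h3⟩⟩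
    · rintro ⟨m, h1⟩
      obtain ⟨t, ht⟩ := (he _).1 h1
      refine ⟨max m t, ?_⟩
      rw [decide_eq_true_iff]
      refine ⟨m, ?_, ?_⟩
      · rw [length_pre]; omega
      · rw [length_pre, take_pre _ _ _ (le_max_left _ _)]
        exact hm _ _ _ (le_max_right _ _) ht

/-- The theorem on patching. -/
theorem core {θ u : ℕ → ℕ → List Bool → Bool} (hθ : Pr θ) (hu : Pr u) (mθ : Mo θ) (mu : Mo u) :
    ∃ e : ℕ, ∀ X : ℕ → Bool, TLe X (chr (WE X e)) ∧ TLe (chr (WE X e)) (jump X) ∧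
      (∀ N, T θ N X → (∀ k < N, ¬ T θ k X) →
        TLe (chr (WE X e)) (join X (chr (U u N X))) ∧
        TLe (join X (chr (U u N X))) (chr (WE X e))) ∧
      ((∀ k, ¬ T θ k X) → ¬ TLe (chr (WE X e)) X ∧ TLe (jump (chr (WE X e))) (jump X)) := by
  obtain ⟨e, he⟩ := exists_index' hθ hu
  refine ⟨e, fun X => ?_⟩
  rw [he X, chr_WA]
  refine ⟨le_WA, ?_, fun N hN hlt => first_true hθ hu mθ mu hN hlt,
    fun hT => ⟨not_WA_le mθ hT, WA_low hθ hu mθ hT⟩⟩
  have h1 : SI X fun m => WA θ u X m = true := by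
    have h2 := (si_WE X).comp (f := fun m : ℕ => (e, m)) (by fun_prop)
    refine h2.of_eq fun m => ?_
    show m ∈ WE X e ↔ _
    rw [he X]
    rfl
  exact tLe_of_two h1.decide_jump.1 h1.decide_jump.2

end Pool.Agent.H649.PT
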