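import Pool.Agent.H649.PT.Rnd

set_option autoImplicit false

/-!
Random oracles do not compute given sets, with the help of a low set.
-/

namespace Pool.Agent.H649.PT

open Encodable MeasureTheory Pool.Agent.Helper227 Pool.Agent.H548R2.Post
open Nat.Partrec (Code)
open scoped ENNReal
open Pool.Agent.TH769.TP (Via fv Fn FF mon_FF Lim Mon AG Unb lim_FF via_iff)
open Pool.Agent.TH769.ZA (si_gen pf_sub)
open Pool.Agent.TH769.CD (bdd_lt pf_add pf_mul pf_div pf_mod pf_pow pf_getD pf_take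
  pf_append pf_cons pf_length pf_range pf_natPair pf_unpair pf_encode pf_testBit pf_xorb pf_andb
  pf_hlt pf_xor pp_exlt pp_alllt pp_imp pp_eq pp_le pp_lt pp_mem pf_decide pf_pre pp_En pf_ext
  ext_pre_eq)

attribute [local fun_prop] Primrec
attribute [local fun_prop] Primrec.id Primrec.const Primrec.comp Primrec.pair Primrec.fst Primrec.snd
attribute [local fun_prop] pf_add pf_mul pf_div pf_mod pf_pow pf_getD pf_take pf_append pf_cons
  pf_length pf_range pf_natPair pf_unpair pf_encode pf_testBit pf_xorb pf_andb pf_hlt pf_xor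
  pf_sub

theorem js_mono {α : List Bool} (B : ℕ → Bool) {s s' : ℕ} (h : s ≤ s') :
    js α (pre B s) <+: js α (pre B s') := by
  obtain ⟨A', hA'⟩ : ∃ A' : ℕ → Bool, α = pre A' α.length := by
    refine ⟨fun n => α.getD n false, List.ext_getElem (by simp) fun n h1 h2 => ?_⟩
    rw [getElem_pre, List.getD_eq_getElem _ _ h1]
  rw [hA', js_pre, js_pre]
  exact pre_prefix _ (by omega)

/-- the measure of the set of the oracles for which the program finds a string -/
theorem si_KK (i : Code) (B : ℕ → Bool) : SI B fun x : ℕ × List Bool =>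
    (1 / 2 : ℝ≥0∞) ^ x.1 < lam (KK i x.2 B) := by
  have hP : S1 fun x : ((ℕ × List Bool) × List Bool) × List Bool =>
      x.1.1.2 <+: FF i (js x.2 x.1.2) := by
    refine S1.of_prim (pp_prefix (by fun_prop) ?_)
    exact (Pool.Agent.TH769.TP.pf_FF i).comp (pf_js (by fun_prop) (by fun_prop))
  have h1 := si_meas (B := B) (P := fun (x : ℕ × List Bool) β α => x.2 <+: FF i (js α β)) hP
    (fun d α b b' hb h => h.trans ((mon_FF (i := i)).mono _ _ (js_mono B hb)))
    (m := fun x => x.1) (by fun_prop)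
  refine h1.of_eq fun x => ?_
  have : {A | ∃ b t, (fun (x : ℕ × List Bool) β α => x.2 <+: FF i (js α β)) x (pre B b) (pre A t)}
      = KK i x.2 B := by
    ext A
    exact mem_KK.symm
  rw [this]

/-- If `B` is low and does not compute the set `D`, which is computable in the halting problem,
then `A ⊕ B` does not compute `D` for the `A` which are random relative to the halting problem. -/
theorem mlr_avoid {A B D : ℕ → Bool} (hB : TLe (jump B) (jump O)) (hD : TLe D (jump O))
    (hDB : ¬ TLe D B) (hA : MLR (jump O) A) : ¬ TLe D (join A B) := by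
  intro hc
  obtain ⟨i, hi⟩ := (via_iff _ _).1 hc
  have hL := lim_FF hi
  have hin : ∀ n, A ∈ KK i (pre D n) B := by
    intro n
    obtain ⟨M, hM⟩ := hL.long n
    refine ⟨M, ?_⟩
    obtain ⟨n', hn'⟩ := hL.ok M
    have h1 := hM _ le_rfl
    rw [hn', length_pre] at h1
    rw [hn']
    exact pre_prefix D h1
  have hanti : Antitone fun n => KK i (pre D n) B := fun m n hmn => KK_anti (pre_prefix D hmn) B
  have hlim : Filter.Tendsto (fun n => lam (KK i (pre D n) B)) Filter.atTop (nhds 0) := by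
    have h1 := tendsto_measure_iInter_atTop (μ := lam) (s := fun n => KK i (pre D n) B)
      (fun n => (KK_meas i (pre D n) B).nullMeasurableSet) hanti ⟨0, measure_ne_top _ _⟩
    rwa [majority hDB] at h1
  have hex : ∀ m : ℕ, ∃ n, lam (KK i (pre D n) B) ≤ (1 / 2 : ℝ≥0∞) ^ m := by
    intro m
    have h1 : (0 : ℝ≥0∞) < (1 / 2) ^ m := by
      refine ENNReal.pow_pos (by norm_num) m
    obtain ⟨n, hn⟩ := (hlim.eventually (gt_mem_nhds h1)).exists
    exact ⟨n, hn.le⟩
  -- the test
  have s1 : SI (jump O) fun x : (ℕ × List Bool) × (List Bool × ℕ) =>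
      (∀ j < x.2.1.length, D j = x.2.1.getD j false) := by
    refine SI.all_lt (α := (ℕ × List Bool) × (List Bool × ℕ))
      (p := fun x j => D j = x.2.1.getD j false)
      (f := fun x => x.2.1.length) ?_ (by fun_prop)
    exact (tLe_iff_SI.1 hD).comp (f := fun z : ((ℕ × List Bool) × (List Bool × ℕ)) × ℕ =>
      (z.2, z.1.2.1.getD z.2 false)) (by fun_prop)
  have s2 : SI (jump O) fun x : ℕ × List Bool =>
      ¬ (1 / 2 : ℝ≥0∞) ^ x.1 < lam (KK i x.2 B) :=
    (si_KK i B).decide_jump.2.trans hB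
  have s3 : SI (jump O) fun x : (ℕ × List Bool) × (List Bool × ℕ) =>
      x.2.1 <+: FF i (js x.1.2 (pre B x.2.2)) := by
    have h1 : SI B fun x : ((ℕ × List Bool) × List Bool) × ℕ =>
        x.1.2 <+: FF i (js x.1.1.2 (pre B x.2)) := by
      refine si_gen (X := B) (P := fun x : ((ℕ × List Bool) × List Bool) × List Bool =>
        x.1.2 <+: FF i (js x.1.1.2 x.2)) (S1.of_prim (pp_prefix (by fun_prop) ?_))
      exact (Pool.Agent.TH769.TP.pf_FF i).comp (pf_js (by fun_prop) (by fun_prop))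
    exact ((h1.comp (f := fun x : (ℕ × List Bool) × (List Bool × ℕ) =>
      ((x.1, x.2.1), x.2.2)) (by fun_prop)).decide_jump.1).trans hB
  have s4 : SI (jump O) fun x : ℕ × List Bool => ∃ y : List Bool × ℕ,
      (∀ j < y.1.length, D j = y.1.getD j false) ∧
      (¬ (1 / 2 : ℝ≥0∞) ^ x.1 < lam (KK i y.1 B)) ∧ y.1 <+: FF i (js x.2 (pre B y.2)) :=
    SI.ex (SI.and s1 (SI.and (s2.comp (f := fun x : (ℕ × List Bool) × (List Bool × ℕ) =>
      (x.1.1, x.2.1)) (by fun_prop)) s3))
  obtain ⟨E, hE, mE, eE⟩ := s4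
  have hUE : ∀ m X, X ∈ UE E (jump O) m ↔
      ∃ n, lam (KK i (pre D n) B) ≤ (1 / 2 : ℝ≥0∞) ^ m ∧ X ∈ KK i (pre D n) B := by
    intro m X
    have h1 : X ∈ UE E (jump O) m ↔ ∃ t s, E (pre (jump O) s, m, pre X t) := by
      constructor
      · rintro ⟨s, t, h⟩
        exact ⟨t, s, h⟩
      · rintro ⟨t, s, h⟩
        exact ⟨s, t, h⟩
    rw [h1]
    have h2 : ∀ t, (∃ s, E (pre (jump O) s, m, pre X t)) ↔ ∃ y : List Bool × ℕ,
      (∀ j < y.1.length, D j = y.1.getD j false) ∧
      (¬ (1 / 2 : ℝ≥0∞) ^ m < lam (KK i y.1 B)) ∧ y.1 <+: FF i (js (pre X t) (pre B y.2)) :=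
      fun t => (eE (m, pre X t)).symm
    simp only [h2]
    constructor
    · rintro ⟨t, ⟨ρ, b⟩, h3, h4, h5⟩
      simp only at h3 h4 h5
      have h6 : ρ = pre D ρ.length := by
        refine List.ext_getElem (by simp) fun j hj1 hj2 => ?_
        rw [getElem_pre, h3 j hj1, List.getD_eq_getElem _ _ hj1]
      refine ⟨ρ.length, ?_, ?_⟩
      · rw [← h6]
        exact not_lt.1 h4
      · rw [← h6, mem_KK]
        exact ⟨b, t, h5⟩
    · rintro ⟨n, h3, h4⟩
      obtain ⟨b, t, h5⟩ := mem_KK.1 h4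
      refine ⟨t, ⟨pre D n, b⟩, ?_, not_lt.2 h3, h5⟩
      intro j hj
      simp only [length_pre] at hj
      exact (pre_getD D _ _ _ hj).symm
  have hm : ∀ m, lam (UE E (jump O) m) ≤ (1 / 2) ^ m := by
    classical
    intro m
    obtain ⟨n0, hn0⟩ : ∃ n0, lam (KK i (pre D n0) B) ≤ (1 / 2 : ℝ≥0∞) ^ m ∧
        ∀ k < n0, ¬ lam (KK i (pre D k) B) ≤ (1 / 2 : ℝ≥0∞) ^ m :=
      ⟨Nat.find (hex m), Nat.find_spec (hex m), fun k hk => Nat.find_min (hex m) hk⟩
    refine (measure_mono fun X hX => ?_).trans hn0.1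
    obtain ⟨n, h1, h2⟩ := (hUE m X).1 hX
    have h3 : n0 ≤ n := by
      by_contra hc
      exact hn0.2 n (not_le.1 hc) h1
    exact hanti h3 h2
  refine hA _ (isMLTest_of_E hE hm) (Set.mem_iInter.2 fun m => ?_)
  obtain ⟨n, hn⟩ := hex m
  exact (hUE m A).2 ⟨n, hn, hin n⟩

end Pool.Agent.H649.PT
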