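import Pool.Agent.H649.PT.Prm

set_option autoImplicit false

/-!
The case of a first true condition.
-/

namespace Pool.Agent.H649.PT

open Encodable Pool.Agent.Helper227 Pool.Agent.H548R2.Post
open Nat.Partrec (Code)
open Pool.Agent.TH769.ZA (si_gen pf_sub)
open Pool.Agent.TH769.CD (bdd_lt pf_add pf_mul pf_div pf_mod pf_pow pf_getD pf_take
  pf_append pf_cons pf_length pf_range pf_natPair pf_unpair pf_encode pf_testBit pf_xorb pf_andb
  pf_hlt pf_xor pp_exlt pp_alllt pp_imp pp_eq pp_le pp_lt pp_mem pf_decide pf_pre pp_En pf_ext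
  ext_pre_eq)

attribute [local fun_prop] Primrec
attribute [local fun_prop] Primrec.id Primrec.const Primrec.comp Primrec.pair Primrec.fst Primrec.snd
attribute [local fun_prop] pf_add pf_mul pf_div pf_mod pf_pow pf_getD pf_take pf_append pf_cons
  pf_length pf_range pf_natPair pf_unpair pf_encode pf_testBit pf_xorb pf_andb pf_hlt pf_xor
  pf_sub

variable {θ u : ℕ → ℕ → List Bool → Bool} {X : ℕ → Bool} {N : ℕ}

/-- the restraints in front of `N` allow the row `r` at stage `s` -/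
def Al (θ u : ℕ → ℕ → List Bool → Bool) (X : ℕ → Bool) (N r s : ℕ) : Prop :=
  (∀ k < N, el θ k (pre X s) = el θ k (pre X r)) ∧ ∀ k < N, res s k (jn X (AA θ u X s)) ≤ r

theorem nn_odd {z : ℕ} (h : z % 2 = 1) : nn z = kd z := by
  unfold nn
  rw [decide_eq_false (by omega), cond_false]

theorem nn_even {z : ℕ} (h : z % 2 = 0) : nn z = kd z + 1 := by
  unfold nn
  rw [decide_eq_true h, cond_true]

theorem th_odd {z : ℕ} (h : z % 2 = 1) : th z = rr z := by
  unfold th
  rw [decide_eq_false (by omega), cond_false]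

/-- the code of `y` in the row `r` for the requirement `k` -/
def cz (k r y : ℕ) : ℕ := 2 * Nat.pair k (Nat.pair r y) + 1

theorem cz_odd (k r y : ℕ) : cz k r y % 2 = 1 := by unfold cz; omega

theorem cz_div (k r y : ℕ) : cz k r y / 2 = Nat.pair k (Nat.pair r y) := by unfold cz; omega

theorem kd_cz (k r y : ℕ) : kd (cz k r y) = k := by
  unfold kd; rw [cz_div, Nat.unpair_pair]

theorem rr_cz (k r y : ℕ) : rr (cz k r y) = r := by
  unfold rr; rw [cz_div, Nat.unpair_pair, Nat.unpair_pair]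

theorem yy_cz (k r y : ℕ) : yy (cz k r y) = y := by
  unfold yy; rw [cz_div, Nat.unpair_pair, Nat.unpair_pair]

/-- what is coded is true -/
theorem coded {z : ℕ} (hz : z % 2 = 1) (h : ∃ s, z ∈ AA θ u X s) : yy z ∈ U u (kd z) X := by
  obtain ⟨s, _, _, h1 | h1⟩ := mem_ex h
  · omega
  · exact ⟨s, h1.2.2.2⟩

/-- a row which is allowed infinitely often is complete -/
theorem row_full (hθ : Mo θ) (hu : Mo u) (hN : T θ N X) {z : ℕ} (hz : z % 2 = 1) (hk : kd z = N)
    (hP : ∀ t, ∃ s ≥ t, Al θ u X N (rr z) s) (hy : yy z ∈ U u N X) : ∃ s, z ∈ AA θ u X s := by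
  obtain ⟨s1, h1⟩ := hy
  obtain ⟨s2, h2⟩ := (T_iff hθ).1 hN (max (rr z) (yy z))
  obtain ⟨s, hs, h3, h4⟩ := hP (max (max s1 s2) (z + 1))
  refine ⟨s + 1, mem_AA_succ.2 (Or.inr ⟨by omega, ⟨?_, ?_⟩, Or.inr ⟨hz, ?_, ?_, ?_⟩⟩)⟩
  · rw [nn_odd hz, hk, th_odd hz]
    exact h3
  · rw [nn_odd hz, hk, th_odd hz]
    exact h4
  · rw [hk]
    have := el_mono' (k := N) (X := X) hθ (show s2 ≤ s by omega)
    omega
  · rw [hk]
    have := el_mono' (k := N) (X := X) hθ (show s2 ≤ s by omega)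
    omega
  · rw [hk]
    exact hu _ _ _ _ (pre_prefix X (show s1 ≤ s by omega)) h1

/-- a row which is allowed finitely often is finite -/
theorem row_fin {r : ℕ} (hP : ¬ ∀ t, ∃ s ≥ t, Al θ u X N r s) :
    ∃ t, ∀ z, z % 2 = 1 → kd z = N → rr z = r → (∃ s, z ∈ AA θ u X s) → z ∈ AA θ u X t := by
  push Not at hP
  obtain ⟨t, ht⟩ := hP
  refine ⟨t, fun z hz hk hr h => ?_⟩
  obtain ⟨s, h1, h2⟩ := mem_ex h
  have h3 := h2.1
  unfold Cn at h3
  rw [nn_odd hz, hk, th_odd hz, hr] at h3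
  have h4 : s < t := by
    by_contra hc
    exact ht s (not_lt.1 hc) h3
  exact a_le AA_mono (show s + 1 ≤ t from h4) (mem_AA_succ.2 (Or.inr ⟨h1, h2⟩))

/-- elements of lower priority are decided at the next expansion -/
theorem lower (hθ : Mo θ) {z t : ℕ} (hz : N < nn z)
    (ht : el θ N (pre X (th z)) < el θ N (pre X t)) :
    (∃ s, z ∈ AA θ u X s) ↔ z ∈ AA θ u X t := by
  refine ⟨fun h => ?_, fun h => ⟨t, h⟩⟩
  obtain ⟨s, h1, h2⟩ := mem_ex h
  have h3 := h2.1.1 N hz
  have h4 : s < t := by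
    by_contra hc
    have := el_mono' (k := N) (X := X) hθ (not_lt.1 hc)
    omega
  exact a_le AA_mono (show s + 1 ≤ t from h4) (mem_AA_succ.2 (Or.inr ⟨h1, h2⟩))

theorem higher {s0 : ℕ}
    (h0 : ∀ s ≥ s0, ∀ z ∈ AA θ u X (s + 1), kd z < N → z ∈ AA θ u X s) {z : ℕ} (hz : kd z < N) :
    (∃ s, z ∈ AA θ u X s) ↔ z ∈ AA θ u X s0 := by
  refine ⟨?_, fun h => ⟨s0, h⟩⟩
  rintro ⟨s, hs⟩
  rcases le_total s s0 with h | h
  · exact a_le AA_mono h hs
  · induction s, h using Nat.le_induction with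
    | base => exact hs
    | succ s h ih => exact ih (h0 s h z hs hz)

/-- a bound from which on the rows for the first true condition are allowed -/
theorem exists_row (hθ : Mo θ) (hlt : ∀ k < N, ¬ T θ k X) :
    ∃ b, ∀ r ≥ b, ∀ t, ∃ s ≥ t, Al θ u X N r s := by
  obtain ⟨b, hb1, hb2⟩ := exists_bound (u := u) hθ hlt (fun k hk => by
    obtain ⟨s0, hs0⟩ := inj_stop (u := u) (e := k) hθ hlt
      (fun z hz => lt_of_lt_of_le hk (hz.trans (kd_le_nn z)))
    exact res_bdd AA_mono hs0)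
  refine ⟨b, fun r hr t => ⟨max r t, le_max_right _ _, fun k hk => ?_, fun k hk => ?_⟩⟩
  · rw [hb1 k hk r hr, hb1 k hk _ (hr.trans (le_max_left _ _))]
  · exact (hb2 k hk _).trans hr

theorem tLe_of_two {A B : ℕ → Bool} (h1 : SI B fun m => A m = true)
    (h2 : SI B fun m => ¬ A m = true) : TLe A B := by
  rw [tLe_iff_SI]
  have h4 : SI B fun x : ℕ × Bool => (A x.1 = true ∧ x.2 = true) ∨
      (¬ A x.1 = true ∧ x.2 = false) := by
    refine SI.or (SI.and (h1.comp Primrec.fst) (SI.of_prim ?_))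
      (SI.and (h2.comp (f := fun x : ℕ × Bool => x.1) Primrec.fst) (SI.of_prim ?_))
    · exact Primrec.eq.comp Primrec.snd (Primrec.const true)
    · exact Primrec.eq.comp Primrec.snd (Primrec.const false)
  refine h4.of_eq fun x => ?_
  rcases x with ⟨n, b⟩
  cases b <;> simp

theorem le_join_left (X Y : ℕ → Bool) : TLe X (join X Y) := by
  have hf : Computable fun n : ℕ => 2 * n := Primrec.to_comp (by fun_prop)
  refine tLe_of_computable hf fun n => ?_
  unfold join
  rw [if_pos (by omega)]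
  congr 1
  omega

theorem le_join_right (X Y : ℕ → Bool) : TLe Y (join X Y) := by
  have hf : Computable fun n : ℕ => 2 * n + 1 := Primrec.to_comp (by fun_prop)
  refine tLe_of_computable hf fun n => ?_
  unfold join
  rw [if_neg (by omega)]
  congr 1
  omega

theorem si_ex_mem (hθ : Pr θ) (hu : Pr u) (X : ℕ → Bool) :
    SI X fun z : ℕ => ∃ s, z ∈ AA θ u X s := SI.ex (si_mem hθ hu X)

theorem si_pr {α : Type} [Primcodable α] {X : ℕ → Bool} {P : α × List Bool → Prop}
    (hP : PrimrecPred P) : SI X fun x : α × ℕ => P (x.1, pre X x.2) := si_gen (S1.of_prim hP)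

theorem si_exp (hθ : Pr θ) (X : ℕ → Bool) (N : ℕ) : SI X fun x : ℕ × ℕ =>
    th x.1 ≤ x.2 ∧ el θ N (pre X (th x.1)) < el θ N (pre X x.2) := by
  have h1 := pf_th (z := fun x : ℕ × List Bool => x.1) (by fun_prop)
  have hP : PrimrecPred fun x : ℕ × List Bool => th x.1 ≤ x.2.length ∧
      el θ N (x.2.take (th x.1)) < el θ N x.2 :=
    PrimrecPred.and (pp_le h1 (by fun_prop)) (pp_lt (pf_el hθ (Primrec.const N)
      (pf_take h1 (by fun_prop))) (pf_el hθ (Primrec.const N) (by fun_prop)))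
  refine (si_pr (X := X) hP).of_eq fun x => ?_
  rw [length_pre]
  refine and_congr_right fun h => ?_
  rw [take_pre _ _ _ h]

/-- The operator for the first true condition. -/
theorem first_true (hθ : Pr θ) (hu : Pr u) (mθ : Mo θ) (mu : Mo u) (hN : T θ N X)
    (hlt : ∀ k < N, ¬ T θ k X) :
    TLe (WA θ u X) (join X (chr (U u N X))) ∧ TLe (join X (chr (U u N X))) (WA θ u X) := by
  classical
  obtain ⟨b, hb⟩ := exists_row (u := u) mθ hlt
  constructor
  · obtain ⟨s0, hs0⟩ := fin_all (u := u) mθ hlt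
    obtain ⟨t1, ht1⟩ := bdd_lt b (fun r t => (¬ ∀ t, ∃ s ≥ t, Al θ u X N r s) →
      ∀ z, z % 2 = 1 → kd z = N → rr z = r → (∃ s, z ∈ AA θ u X s) → z ∈ AA θ u X t)
      (fun r _ => by
        by_cases hP : ∀ t, ∃ s ≥ t, Al θ u X N r s
        · exact ⟨0, fun _ _ h => absurd hP h⟩
        · obtain ⟨t, ht⟩ := row_fin hP
          exact ⟨t, fun t' ht' _ z hz hk hr h => a_le AA_mono ht' (ht z hz hk hr h)⟩)
    obtain ⟨L, hL⟩ : ∃ L : List ℕ, ∀ r, r ∈ L ↔ ¬ ∀ t, ∃ s ≥ t, Al θ u X N r s := by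
      refine ⟨(List.range b).filter (fun r => decide (¬ ∀ t, ∃ s ≥ t, Al θ u X N r s)), ?_⟩
      intro r
      rw [List.mem_filter, List.mem_range, decide_eq_true_iff]
      refine ⟨fun h => h.2, fun h => ⟨?_, h⟩⟩
      by_contra hc
      exact h (hb r (not_lt.1 hc))
    have hZ : TLe X (join X (chr (U u N X))) := le_join_left _ _
    have hZ2 : TLe (chr (U u N X)) (join X (chr (U u N X))) := le_join_right _ _
    generalize hZe : join X (chr (U u N X)) = Z at hZ hZ2
    have key : ∀ z, (¬ ∃ s, z ∈ AA θ u X s) ↔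
        ((kd z < N ∧ ¬ z ∈ AA θ u X s0) ∨
        ((z % 2 = 1 ∧ kd z = N ∧ ¬ rr z ∈ L) ∧ chr (U u N X) (yy z) = false) ∨
        ((z % 2 = 1 ∧ kd z = N ∧ rr z ∈ L) ∧ ¬ z ∈ AA θ u X t1) ∨
        (N < nn z ∧ ∃ t, (th z ≤ t ∧ el θ N (pre X (th z)) < el θ N (pre X t)) ∧
          ¬ z ∈ AA θ u X t)) := by
      intro z
      have c1 : chr (U u N X) (yy z) = false ↔ ¬ yy z ∈ U u N X := by
        simp [chr]
      constructor
      · intro h
        rcases Nat.lt_trichotomy (kd z) N with h1 | h1 | h1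
        · exact Or.inl ⟨h1, fun h2 => h ⟨_, h2⟩⟩
        · rcases Nat.mod_two_eq_zero_or_one z with h2 | h2
          · refine Or.inr (Or.inr (Or.inr ⟨by rw [nn_even h2]; omega, ?_⟩))
            obtain ⟨t, ht⟩ := (T_iff mθ).1 hN (el θ N (pre X (th z)))
            exact ⟨max (th z) t, ⟨le_max_left _ _,
              lt_of_lt_of_le ht (el_mono' mθ (le_max_right _ _))⟩, fun h3 => h ⟨_, h3⟩⟩
          · by_cases hr : rr z ∈ L
            · exact Or.inr (Or.inr (Or.inl ⟨⟨h2, h1, hr⟩, fun h3 => h ⟨_, h3⟩⟩))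
            · refine Or.inr (Or.inl ⟨⟨h2, h1, hr⟩, c1.2 fun hy => h ?_⟩)
              rw [hL, not_not] at hr
              exact row_full mθ mu hN h2 h1 hr hy
        · have h2 := kd_le_nn z
          refine Or.inr (Or.inr (Or.inr ⟨by omega, ?_⟩))
          obtain ⟨t, ht⟩ := (T_iff mθ).1 hN (el θ N (pre X (th z)))
          exact ⟨max (th z) t, ⟨le_max_left _ _,
            lt_of_lt_of_le ht (el_mono' mθ (le_max_right _ _))⟩, fun h3 => h ⟨_, h3⟩⟩
      · rintro (⟨h1, h2⟩ | ⟨⟨h1, h2, h3⟩, h4⟩ | ⟨⟨h1, h2, h3⟩, h4⟩ | ⟨h1, t, h2, h3⟩)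
        · rw [higher hs0 h1]
          exact h2
        · intro h
          have h5 := coded h1 h
          rw [h2] at h5
          exact c1.1 h4 h5
        · intro h
          refine h4 (ht1 (rr z) ?_ t1 le_rfl ((hL _).1 h3) z h1 h2 rfl h)
          by_contra hc
          exact (hL _).1 h3 (hb _ (not_lt.1 hc))
        · rw [lower mθ h1 h2.2]
          exact h3
    have pk := pf_kd (β := ℕ) (z := fun z => z) (by fun_prop)
    have pr := pf_rr (β := ℕ) (z := fun z => z) (by fun_prop)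
    have py := pf_yy (β := ℕ) (z := fun z => z) (by fun_prop)
    have pn := pf_nn (β := ℕ) (z := fun z => z) (by fun_prop)
    have q1 : SI Z fun z : ℕ => kd z < N ∧ ¬ z ∈ AA θ u X s0 :=
      SI.of_prim (PrimrecPred.and (pp_lt pk (by fun_prop))
        (PrimrecPred.not (pp_mem (by fun_prop) (Primrec.const _))))
    have q2 : SI Z fun z : ℕ => (z % 2 = 1 ∧ kd z = N ∧ ¬ rr z ∈ L) ∧
        chr (U u N X) (yy z) = false := by
      refine SI.and (SI.of_prim (PrimrecPred.and (pp_eq (by fun_prop) (by fun_prop))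
        (PrimrecPred.and (pp_eq pk (by fun_prop)) (PrimrecPred.not (pp_mem pr (by fun_prop)))))) ?_
      exact (tLe_iff_SI.1 hZ2).comp (f := fun z : ℕ => (yy z, false)) (py.pair (Primrec.const false))
    have q3 : SI Z fun z : ℕ => (z % 2 = 1 ∧ kd z = N ∧ rr z ∈ L) ∧ ¬ z ∈ AA θ u X t1 :=
      SI.of_prim (PrimrecPred.and (PrimrecPred.and (pp_eq (by fun_prop) (by fun_prop))
        (PrimrecPred.and (pp_eq pk (by fun_prop)) (pp_mem pr (by fun_prop))))
        (PrimrecPred.not (pp_mem (by fun_prop) (Primrec.const _))))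
    have q4 : SI Z fun z : ℕ => N < nn z ∧ ∃ t, (th z ≤ t ∧
        el θ N (pre X (th z)) < el θ N (pre X t)) ∧ ¬ z ∈ AA θ u X t := by
      refine SI.and (SI.of_prim (pp_lt (by fun_prop) pn)) ?_
      exact SI.trans (SI.ex (p := fun (z t : ℕ) => (th z ≤ t ∧
        el θ N (pre X (th z)) < el θ N (pre X t)) ∧ ¬ z ∈ AA θ u X t)
        (SI.and (si_exp hθ X N) (si_not_mem hθ hu X))) hZ
    have q5 : SI Z fun z : ℕ => ¬ ∃ s, z ∈ AA θ u X s :=
      (q1.or (q2.or (q3.or q4))).of_eq fun z => (key z).symm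
    have q6 : SI Z fun z : ℕ => ∃ s, z ∈ AA θ u X s := (si_ex_mem hθ hu X).trans hZ
    have hX1 : ∀ c : Bool, SI Z fun m : ℕ => X (m / 2) = c := fun c =>
      (tLe_iff_SI.1 hZ).comp (f := fun m : ℕ => (m / 2, c)) (by fun_prop)
    refine tLe_of_two ?_ ?_
    · refine (SI.or (SI.and (SI.of_prim (p := fun m : ℕ => m % 2 = 0)
        (pp_eq (by fun_prop) (by fun_prop))) (hX1 true)) (SI.and (SI.of_prim
        (p := fun m : ℕ => ¬ m % 2 = 0) (PrimrecPred.not (pp_eq (by fun_prop) (by fun_prop))))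
        (q6.comp (f := fun m : ℕ => m / 2) (by fun_prop)))).of_eq fun m => ?_
      unfold WA
      by_cases hm : m % 2 = 0
      · simp [hm]
      · simp [hm]
    · refine (SI.or (SI.and (SI.of_prim (p := fun m : ℕ => m % 2 = 0)
        (pp_eq (by fun_prop) (by fun_prop))) (hX1 false)) (SI.and (SI.of_prim
        (p := fun m : ℕ => ¬ m % 2 = 0) (PrimrecPred.not (pp_eq (by fun_prop) (by fun_prop))))
        (q5.comp (f := fun m : ℕ => m / 2) (by fun_prop)))).of_eq fun m => ?_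
      unfold WA
      by_cases hm : m % 2 = 0
      · simp [hm]
      · simp [hm]
  · have hf : Primrec fun n : ℕ => cond (decide (n % 2 = 0)) n (2 * (2 * Nat.pair N
        (Nat.pair b (n / 2)) + 1) + 1) :=
      Primrec.cond (pf_decide (pp_eq (by fun_prop) (by fun_prop)) _) (by fun_prop) (by fun_prop)
    refine tLe_of_computable hf.to_comp fun n => ?_
    unfold join
    by_cases hn : n % 2 = 0
    · rw [if_pos hn, decide_eq_true hn, cond_true]
      unfold WA
      rw [if_pos hn]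
    · rw [if_neg hn, decide_eq_false hn, cond_false]
      rw [Bool.eq_iff_iff, WA_odd]
      have h1 : (2 * Nat.pair N (Nat.pair b (n / 2)) + 1) = cz N b (n / 2) := rfl
      rw [h1]
      have h2 : chr (U u N X) (n / 2) = true ↔ n / 2 ∈ U u N X := by simp [chr]
      rw [h2]
      constructor
      · intro hy
        refine row_full mθ mu hN (cz_odd _ _ _) (kd_cz _ _ _) ?_ (by rw [yy_cz]; exact hy)
        rw [rr_cz]
        exact hb b le_rfl
      · intro h
        have := coded (cz_odd _ _ _) h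
        rwa [kd_cz, yy_cz] at this

end Pool.Agent.H649.PT
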